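import Pool.Agent.SMG.Defs

/-! RUN: runs over concatenated lists; the maximum matching size is attained. -/

namespace SMG

theorem runFrom_append {V : Type} {b : ℕ} (A : SAlg V b) (t : ℕ) (m : Fin (2 ^ b))
    (l₁ l₂ : List (Sym2 V)) :
    A.runFrom t m (l₁ ++ l₂) = A.runFrom (t + l₁.length) (A.runFrom t m l₁) l₂ := by
  induction l₁ generalizing t m with
  | nil => rfl
  | cons e l ih =>
    show A.runFrom (t + 1) (A.step t m e) (l ++ l₂) = _
    rw [ih, List.length_cons]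
    have h : t + 1 + l.length = t + (l.length + 1) := by omega
    rw [h]
    rfl

open Classical in
theorem nu_bdd {V : Type} (σ : List (Sym2 V)) :
    BddAbove {k | ∃ M : Finset (Sym2 V), (∀ e ∈ M, e ∈ σ) ∧ IsMatch M ∧ M.card = k} := by
  refine ⟨σ.length, ?_⟩
  rintro k ⟨M, h1, -, rfl⟩
  have h3 : M ⊆ σ.toFinset := fun e he => List.mem_toFinset.2 (h1 e he)
  exact (Finset.card_le_card h3).trans (List.toFinset_card_le σ)

theorem le_nu {V : Type} (σ : List (Sym2 V)) (M : Finset (Sym2 V)) (h1 : ∀ e ∈ M, e ∈ σ)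
    (h2 : IsMatch M) : M.card ≤ nu σ :=
  le_csSup (nu_bdd σ) ⟨M, h1, h2, rfl⟩

theorem nu_spec {V : Type} (σ : List (Sym2 V)) :
    ∃ M : Finset (Sym2 V), (∀ e ∈ M, e ∈ σ) ∧ IsMatch M ∧ M.card = nu σ := by
  have h : nu σ ∈ {k | ∃ M : Finset (Sym2 V), (∀ e ∈ M, e ∈ σ) ∧ IsMatch M ∧ M.card = k} := by
    refine Nat.sSup_mem ?_ (nu_bdd σ)
    refine ⟨0, ∅, ?_, ?_, rfl⟩
    · intro e he
      exact absurd he (Finset.notMem_empty e)
    · intro e he
      exact absurd he (Finset.notMem_empty e)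
  exact h

end SMG
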