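import Mathlib

/-! TRP: integer flows with bounded row and column sums give a matching of the blown-up atoms. -/

namespace SMG

theorem transport {α β : Type} [Fintype α] [Fintype β] [DecidableEq α] [DecidableEq β]
    (ca : α → ℕ) (cb : β → ℕ) (f : α → β → ℕ)
    (ha : ∀ x, ∑ y, f x y ≤ ca x) (hb : ∀ y, ∑ x, f x y ≤ cb y) :
    ∃ M : Finset ((Σ x : α, Fin (ca x)) × (Σ y : β, Fin (cb y))),
      M.card = ∑ x, ∑ y, f x y ∧
      (∀ m ∈ M, 0 < f m.1.1 m.2.1) ∧
      ∀ m ∈ M, ∀ m' ∈ M, (m.1 = m'.1 ∨ m.2 = m'.2) → m = m' := by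
  classical
  have h1 : ∀ x, Nonempty ((Σ y, Fin (f x y)) ↪ Fin (ca x)) := by
    intro x
    apply Function.Embedding.nonempty_of_card_le
    simpa [Fintype.card_sigma] using ha x
  have h2 : ∀ y, Nonempty ((Σ x, Fin (f x y)) ↪ Fin (cb y)) := by
    intro y
    apply Function.Embedding.nonempty_of_card_le
    simpa [Fintype.card_sigma] using hb y
  let g : ∀ x, (Σ y, Fin (f x y)) ↪ Fin (ca x) := fun x => Classical.choice (h1 x)
  let h : ∀ y, (Σ x, Fin (f x y)) ↪ Fin (cb y) := fun y => Classical.choice (h2 y)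
  let φ : (Σ x, Σ y, Fin (f x y)) → (Σ x : α, Fin (ca x)) × (Σ y : β, Fin (cb y)) :=
    fun s => (⟨s.1, g s.1 s.2⟩, ⟨s.2.1, h s.2.1 ⟨s.1, s.2.2⟩⟩)
  have k1 : ∀ s t, (φ s).1 = (φ t).1 → s = t := by
    rintro ⟨x, s⟩ ⟨x', s'⟩ hst
    simp only [φ] at hst
    have hx : x = x' := congrArg Sigma.fst hst
    subst hx
    have h3 : g x s = g x s' := by
      simpa using hst
    rw [(g x).injective h3]
  have k2 : ∀ s t, (φ s).2 = (φ t).2 → s = t := by
    rintro ⟨x, y, k⟩ ⟨x', y', k'⟩ hst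
    simp only [φ] at hst
    have hy : y = y' := congrArg Sigma.fst hst
    subst hy
    have h3 : h y ⟨x, k⟩ = h y ⟨x', k'⟩ := by
      simpa using hst
    have h4 := (h y).injective h3
    have hx : x = x' := congrArg Sigma.fst h4
    subst hx
    have h5 : k = k' := by simpa using h4
    rw [h5]
  have hinj : Function.Injective φ := fun s t hst => k1 s t (congrArg Prod.fst hst)
  refine ⟨Finset.univ.image φ, ?_, ?_, ?_⟩
  · rw [Finset.card_image_of_injective _ hinj]
    simp [Fintype.card_sigma]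
  · intro m hm
    simp only [Finset.mem_image, Finset.mem_univ, true_and] at hm
    obtain ⟨⟨x, y, k⟩, rfl⟩ := hm
    exact lt_of_le_of_lt (Nat.zero_le _) k.2
  · intro m hm m' hm' hh
    simp only [Finset.mem_image, Finset.mem_univ, true_and] at hm hm'
    obtain ⟨s, rfl⟩ := hm
    obtain ⟨t, rfl⟩ := hm'
    rcases hh with hh | hh
    · rw [k1 s t hh]
    · rw [k2 s t hh]

end SMG
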