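import Pool.Agent.SMG.Defs
import Pool.Agent.SMG.TRP

/-! AGG: certificates of the interval game.

In phase `i` there are `a i` new left types and `b i` new right types, joined to all types of the
other side which are already there; `x j` units stop after phase `j` with the left side open,
`y j` units with the right side open.  A left atom is a pair (birth `i`, stop `j`), `i ≤ j`, of
capacity `a i * x j`; a right atom has capacity `b i * y j`.  Two atoms may be matched if both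
births are at most both stops. -/

namespace SMG

/-- Total mass of the closed pairs. -/
def aggZ (N : ℕ) (a b x y : ℕ → ℕ) : ℕ :=
  ∑ j ∈ Finset.range N, ∑ i ∈ Finset.range (j + 1), (b i * x j + a i * y j)

/-- Pairs of an index below `N` and a copy. -/
abbrev AggS (N : ℕ) (a : ℕ → ℕ) : Type := Σ i : Fin N, Fin (a i)

/-- The birth of a type. -/
def aggBirth {N : ℕ} {a b : ℕ → ℕ} : AggS N a ⊕ AggS N b → ℕ
  | Sum.inl t => t.1
  | Sum.inr t => t.1

/-- The open types of a unit. -/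
def aggOpn {N : ℕ} {a b x y : ℕ → ℕ} : AggS N x ⊕ AggS N y → AggS N a ⊕ AggS N b → Prop
  | Sum.inl _, Sum.inl _ => True
  | Sum.inl u, Sum.inr t => (u.1 : ℕ) < t.1
  | Sum.inr u, Sum.inl t => (u.1 : ℕ) < t.1
  | Sum.inr _, Sum.inr _ => True

/-- A left or right atom as a pair of copies. -/
def aggAtom {N : ℕ} (a x : ℕ → ℕ) (s : Σ s : Fin N × Fin N, Fin (a s.1 * x s.2)) :
    AggS N a × AggS N x :=
  (⟨s.1.1, (finProdFinEquiv.symm s.2).1⟩, ⟨s.1.2, (finProdFinEquiv.symm s.2).2⟩)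

theorem aggAtom_inj {N : ℕ} (a x : ℕ → ℕ) : Function.Injective (aggAtom (N := N) a x) := by
  rintro ⟨⟨i, j⟩, k⟩ ⟨⟨i', j'⟩, k'⟩ h
  obtain ⟨h1, h2⟩ := Prod.mk.inj h
  obtain ⟨h3, h4⟩ := Sigma.mk.inj h1
  obtain ⟨h5, h6⟩ := Sigma.mk.inj h2
  have h3' : i = i' := h3
  have h5' : j = j' := h5
  subst h3'
  subst h5'
  have h7 : finProdFinEquiv.symm k = finProdFinEquiv.symm k' :=
    Prod.ext (eq_of_heq h4) (eq_of_heq h6)
  rw [finProdFinEquiv.symm.injective h7]

/-- The atoms on the left side. -/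
def aggL {N : ℕ} (a b x y : ℕ → ℕ) (s : Σ s : Fin N × Fin N, Fin (a s.1 * x s.2)) :
    (AggS N a ⊕ AggS N b) × (AggS N x ⊕ AggS N y) :=
  (Sum.inl (aggAtom a x s).1, Sum.inl (aggAtom a x s).2)

/-- The atoms on the right side. -/
def aggR {N : ℕ} (a b x y : ℕ → ℕ) (s : Σ s : Fin N × Fin N, Fin (b s.1 * y s.2)) :
    (AggS N a ⊕ AggS N b) × (AggS N x ⊕ AggS N y) :=
  (Sum.inr (aggAtom b y s).1, Sum.inr (aggAtom b y s).2)

theorem aggL_inj {N : ℕ} (a b x y : ℕ → ℕ) : Function.Injective (aggL (N := N) a b x y) := by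
  intro s t h
  obtain ⟨h1, h2⟩ := Prod.mk.inj h
  exact aggAtom_inj a x (Prod.ext (Sum.inl.inj h1) (Sum.inl.inj h2))

theorem aggR_inj {N : ℕ} (a b x y : ℕ → ℕ) : Function.Injective (aggR (N := N) a b x y) := by
  intro s t h
  obtain ⟨h1, h2⟩ := Prod.mk.inj h
  exact aggAtom_inj b y (Prod.ext (Sum.inr.inj h1) (Sum.inr.inj h2))

/-- Reordering a sum over `i ≤ j`. -/
theorem agg_sum (N : ℕ) (g : ℕ → ℕ → ℕ) :
    ∑ j : Fin N, ∑ i : Fin N, (if (i : ℕ) ≤ j then g i j else 0) =
      ∑ j ∈ Finset.range N, ∑ i ∈ Finset.range (j + 1), g i j := by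
  rw [Fin.sum_univ_eq_sum_range (fun j => ∑ i : Fin N, if (i : ℕ) ≤ j then g i j else 0) N]
  refine Finset.sum_congr rfl fun j hj => ?_
  rw [Finset.mem_range] at hj
  rw [Fin.sum_univ_eq_sum_range (fun i => if i ≤ j then g i j else 0) N, ← Finset.sum_filter]
  refine Finset.sum_congr ?_ fun _ _ => rfl
  ext i
  rw [Finset.mem_filter, Finset.mem_range, Finset.mem_range]
  omega

open Classical in
theorem agg_card (N : ℕ) (a b x y : ℕ → ℕ) :
    Nat.card {s : (AggS N a ⊕ AggS N b) × (AggS N x ⊕ AggS N y) // ¬ aggOpn s.2 s.1} =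
      aggZ N a b x y := by
  rw [Nat.card_eq_fintype_card, Fintype.card_subtype, Finset.card_filter]
  rw [Fintype.sum_prod_type_right, Fintype.sum_sum_type, Fintype.sum_sigma, Fintype.sum_sigma]
  simp only [Fintype.sum_sum_type, Fintype.sum_sigma]
  have e1 : ∀ (u : AggS N x) (t : AggS N a), aggOpn (b := b) (y := y) (Sum.inl u) (Sum.inl t) =
    True := fun _ _ => rfl
  have e2 : ∀ (u : AggS N x) (t : AggS N b), aggOpn (a := a) (y := y) (Sum.inl u) (Sum.inr t) =
    ((u.1 : ℕ) < t.1) := fun _ _ => rfl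
  have e3 : ∀ (u : AggS N y) (t : AggS N a), aggOpn (b := b) (x := x) (Sum.inr u) (Sum.inl t) =
    ((u.1 : ℕ) < t.1) := fun _ _ => rfl
  have e4 : ∀ (u : AggS N y) (t : AggS N b), aggOpn (a := a) (x := x) (Sum.inr u) (Sum.inr t) =
    True := fun _ _ => rfl
  simp only [e1, e2, e3, e4, not_true_eq_false, if_false, not_lt, Finset.sum_const_zero, zero_add,
    add_zero, Finset.sum_const, Finset.card_univ, Fintype.card_fin, smul_eq_mul]
  rw [aggZ, ← agg_sum, ← Finset.sum_add_distrib]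
  refine Finset.sum_congr rfl fun j _ => ?_
  rw [Finset.mul_sum, Finset.mul_sum, ← Finset.sum_add_distrib]
  refine Finset.sum_congr rfl fun i _ => ?_
  split_ifs <;> ring

theorem agg (N : ℕ) (a b x y : ℕ → ℕ) (f : (Fin N × Fin N) → (Fin N × Fin N) → ℕ)
    (hpos : ∀ s t, 0 < f s t → s.1 ≤ s.2 ∧ t.1 ≤ t.2 ∧ s.1 ≤ t.2 ∧ t.1 ≤ s.2)
    (ha : ∀ s, ∑ t, f s t ≤ a s.1 * x s.2) (hb : ∀ t, ∑ s, f s t ≤ b t.1 * y t.2)
    (h0 : 0 < ∑ j ∈ Finset.range N, (x j + y j)) :
    ∃ (T U : Type) (_ : Fintype T) (_ : Fintype U) (_ : Nonempty U) (C : Cert T U N),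
      C.z = aggZ N a b x y ∧ C.h = ∑ s, ∑ t, f s t := by
  obtain ⟨M, hM1, hM2, hM3⟩ := transport (fun s : Fin N × Fin N => a s.1 * x s.2)
    (fun t : Fin N × Fin N => b t.1 * y t.2) f ha hb
  have hne : Nonempty (AggS N x ⊕ AggS N y) := by
    obtain ⟨j, hj, hj2⟩ := Finset.exists_ne_zero_of_sum_ne_zero h0.ne'
    rw [Finset.mem_range] at hj
    rcases Nat.eq_zero_or_pos (x j) with h | h
    · have h2 : 0 < y j := by omega
      exact ⟨Sum.inr ⟨⟨j, hj⟩, ⟨0, h2⟩⟩⟩
    · exact ⟨Sum.inl ⟨⟨j, hj⟩, ⟨0, h⟩⟩⟩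
  let C : Cert (AggS N a ⊕ AggS N b) (AggS N x ⊕ AggS N y) N :=
    { left := Sum.isLeft
      ph := fun t t' => max (aggBirth t) (aggBirth t')
      stop := aggBirth
      stop_lt := by
        rintro (u | u)
        · exact u.1.2
        · exact u.1.2
      opn := aggOpn
      indep := by
        rintro (u | u) (t | t) (t' | t') h1 h2 h3 ⟨h4, h5⟩
        · cases h2
        · have h6 : (u.1 : ℕ) < t'.1 := h5
          have h7 : max (t.1 : ℕ) t'.1 ≤ u.1 := h3
          have := le_max_right (t.1 : ℕ) t'.1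
          omega
        · cases h2
        · cases h1
        · cases h2
        · have h6 : (u.1 : ℕ) < t.1 := h4
          have h7 : max (t.1 : ℕ) t'.1 ≤ u.1 := h3
          have := le_max_left (t.1 : ℕ) t'.1
          omega
        · cases h2
        · cases h1
      M := M.map ⟨fun m => (aggL a b x y m.1, aggR a b x y m.2), fun m m' h =>
        Prod.ext (aggL_inj a b x y (Prod.mk.inj h).1) (aggR_inj a b x y (Prod.mk.inj h).2)⟩
      M_spec := by
        intro m' hm'
        obtain ⟨m, hm, rfl⟩ := Finset.mem_map.1 hm'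
        obtain ⟨h1, h2, h3, h4⟩ := hpos _ _ (hM2 m hm)
        refine ⟨rfl, rfl, trivial, trivial, ?_, ?_⟩
        · exact max_le h1 h4
        · exact max_le h3 h2
      M_match := by
        intro n hn n' hn' h
        obtain ⟨m, hm, rfl⟩ := Finset.mem_map.1 hn
        obtain ⟨m', hm', rfl⟩ := Finset.mem_map.1 hn'
        have h2 : m = m' := by
          apply hM3 m hm m' hm'
          rcases h with h | h
          · exact Or.inl (aggL_inj a b x y h)
          · exact Or.inr (aggR_inj a b x y h)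
        rw [h2] }
  refine ⟨_, _, inferInstance, inferInstance, hne, C, agg_card N a b x y, ?_⟩
  show (M.map _).card = _
  rw [Finset.card_map, hM1]

end SMG
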