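import Pool.Agent.SMG.Defs

/-! ALV: phase `i` only depends on the earlier special directions. -/

namespace SMG

variable {Pos Dir T U : Type} {N D : ℕ}

theorem delta_congr (G : Geo Pos Dir (Fin N → ZMod D)) {P P' : Fin N → Dir} {i : ℕ}
    (h : ∀ l : Fin N, (l : ℕ) < i → P l = P' l) (x : Pos) (l : Fin N) (hl : (l : ℕ) < i) :
    delta G P x l = delta G P' x l := by
  unfold delta
  refine Finset.sum_congr rfl fun j hj => ?_
  have hjl : j ≤ l := (Finset.mem_filter.1 hj).2
  rw [h j (lt_of_le_of_lt (Fin.le_def.1 hjl) hl)]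

theorem alv_aux (C : Cert T U N) (G : Geo Pos Dir (Fin N → ZMod D)) (R : Roles N D U C.stop)
    {P P' : Fin N → Dir} {i : ℕ} (h : ∀ l : Fin N, (l : ℕ) < i → P l = P' l) (x : Pos)
    (ha : alive C G R P i x) : alive C G R P' i x := by
  unfold alive unitOf at *
  by_contra hc
  have hlt : C.stop (R.unit (delta G P' x)) < i := not_le.1 hc
  have he : R.unit (delta G P x) = R.unit (delta G P' x) := by
    refine R.adapted (delta G P' x) (delta G P x) fun l hl => ?_
    exact (delta_congr G h x l (lt_of_le_of_lt hl hlt)).symm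
  rw [he] at ha
  exact hc ha

theorem alive_congr (C : Cert T U N) (G : Geo Pos Dir (Fin N → ZMod D)) (R : Roles N D U C.stop)
    {P P' : Fin N → Dir} {i : ℕ} (h : ∀ l : Fin N, (l : ℕ) < i → P l = P' l) (x : Pos) :
    alive C G R P i x ↔ alive C G R P' i x :=
  ⟨alv_aux C G R h x, alv_aux C G R (fun l hl => (h l hl).symm) x⟩

theorem slotOK_congr (C : Cert T U N)
    (G : Geo Pos Dir (Fin N → ZMod D)) (R : Roles N D U C.stop)
    {P P' : Fin N → Dir} {i : ℕ} (h : ∀ l : Fin N, (l : ℕ) < i → P l = P' l) :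
    (slotOK C G R P i : Dir → JJ Pos T → Prop) = slotOK C G R P' i := by
  funext p j
  apply propext
  unfold slotOK
  rw [alive_congr C G R h j.1.1, alive_congr C G R h j.2.1]
  refine and_congr ?_ Iff.rfl
  constructor
  · intro h1 l hl
    rw [← h l hl]
    exact h1 l hl
  · intro h1 l hl
    rw [h l hl]
    exact h1 l hl

theorem phaseList_congr [Fintype Pos] [Fintype Dir] [Fintype T] (C : Cert T U N)
    (G : Geo Pos Dir (Fin N → ZMod D)) (R : Roles N D U C.stop)
    {P P' : Fin N → Dir} {i : ℕ} (h : ∀ l : Fin N, (l : ℕ) < i → P l = P' l)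
    (X : Dir → JJ Pos T → Bool) :
    phaseList C G R P i X = phaseList C G R P' i X := by
  unfold phaseList
  rw [slotOK_congr C G R h]

theorem phaseList_length [Fintype Pos] [Fintype Dir] [Fintype T] (C : Cert T U N)
    (G : Geo Pos Dir (Fin N → ZMod D)) (R : Roles N D U C.stop)
    (P : Fin N → Dir) (i : ℕ) (X X' : Dir → JJ Pos T → Bool) :
    (phaseList C G R P i X).length = (phaseList C G R P i X').length := by
  unfold phaseList
  rw [List.length_flatMap, List.length_flatMap]
  rfl

end SMG
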