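import Pool.Agent.SMG.Defs

/-! ASY: choice of the parameters.  Take a prime `q` between `(log n) ^ (1/4)` and twice that
number, and `d = ⌊κ q / (2 L)⌋`. -/

namespace SMG

open Filter

private theorem params_aux (L W c : ℕ) (hL : 0 < L) (hW : 0 < W) (κ K : ℝ) (hκ : 0 < κ)
    (hκ1 : κ ≤ 1) (n : ℕ) (hn : 1 ≤ n) (y : ℝ) (hy : y ^ 4 = Real.log n) (hy1 : 1 ≤ y)
    (hy2 : 8 * (L : ℝ) + W ≤ y) (hy3 : K ≤ y) (hy4 : (2 * L / κ) * (4 * c + 3) ≤ y) :
    ∃ q d : ℕ, q.Prime ∧ 0 < d ∧ d ≤ q ∧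
      2 * ((L : ℝ) * d) ≤ κ * q ∧ W * (q * L) ^ (q * q) ≤ n ∧
      K * Real.log n ^ c ≤ (q : ℝ) ^ d := by
  have hL' : (1 : ℝ) ≤ L := by exact_mod_cast hL
  have hW' : (1 : ℝ) ≤ W := by exact_mod_cast hW
  have hm0 : ⌊y⌋₊ ≠ 0 := by
    have : 1 ≤ ⌊y⌋₊ := Nat.le_floor (by simpa using hy1)
    omega
  obtain ⟨q, hq, hmq, hq2⟩ := Nat.exists_prime_lt_and_le_two_mul ⌊y⌋₊ hm0
  have hyq : y ≤ q := by
    have h1 := Nat.lt_floor_add_one y
    have h2 : ((⌊y⌋₊ + 1 : ℕ) : ℝ) ≤ q := by exact_mod_cast hmq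
    push_cast at h2
    linarith
  have hq2y : (q : ℝ) ≤ 2 * y := by
    have h1 := Nat.floor_le (by linarith : (0 : ℝ) ≤ y)
    have h2 : (q : ℝ) ≤ ((2 * ⌊y⌋₊ : ℕ) : ℝ) := by exact_mod_cast hq2
    push_cast at h2
    linarith
  have hq1 : (1 : ℝ) ≤ q := hy1.trans hyq
  set d : ℕ := ⌊κ * q / (2 * L)⌋₊ with hd
  have hpos : (0 : ℝ) ≤ κ * q / (2 * L) := by positivity
  have hd1 : (d : ℝ) ≤ κ * q / (2 * L) := Nat.floor_le hpos
  have hd2 : κ * q / (2 * L) < d + 1 := Nat.lt_floor_add_one _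
  have h5 : (4 * c + 3 : ℝ) ≤ κ * q / (2 * L) := by
    have h6 := hy4.trans hyq
    rw [le_div_iff₀ (by positivity)]
    have h7 : (4 * (c : ℝ) + 3) * (2 * L) = κ * ((2 * L / κ) * (4 * c + 3)) := by
      field_simp
    rw [h7]
    exact mul_le_mul_of_nonneg_left h6 hκ.le
  have hdc : 4 * c + 1 ≤ d := by
    have : (4 * c + 1 : ℝ) < d := by linarith
    exact_mod_cast this.le
  refine ⟨q, d, hq, by omega, ?_, ?_, ?_, ?_⟩
  · have h8 : (d : ℝ) ≤ q := by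
      refine hd1.trans ?_
      rw [div_le_iff₀ (by positivity)]
      nlinarith
    exact_mod_cast h8
  · rw [le_div_iff₀ (by positivity)] at hd1
    linarith
  · have hn' : (0 : ℝ) < n := by exact_mod_cast hn
    have hgoal : (W : ℝ) * ((q : ℝ) * L) ^ (q * q) ≤ n := by
      rw [← Real.log_le_log_iff (by positivity) hn', Real.log_mul (by positivity) (by positivity),
        Real.log_pow, ← hy]
      have h9 : Real.log W ≤ W := (Real.log_le_self (by positivity))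
      have h10 : Real.log ((q : ℝ) * L) ≤ q * L := Real.log_le_self (by positivity)
      have h11 : ((q * q : ℕ) : ℝ) * Real.log ((q : ℝ) * L) ≤ 8 * L * y ^ 3 := by
        push_cast
        calc (q : ℝ) * q * Real.log ((q : ℝ) * L) ≤ (q : ℝ) * q * (q * L) :=
              mul_le_mul_of_nonneg_left h10 (by positivity)
          _ = (q : ℝ) ^ 3 * L := by ring
          _ ≤ (2 * y) ^ 3 * L := by
              refine mul_le_mul_of_nonneg_right ?_ (by positivity)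
              exact pow_le_pow_left₀ (by positivity) hq2y 3
          _ = 8 * L * y ^ 3 := by ring
      have h12 : (W : ℝ) ≤ W * y ^ 3 := le_mul_of_one_le_right (by positivity) (one_le_pow₀ hy1)
      calc Real.log W + ((q * q : ℕ) : ℝ) * Real.log ((q : ℝ) * L) ≤
          W * y ^ 3 + 8 * L * y ^ 3 := by linarith
        _ = (8 * L + W) * y ^ 3 := by ring
        _ ≤ y * y ^ 3 := mul_le_mul_of_nonneg_right hy2 (by positivity)
        _ = y ^ 4 := by ring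
    exact_mod_cast hgoal
  · rw [← hy, ← pow_mul]
    calc K * y ^ (4 * c) ≤ y * y ^ (4 * c) := mul_le_mul_of_nonneg_right hy3 (by positivity)
      _ = y ^ (4 * c + 1) := by ring
      _ ≤ (q : ℝ) ^ (4 * c + 1) := pow_le_pow_left₀ (by linarith) hyq _
      _ ≤ (q : ℝ) ^ d := pow_le_pow_right₀ hq1 hdc

theorem params (L W c : ℕ) (hL : 0 < L) (hW : 0 < W) (κ K : ℝ) (hκ : 0 < κ) :
    ∀ᶠ n : ℕ in atTop, ∃ q d : ℕ, q.Prime ∧ 0 < d ∧ d ≤ q ∧
      2 * ((L : ℝ) * d) ≤ κ * q ∧ W * (q * L) ^ (q * q) ≤ n ∧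
      K * Real.log n ^ c ≤ (q : ℝ) ^ d := by
  have hκ' : 0 < min κ 1 := lt_min hκ one_pos
  have ht : Tendsto (fun n : ℕ => Real.log n ^ (1 / 4 : ℝ)) atTop atTop :=
    (tendsto_rpow_atTop (by norm_num)).comp (Real.tendsto_log_atTop.comp tendsto_natCast_atTop_atTop)
  filter_upwards [ht.eventually_ge_atTop 1, ht.eventually_ge_atTop (8 * (L : ℝ) + W),
    ht.eventually_ge_atTop K, ht.eventually_ge_atTop ((2 * L / min κ 1) * (4 * c + 3)),
    eventually_ge_atTop 1] with n h1 h2 h3 h4 h5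
  have hlog : 0 ≤ Real.log n := Real.log_nonneg (by exact_mod_cast h5)
  obtain ⟨q, d, hq, hd, hdq, ha, hb, hc⟩ := params_aux L W c hL hW (min κ 1) K hκ'
    (min_le_right _ _) n h5 (Real.log n ^ (1 / 4 : ℝ)) (by
      rw [← Real.rpow_natCast, ← Real.rpow_mul hlog]
      norm_num) h1 h2 h3 h4
  exact ⟨q, d, hq, hd, hdq, ha.trans (mul_le_mul_of_nonneg_right (min_le_left _ _)
    (Nat.cast_nonneg q)), hb, hc⟩

end SMG
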