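import Pool.Agent.SMG.Defs

/-! AVG: an upper bound on all two-coordinate fibres gives an upper bound on the whole count. -/

namespace SMG

private def avgEquiv {ι Dir X : Type} [DecidableEq ι] (i j : ι)
    (Bad : (ι → Dir) × (ι → X) → Prop) :
    (Σ θ : (ι → Dir) × (ι → X),
      {s : Dir × X // Bad (Function.update θ.1 j s.1, Function.update θ.2 i s.2)}) ≃
    {θ : (ι → Dir) × (ι → X) // Bad θ} × (Dir × X) where
  toFun t := (⟨(Function.update t.1.1 j t.2.1.1, Function.update t.1.2 i t.2.1.2), t.2.2⟩,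
    (t.1.1 j, t.1.2 i))
  invFun t := ⟨(Function.update t.1.1.1 j t.2.1, Function.update t.1.1.2 i t.2.2),
    ⟨(t.1.1.1 j, t.1.1.2 i), by
      simp only [Function.update_idem, Function.update_eq_self]
      exact t.1.2⟩⟩
  left_inv t := by
    obtain ⟨⟨a, b⟩, ⟨⟨c, d⟩, h⟩⟩ := t
    apply Sigma.subtype_ext
    · simp
    · simp
  right_inv t := by
    obtain ⟨⟨⟨a, b⟩, h⟩, ⟨c, d⟩⟩ := t
    simp

theorem avg_update {ι Dir X : Type} [Fintype ι] [DecidableEq ι] [Fintype Dir] [Nonempty Dir]
    [Fintype X] [Nonempty X] (i j : ι) (Bad : (ι → Dir) × (ι → X) → Prop) (η : ℝ)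
    (h : ∀ θ : (ι → Dir) × (ι → X),
      (Nat.card {s : Dir × X // Bad (Function.update θ.1 j s.1, Function.update θ.2 i s.2)} : ℝ) ≤
        η * (Nat.card Dir * Nat.card X)) :
    (Nat.card {θ // Bad θ} : ℝ) ≤ η * Nat.card ((ι → Dir) × (ι → X)) := by
  classical
  have h1 : Nat.card (Σ θ : (ι → Dir) × (ι → X),
      {s : Dir × X // Bad (Function.update θ.1 j s.1, Function.update θ.2 i s.2)})
      = Nat.card {θ // Bad θ} * (Nat.card Dir * Nat.card X) := by
    rw [Nat.card_congr (avgEquiv i j Bad), Nat.card_prod, Nat.card_prod]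
  rw [Nat.card_sigma] at h1
  have h2 : ∑ θ : (ι → Dir) × (ι → X),
      (Nat.card {s : Dir × X // Bad (Function.update θ.1 j s.1, Function.update θ.2 i s.2)} : ℝ)
      ≤ ∑ _θ : (ι → Dir) × (ι → X), η * (Nat.card Dir * Nat.card X) :=
    Finset.sum_le_sum fun θ _ => h θ
  rw [Finset.sum_const, nsmul_eq_mul, Finset.card_univ, ← Nat.card_eq_fintype_card] at h2
  have h3 : (∑ θ : (ι → Dir) × (ι → X),
      (Nat.card {s : Dir × X // Bad (Function.update θ.1 j s.1, Function.update θ.2 i s.2)} : ℝ))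
      = (Nat.card {θ // Bad θ} : ℝ) * (Nat.card Dir * Nat.card X) := by
    exact_mod_cast h1
  rw [h3] at h2
  have hD : (0 : ℝ) < Nat.card Dir := by exact_mod_cast Nat.card_pos
  have hX : (0 : ℝ) < Nat.card X := by exact_mod_cast Nat.card_pos
  have hpos : (0 : ℝ) < (Nat.card Dir : ℝ) * Nat.card X := mul_pos hD hX
  refine le_of_mul_le_mul_right ?_ hpos
  calc (Nat.card {θ // Bad θ} : ℝ) * (Nat.card Dir * Nat.card X) ≤ _ := h2
    _ = _ := by ring

/-- Few tuples are not injective. -/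
theorem noninj_count (N : ℕ) {Dir X : Type} [Fintype Dir] [Nonempty Dir] [Fintype X] [Nonempty X] :
    (Nat.card {θ : (Fin N → Dir) × (Fin N → X) // ¬ Function.Injective θ.1} : ℝ) ≤
      (N : ℝ) ^ 2 / Nat.card Dir * Nat.card ((Fin N → Dir) × (Fin N → X)) := by
  classical
  have hD : (0 : ℝ) < Nat.card Dir := by exact_mod_cast Nat.card_pos
  have hpair : ∀ a b : Fin N, a ≠ b →
      (Nat.card {θ : (Fin N → Dir) × (Fin N → X) // θ.1 a = θ.1 b} : ℝ) ≤
      1 / Nat.card Dir * Nat.card ((Fin N → Dir) × (Fin N → X)) := by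
    intro a b hab
    apply avg_update a a (fun θ : (Fin N → Dir) × (Fin N → X) => θ.1 a = θ.1 b)
    intro θ
    have e : {s : Dir × X // Function.update θ.1 a s.1 a = Function.update θ.1 a s.1 b} ≃ X :=
      { toFun := fun s => s.1.2
        invFun := fun x => ⟨(θ.1 b, x), by simp [Function.update_of_ne hab.symm]⟩
        left_inv := by
          rintro ⟨⟨p, x⟩, h⟩
          simp only [Function.update_self, Function.update_of_ne hab.symm] at h
          simp [h]
        right_inv := fun x => rfl }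
    have hc : (Nat.card {s : Dir × X // Function.update θ.1 a s.1 a
        = Function.update θ.1 a s.1 b} : ℝ) = Nat.card X := by
      rw [Nat.card_congr e]
    show (Nat.card {s : Dir × X // Function.update θ.1 a s.1 a
        = Function.update θ.1 a s.1 b} : ℝ) ≤ _
    rw [hc]
    apply le_of_eq
    field_simp
  have hun : Nat.card {θ : (Fin N → Dir) × (Fin N → X) // ¬ Function.Injective θ.1} ≤
      ∑ p ∈ (Finset.univ : Finset (Fin N × Fin N)).filter (fun p => p.1 ≠ p.2),
        Nat.card {θ : (Fin N → Dir) × (Fin N → X) // θ.1 p.1 = θ.1 p.2} := by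
    have e1 : ∀ p : Fin N × Fin N,
        Nat.card {θ : (Fin N → Dir) × (Fin N → X) // θ.1 p.1 = θ.1 p.2}
        = (Finset.univ.filter (fun θ : (Fin N → Dir) × (Fin N → X) =>
          θ.1 p.1 = θ.1 p.2)).card := by
      intro p
      rw [Nat.card_eq_fintype_card, Fintype.card_subtype]
    rw [Nat.card_eq_fintype_card, Fintype.card_subtype, Finset.sum_congr rfl (fun p _ => e1 p)]
    refine le_trans (Finset.card_le_card ?_) Finset.card_biUnion_le
    intro θ hθ
    simp only [Finset.mem_filter, Finset.mem_univ, true_and, Function.Injective, not_forall] at hθ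
    obtain ⟨a, b, hab, hne⟩ := hθ
    simp only [Finset.mem_biUnion, Finset.mem_filter, Finset.mem_univ, true_and]
    exact ⟨(a, b), hne, hab⟩
  have hun' : (Nat.card {θ : (Fin N → Dir) × (Fin N → X) // ¬ Function.Injective θ.1} : ℝ) ≤
      ∑ p ∈ (Finset.univ : Finset (Fin N × Fin N)).filter (fun p => p.1 ≠ p.2),
        (Nat.card {θ : (Fin N → Dir) × (Fin N → X) // θ.1 p.1 = θ.1 p.2} : ℝ) := by
    exact_mod_cast hun
  refine hun'.trans ?_
  have h4 : ∑ p ∈ (Finset.univ : Finset (Fin N × Fin N)).filter (fun p => p.1 ≠ p.2),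
        (Nat.card {θ : (Fin N → Dir) × (Fin N → X) // θ.1 p.1 = θ.1 p.2} : ℝ) ≤
      ∑ p ∈ (Finset.univ : Finset (Fin N × Fin N)).filter (fun p => p.1 ≠ p.2),
        (1 / Nat.card Dir * Nat.card ((Fin N → Dir) × (Fin N → X)) : ℝ) := by
    apply Finset.sum_le_sum
    intro p hp
    simp only [Finset.mem_filter, Finset.mem_univ, true_and] at hp
    exact hpair p.1 p.2 hp
  refine h4.trans ?_
  rw [Finset.sum_const, nsmul_eq_mul]
  have h5 : (((Finset.univ : Finset (Fin N × Fin N)).filter (fun p => p.1 ≠ p.2)).card : ℝ)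
      ≤ (N : ℝ) ^ 2 := by
    have : ((Finset.univ : Finset (Fin N × Fin N)).filter (fun p => p.1 ≠ p.2)).card ≤ N ^ 2 := by
      refine (Finset.card_le_univ _).trans ?_
      simp [Fintype.card_prod, sq]
    exact_mod_cast this
  have h6 : (0 : ℝ) ≤ 1 / Nat.card Dir * Nat.card ((Fin N → Dir) × (Fin N → X)) := by positivity
  calc _ ≤ (N : ℝ) ^ 2 * (1 / Nat.card Dir * Nat.card ((Fin N → Dir) × (Fin N → X))) :=
        mul_le_mul_of_nonneg_right h5 h6
    _ = _ := by ring

end SMG
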