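import Pool.Agent.SMG.Defs

/-! BLK: on a clean block of the special direction `P i` whose positions are alive in phase `i`,
all units with stop at least `i` are equally frequent; such a block has `D ^ N` positions. -/

namespace SMG

variable {Pos Dir T U : Type} {N D : ℕ}

theorem blk_card (G : Geo Pos Dir (Fin N → ZMod D)) (hD : 0 < D) (p : Dir) (x₀ : Pos) :
    Nat.card {x // G.blk p x = G.blk p x₀} = D ^ N := by
  have h : Function.Bijective (fun x : {x // G.blk p x = G.blk p x₀} => G.arc p x.1) := by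
    constructor
    · intro x x' hxx
      apply Subtype.ext
      exact (G.arc_inj p x.1 x'.1 (x'.2.trans x.2.symm) hxx.symm).symm
    · intro r
      obtain ⟨x', h1, h2⟩ := G.arc_ex p x₀ r
      exact ⟨⟨x', h1⟩, h2⟩
  rw [Nat.card_congr (Equiv.ofBijective _ h), Nat.card_fun, Nat.card_zmod, Nat.card_fin]

/-- the arcs of the other special directions are constant on clean blocks -/
theorem blk_arc_const (G : Geo Pos Dir (Fin N → ZMod D))
    (P : Fin N → Dir) (hP : Function.Injective P) (i : Fin N) (x₀ x : Pos)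
    (hx : x₀ ∉ nonclean G P i) (hb : G.blk (P i) x = G.blk (P i) x₀) (j : Fin N) (hj : j ≠ i) :
    G.arc (P j) x = G.arc (P j) x₀ := by
  refine G.good_spec (P j) (P i) x₀ x (fun h => hj (hP h).symm) hb ?_
  by_contra hg
  exact hx ⟨x₀, rfl, j, hg⟩

theorem blk_delta_lt (G : Geo Pos Dir (Fin N → ZMod D))
    (P : Fin N → Dir) (hP : Function.Injective P) (i : Fin N) (x₀ x : Pos)
    (hx : x₀ ∉ nonclean G P i) (hb : G.blk (P i) x = G.blk (P i) x₀) (l : Fin N)
    (hl : (l : ℕ) < i) : delta G P x l = delta G P x₀ l := by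
  unfold delta
  refine Finset.sum_congr rfl (fun j hj => ?_)
  have hjl : j ≤ l := (Finset.mem_filter.1 hj).2
  rw [blk_arc_const G P hP i x₀ x hx hb j]
  intro h
  subst h
  exact absurd (Fin.le_def.1 hjl) (by omega)

theorem blk_delta_ge (G : Geo Pos Dir (Fin N → ZMod D))
    (P : Fin N → Dir) (hP : Function.Injective P) (i : Fin N) (x₀ x : Pos)
    (hx : x₀ ∉ nonclean G P i) (hb : G.blk (P i) x = G.blk (P i) x₀) (l : Fin N)
    (hl : (i : ℕ) ≤ l) :
    delta G P x l = G.arc (P i) x l + (delta G P x₀ l - G.arc (P i) x₀ l) := by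
  have h : delta G P x l - delta G P x₀ l = G.arc (P i) x l - G.arc (P i) x₀ l := by
    unfold delta
    rw [← Finset.sum_sub_distrib, Finset.sum_eq_single i]
    · intro j _ hj
      rw [blk_arc_const G P hP i x₀ x hx hb j hj, sub_self]
    · intro hi
      have hil : i ≤ l := Fin.le_def.2 hl
      exact absurd (Finset.mem_filter.2 ⟨Finset.mem_univ i, hil⟩) hi
  rw [sub_eq_iff_eq_add] at h
  rw [h]
  ring

theorem blk_alive (C : Cert T U N) (G : Geo Pos Dir (Fin N → ZMod D)) (R : Roles N D U C.stop)
    (P : Fin N → Dir) (hP : Function.Injective P) (i : Fin N) (x₀ x : Pos)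
    (hx : x₀ ∉ nonclean G P i) (hb : G.blk (P i) x = G.blk (P i) x₀)
    (hal : alive C G R P (i : ℕ) x₀) : alive C G R P (i : ℕ) x := by
  unfold alive unitOf at hal ⊢
  by_contra hlt
  push Not at hlt
  have h : R.unit (delta G P x₀) = R.unit (delta G P x) := by
    refine R.adapted _ _ (fun l hl => ?_)
    exact blk_delta_lt G P hP i x₀ x hx hb l (by omega)
  rw [h] at hal
  omega

theorem blk_equi (C : Cert T U N) (G : Geo Pos Dir (Fin N → ZMod D)) (R : Roles N D U C.stop)
    (hD : 0 < D) (P : Fin N → Dir) (hP : Function.Injective P) (i : Fin N) (x₀ : Pos)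
    (hx : x₀ ∉ nonclean G P i) (hal : alive C G R P (i : ℕ) x₀) (u u' : U)
    (hu : (i : ℕ) ≤ C.stop u) (hu' : (i : ℕ) ≤ C.stop u') :
    Nat.card {x // G.blk (P i) x = G.blk (P i) x₀ ∧ unitOf C G R P x = u} =
      Nat.card {x // G.blk (P i) x = G.blk (P i) x₀ ∧ unitOf C G R P x = u'} := by
  have key : ∀ v : U, Nat.card {x // G.blk (P i) x = G.blk (P i) x₀ ∧ unitOf C G R P x = v} =
      Nat.card (({l : Fin N // (l : ℕ) < i} → ZMod D) × {δ : Fin N → ZMod D //
        (∀ l : Fin N, (l : ℕ) < i → δ l = delta G P x₀ l) ∧ R.unit δ = v}) := by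
    intro v
    let f : {x // G.blk (P i) x = G.blk (P i) x₀ ∧ unitOf C G R P x = v} →
        (({l : Fin N // (l : ℕ) < i} → ZMod D) × {δ : Fin N → ZMod D //
        (∀ l : Fin N, (l : ℕ) < i → δ l = delta G P x₀ l) ∧ R.unit δ = v}) := fun x =>
      (fun l => G.arc (P i) x.1 l.1, ⟨delta G P x.1,
        fun l hl => blk_delta_lt G P hP i x₀ x.1 hx x.2.1 l hl, x.2.2⟩)
    have hf : Function.Bijective f := by
      constructor
      · intro x x' hxx
        apply Subtype.ext
        have h1 : (fun l : {l : Fin N // (l : ℕ) < i} => G.arc (P i) x.1 l.1) =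
            fun l => G.arc (P i) x'.1 l.1 := congrArg Prod.fst hxx
        have h2 : delta G P x.1 = delta G P x'.1 :=
          congrArg Subtype.val (congrArg Prod.snd hxx)
        refine (G.arc_inj (P i) x.1 x'.1 (x'.2.1.trans x.2.1.symm) ?_).symm
        funext l
        rcases lt_or_ge (l : ℕ) (i : ℕ) with hl | hl
        · exact (congrFun h1 ⟨l, hl⟩).symm
        · have h3 := congrFun h2 l
          rw [blk_delta_ge G P hP i x₀ x.1 hx x.2.1 l hl,
            blk_delta_ge G P hP i x₀ x'.1 hx x'.2.1 l hl] at h3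
          exact (add_right_cancel h3).symm
      · rintro ⟨s, δ, hδ, hδv⟩
        obtain ⟨x', hb, ha⟩ := G.arc_ex (P i) x₀ (fun l => if h : (l : ℕ) < i then s ⟨l, h⟩ else
          δ l - (delta G P x₀ l - G.arc (P i) x₀ l))
        have hdel : delta G P x' = δ := by
          funext l
          rcases lt_or_ge (l : ℕ) (i : ℕ) with hl | hl
          · rw [blk_delta_lt G P hP i x₀ x' hx hb l hl, hδ l hl]
          · rw [blk_delta_ge G P hP i x₀ x' hx hb l hl, ha]
            simp only
            rw [dif_neg (by omega)]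
            ring
        refine ⟨⟨x', hb, ?_⟩, ?_⟩
        · unfold unitOf
          rw [hdel, hδv]
        · refine Prod.ext ?_ (Subtype.ext hdel)
          funext l
          show G.arc (P i) x' l.1 = s l
          rw [ha]
          simp only
          rw [dif_pos l.2]
    exact Nat.card_congr (Equiv.ofBijective f hf)
  rw [key u, key u', Nat.card_prod, Nat.card_prod]
  congr 1
  exact R.equi i (delta G P x₀) hal u u' hu hu'

end SMG
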