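import Pool.Agent.SMG.FIB
import Pool.Agent.SMG.BLK

/-! PAR: partners of the hidden matching, and exact unit counts. -/

namespace SMG

variable {Pos Dir T U : Type} {N D : ℕ}

theorem nonclean_congr (G : Geo Pos Dir (Fin N → ZMod D)) (P : Fin N → Dir) (i : Fin N)
    (x x' : Pos) (h : G.blk (P i) x = G.blk (P i) x') :
    x ∈ nonclean G P i ↔ x' ∈ nonclean G P i := by
  unfold nonclean
  simp only [Set.mem_ofPred_eq, h]

theorem partner [Finite Pos] (C : Cert T U N) (G : Geo Pos Dir (Fin N → ZMod D))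
    (R : Roles N D U C.stop)
    (hD : 0 < D) (P : Fin N → Dir) (hP : Function.Injective P) (i : Fin N) (u u' : U)
    (hu : (i : ℕ) ≤ C.stop u) (hu' : (i : ℕ) ≤ C.stop u') :
    ∃ g : {x // x ∉ nonclean G P i ∧ unitOf C G R P x = u} ≃
        {x // x ∉ nonclean G P i ∧ unitOf C G R P x = u'},
      ∀ x, G.blk (P i) (g x).1 = G.blk (P i) x.1 := by
  refine fib_equiv (G.blk (P i)) _ _ (fun y => ?_)
  by_cases hy : ∃ x₀, G.blk (P i) x₀ = y ∧ x₀ ∉ nonclean G P i ∧ alive C G R P (i : ℕ) x₀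
  · obtain ⟨x₀, rfl, hx₀, hal⟩ := hy
    have key : ∀ v : U, Nat.card {x // G.blk (P i) x = G.blk (P i) x₀ ∧
        (x ∉ nonclean G P i ∧ unitOf C G R P x = v)} =
        Nat.card {x // G.blk (P i) x = G.blk (P i) x₀ ∧ unitOf C G R P x = v} := by
      intro v
      refine Nat.card_congr (Equiv.subtypeEquivRight (fun x => ?_))
      constructor
      · rintro ⟨h1, -, h2⟩
        exact ⟨h1, h2⟩
      · rintro ⟨h1, h2⟩
        exact ⟨h1, fun h => hx₀ ((nonclean_congr G P i x x₀ h1).1 h), h2⟩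
    rw [key u, key u']
    exact blk_equi C G R hD P hP i x₀ hx₀ hal u u' hu hu'
  · have key : ∀ v : U, (i : ℕ) ≤ C.stop v → Nat.card {x // G.blk (P i) x = y ∧
        (x ∉ nonclean G P i ∧ unitOf C G R P x = v)} = 0 := by
      intro v hv
      have : IsEmpty {x // G.blk (P i) x = y ∧
        (x ∉ nonclean G P i ∧ unitOf C G R P x = v)} := by
        refine ⟨?_⟩
        rintro ⟨x, h1, h2, h3⟩
        refine hy ⟨x, h1, h2, ?_⟩
        unfold alive
        rw [h3]
        exact hv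
      exact Nat.card_of_isEmpty
    rw [key u hu, key u' hu']

theorem unit_count [Fintype Pos] [Fintype U] (C : Cert T U N)
    (G : Geo Pos Dir (Fin N → ZMod D)) (R : Roles N D U C.stop)
    (hD : 0 < D) (P : Fin N → Dir) (hP : Function.Injective P) (hN : 0 < N) (u : U) :
    Nat.card U * Nat.card {x // x ∉ nonclean G P ⟨0, hN⟩ ∧ unitOf C G R P x = u} +
      Nat.card {x // x ∈ nonclean G P ⟨0, hN⟩} = Nat.card Pos := by
  classical
  have h1 : ∀ u' : U, Nat.card {x // x ∉ nonclean G P ⟨0, hN⟩ ∧ unitOf C G R P x = u'} =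
      Nat.card {x // x ∉ nonclean G P ⟨0, hN⟩ ∧ unitOf C G R P x = u} := by
    intro u'
    obtain ⟨g, -⟩ := partner C G R hD P hP ⟨0, hN⟩ u' u (Nat.zero_le _) (Nat.zero_le _)
    exact Nat.card_congr g
  have h2 : Nat.card {x // x ∉ nonclean G P ⟨0, hN⟩} =
      ∑ u' : U, Nat.card {x // x ∉ nonclean G P ⟨0, hN⟩ ∧ unitOf C G R P x = u'} := by
    simp only [Nat.card_eq_fintype_card, Fintype.card_subtype]
    rw [Finset.card_eq_sum_card_fiberwise (f := unitOf C G R P) (t := Finset.univ)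
      (fun x _ => Finset.mem_coe.2 (Finset.mem_univ _))]
    refine Finset.sum_congr rfl (fun u' _ => ?_)
    rw [Finset.filter_filter]
  have h3 : Nat.card {x // x ∉ nonclean G P ⟨0, hN⟩} +
      Nat.card {x // x ∈ nonclean G P ⟨0, hN⟩} = Nat.card Pos := by
    simp only [Nat.card_eq_fintype_card]
    rw [Fintype.card_subtype_compl]
    have := Fintype.card_subtype_le (fun x => x ∈ nonclean G P ⟨0, hN⟩)
    omega
  rw [Finset.sum_congr rfl (fun u' _ => h1 u'), Finset.sum_const, Finset.card_univ,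
    smul_eq_mul, ← Nat.card_eq_fintype_card] at h2
  rw [← h2, h3]

end SMG
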