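import Pool.Agent.SMG.RUN
import Pool.Agent.SMG.NDP
import Pool.Agent.SMG.PAR

/-! HID: the graph has a large matching: pendants of the closed vertices and hidden edges. -/

namespace SMG

variable {Pos Dir T U : Type} {N D : ℕ}

theorem edge_mem [Fintype Pos] [Fintype Dir] [Fintype T] (C : Cert T U N)
    (G : Geo Pos Dir (Fin N → ZMod D)) (R : Roles N D U C.stop)
    (P : Fin N → Dir) (hP : Function.Injective P) (X : Fin N → Dir → JJ Pos T → Bool)
    (i : Fin N) (a b : T) (ha : C.left a = true) (hb : C.left b = false)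
    (hph : C.ph a b = (i : ℕ)) (x x' : Pos) (hx : x ≠ x') (hbl : G.blk (P i) x = G.blk (P i) x')
    (h1 : alive C G R P (i : ℕ) x) (h2 : alive C G R P (i : ℕ) x') (τ : Bool) :
    edg x a τ x' b (xor τ (X i (P i) ((x, a), (x', b)))) ∈ stream C G R P X := by
  rw [mem_stream]
  left
  refine ⟨i, P i, ((x, a), (x', b)), τ, ⟨?_, ⟨ha, hb, hph, hx, hbl⟩, h1, h2⟩, rfl⟩
  intro l hl h
  have hil : i = l := hP h
  subst hil
  exact lt_irrefl _ hl

/-- A family of pairwise disjoint edges of the stream, indexed by a finite type. -/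
private theorem hid_family {V I : Type} [Fintype I] (σ : List (Sym2 V)) (e : I → Sym2 V)
    (h1 : ∀ i, e i ∈ σ) (h2 : ∀ i j v, v ∈ e i → v ∈ e j → i = j) :
    Fintype.card I ≤ nu σ := by
  classical
  have hinj : Function.Injective e := by
    intro i j hij
    have hv : (e i).out.1 ∈ e i := Sym2.out_fst_mem _
    exact h2 i j _ hv (hij ▸ hv)
  have h3 := le_nu σ (Finset.univ.image e)
    (by
      intro x hx
      obtain ⟨i, -, rfl⟩ := Finset.mem_image.1 hx
      exact h1 i)
    (by
      intro x hx y hy v hvx hvy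
      obtain ⟨i, -, rfl⟩ := Finset.mem_image.1 hx
      obtain ⟨j, -, rfl⟩ := Finset.mem_image.1 hy
      rw [h2 i j v hvx hvy])
  rwa [Finset.card_image_of_injective _ hinj, Finset.card_univ] at h3

/-- Positions outside `nonclean` are good in all special directions. -/
private theorem hid_good (G : Geo Pos Dir (Fin N → ZMod D)) (P : Fin N → Dir) (i : Fin N)
    (x : Pos) (hx : x ∉ nonclean G P i) (l : Fin N) : G.good (P l) x := by
  by_contra h
  exact hx ⟨x, rfl, l, h⟩

theorem hidden [Fintype Pos] [Fintype Dir] [Fintype T] (C : Cert T U N)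
    (G : Geo Pos Dir (Fin N → ZMod D)) (R : Roles N D U C.stop) (hD : 0 < D)
    (P : Fin N → Dir) (hP : Function.Injective P) (X : Fin N → Dir → JJ Pos T → Bool) (c : ℕ)
    (hc : ∀ (i : Fin N) (u : U),
      c ≤ Nat.card {x // x ∉ nonclean G P i ∧ unitOf C G R P x = u}) :
    (Zset C G R P).card + 2 * C.h * c ≤ nu (stream C G R P X) := by
  classical
  let ix : {m // m ∈ C.M} → Fin N := fun m =>
    ⟨C.ph m.1.1.1 m.1.2.1, lt_of_le_of_lt (C.M_spec m.1 m.2).2.2.2.2.1 (C.stop_lt _)⟩
  have hg : ∀ m : {m // m ∈ C.M},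
      ∃ g : {x // x ∉ nonclean G P (ix m) ∧ unitOf C G R P x = m.1.1.2} ≃
        {x // x ∉ nonclean G P (ix m) ∧ unitOf C G R P x = m.1.2.2},
      ∀ x, G.blk (P (ix m)) (g x).1 = G.blk (P (ix m)) x.1 := by
    intro m
    exact partner C G R hD P hP (ix m) m.1.1.2 m.1.2.2 (C.M_spec m.1 m.2).2.2.2.2.1
      (C.M_spec m.1 m.2).2.2.2.2.2
  choose g hgb using hg
  let J : Type := Σ m : {m // m ∈ C.M},
    ({x // x ∉ nonclean G P (ix m) ∧ unitOf C G R P x = m.1.1.2} × Bool)
  let ee : J → Sym2 (VV Pos T) := fun j =>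
    edg j.2.1.1 j.1.1.1.1 j.2.2 (g j.1 j.2.1).1 j.1.1.2.1
      (xor j.2.2 (X (ix j.1) (P (ix j.1))
        ((j.2.1.1, j.1.1.1.1), ((g j.1 j.2.1).1, j.1.1.2.1))))
  have hee : ∀ j : J, ee j ∈ stream C G R P X := by
    intro j
    obtain ⟨ha, hb, ho, ho', hs, hs'⟩ := C.M_spec j.1.1 j.1.2
    have hux : unitOf C G R P j.2.1.1 = j.1.1.1.2 := j.2.1.2.2
    have hugx : unitOf C G R P (g j.1 j.2.1).1 = j.1.1.2.2 := (g j.1 j.2.1).2.2
    refine edge_mem C G R P hP X (ix j.1) _ _ ha hb rfl _ _ ?_ (hgb j.1 j.2.1).symm ?_ ?_ j.2.2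
    · intro hxx
      have huu : j.1.1.1.2 = j.1.1.2.2 := by rw [← hux, ← hugx, ← hxx]
      exact C.indep j.1.1.1.2 _ _ ha hb hs ⟨ho, by rw [huu]; exact ho'⟩
    · show (ix j.1 : ℕ) ≤ C.stop (unitOf C G R P j.2.1.1)
      rw [hux]; exact hs
    · show (ix j.1 : ℕ) ≤ C.stop (unitOf C G R P (g j.1 j.2.1).1)
      rw [hugx]; exact hs'
  -- ends of the hidden edges
  have hends : ∀ (j : J) (v : VV Pos T), v ∈ ee j →
      v = Sum.inl (j.2.1.1, j.1.1.1.1, j.2.2) ∨
      v = Sum.inl ((g j.1 j.2.1).1, j.1.1.2.1, xor j.2.2 (X (ix j.1) (P (ix j.1))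
        ((j.2.1.1, j.1.1.1.1), ((g j.1 j.2.1).1, j.1.1.2.1)))) := by
    intro j v hv
    exact Sym2.mem_iff.1 hv
  have hdisj : ∀ (j j' : J) (v : VV Pos T), v ∈ ee j → v ∈ ee j' → j = j' := by
    rintro ⟨m, x, τ⟩ ⟨m', x', τ'⟩ v hv hv'
    obtain ⟨ha, hb, -, -, -, -⟩ := C.M_spec m.1 m.2
    obtain ⟨ha', hb', -, -, -, -⟩ := C.M_spec m'.1 m'.2
    rcases hends _ _ hv with h | h <;> rcases hends _ _ hv' with h' | h'
    · rw [h] at h'
      have h2 := Sum.inl_injective h'
      simp only [Prod.mk.injEq] at h2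
      obtain ⟨hxx, haa, hττ⟩ := h2
      have hm : m = m' := by
        apply Subtype.ext
        apply C.M_match m.1 m.2 m'.1 m'.2
        left
        apply Prod.ext haa
        rw [← x.2.2, ← x'.2.2, hxx]
      subst hm
      have hx : x = x' := Subtype.ext hxx
      subst hx
      subst hττ
      rfl
    · rw [h] at h'
      have h2 := Sum.inl_injective h'
      simp only [Prod.mk.injEq] at h2
      obtain ⟨-, haa, -⟩ := h2
      rw [haa] at ha
      rw [ha] at hb'
      exact absurd hb' (by decide)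
    · rw [h] at h'
      have h2 := Sum.inl_injective h'
      simp only [Prod.mk.injEq] at h2
      obtain ⟨-, haa, -⟩ := h2
      rw [haa] at hb
      rw [hb] at ha'
      exact absurd ha' (by decide)
    · rw [h] at h'
      have h2 := Sum.inl_injective h'
      simp only [Prod.mk.injEq] at h2
      obtain ⟨hxx, haa, hττ⟩ := h2
      have hm : m = m' := by
        apply Subtype.ext
        apply C.M_match m.1 m.2 m'.1 m'.2
        right
        apply Prod.ext haa
        rw [← (g m x).2.2, ← (g m' x').2.2, hxx]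
      subst hm
      have hx : x = x' := (g m).injective (Subtype.ext hxx)
      subst hx
      have hτ : τ = τ' := by
        revert hττ
        generalize (X (ix m) (P (ix m)) ((x.1, m.1.1.1), ((g m x).1, m.1.2.1))) = β
        cases τ <;> cases τ' <;> cases β <;> decide
      subst hτ
      rfl
  -- hidden ends are not closed
  have hopen : ∀ (j : J) (v : VV Pos T), v ∈ ee j → ∀ w ∈ Zset C G R P,
      v ∉ (s(Sum.inl w, Sum.inr w) : Sym2 (VV Pos T)) := by
    rintro ⟨m, x, τ⟩ v hv w hw hvw
    obtain ⟨-, -, ho, ho', -, -⟩ := C.M_spec m.1 m.2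
    have hw' : (∃ l, ¬ G.good (P l) w.1) ∨ ¬ C.opn (unitOf C G R P w.1) w.2.1 := by
      have := hw
      unfold Zset at this
      exact (Finset.mem_filter.1 this).2
    rcases Sym2.mem_iff.1 hvw with h | h
    · rcases hends _ _ hv with h' | h'
      · rw [h] at h'
        have h2 := Sum.inl_injective h'
        rw [h2] at hw'
        rcases hw' with ⟨l, hl⟩ | hl
        · exact hl (hid_good G P _ _ x.2.1 l)
        · apply hl
          show C.opn (unitOf C G R P x.1) m.1.1.1
          rw [x.2.2]; exact ho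
      · rw [h] at h'
        have h2 := Sum.inl_injective h'
        rw [h2] at hw'
        rcases hw' with ⟨l, hl⟩ | hl
        · exact hl (hid_good G P _ _ (g m x).2.1 l)
        · apply hl
          show C.opn (unitOf C G R P (g m x).1) m.1.2.1
          rw [(g m x).2.2]; exact ho'
    · rcases hends _ _ hv with h' | h' <;> rw [h] at h' <;> exact absurd h' (by simp)
  let I : Type := {w // w ∈ Zset C G R P} ⊕ J
  have hcard : Fintype.card I = (Zset C G R P).card + Fintype.card J := by
    rw [Fintype.card_sum, Fintype.card_coe]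
  have hJ : 2 * C.h * c ≤ Fintype.card J := by
    rw [Fintype.card_sigma]
    have h1 : ∀ m : {m // m ∈ C.M}, 2 * c ≤ Fintype.card
        ({x // x ∉ nonclean G P (ix m) ∧ unitOf C G R P x = m.1.1.2} × Bool) := by
      intro m
      rw [Fintype.card_prod, Fintype.card_bool, mul_comm]
      have := hc (ix m) m.1.1.2
      rw [Nat.card_eq_fintype_card] at this
      exact Nat.mul_le_mul_right 2 this
    calc 2 * C.h * c = ∑ _m : {m // m ∈ C.M}, 2 * c := by
          rw [Finset.sum_const, Finset.card_univ, Fintype.card_coe, smul_eq_mul]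
          show 2 * C.M.card * c = _
          ring
      _ ≤ _ := Finset.sum_le_sum (fun m _ => h1 m)
  have hmain : Fintype.card I ≤ nu (stream C G R P X) := by
    refine hid_family (stream C G R P X)
      (Sum.elim (fun w : {w // w ∈ Zset C G R P} =>
        (s(Sum.inl w.1, Sum.inr w.1) : Sym2 (VV Pos T))) ee) ?_ ?_
    · rintro (w | j)
      · rw [mem_stream]
        exact Or.inr ⟨w.1, w.2, rfl⟩
      · exact hee j
    · rintro (w | j) (w' | j') v hv hv'
      · congr 1
        apply Subtype.ext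
        rcases Sym2.mem_iff.1 hv with h | h <;> rcases Sym2.mem_iff.1 hv' with h' | h'
        · rw [h] at h'; exact Sum.inl_injective h'
        · rw [h] at h'; exact absurd h' (by simp)
        · rw [h] at h'; exact absurd h' (by simp)
        · rw [h] at h'; exact Sum.inr_injective h'
      · exact absurd hv (hopen j' v hv' w.1 w.2)
      · exact absurd hv' (hopen j v hv w'.1 w'.2)
      · rw [hdisj j j' v hv hv']
  omega

end SMG
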