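import Pool.Agent.SMG.BLK

/-! NCL: few positions lie in blocks with a bad position. -/

namespace SMG

variable {Pos Dir T U : Type} {N D : ℕ}

theorem nonclean_card [Fintype Pos] (G : Geo Pos Dir (Fin N → ZMod D)) (hD : 0 < D) (κ : ℝ)
    (hκ : ∀ p, (Nat.card {x // ¬ G.good p x} : ℝ) ≤ κ * Nat.card Pos)
    (P : Fin N → Dir) (i : Fin N) :
    (Nat.card {x // x ∈ nonclean G P i} : ℝ) ≤ (D : ℝ) ^ N * N * κ * Nat.card Pos := by
  classical
  have key : ∀ x : {x // x ∈ nonclean G P i}, ∃ s : (Σ l : Fin N, Σ x' : {x' // ¬ G.good (P l) x'},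
      {y // G.blk (P i) y = G.blk (P i) x'.1}), s.2.2.1 = x.1 := by
    rintro ⟨x, x', hb, l, hl⟩
    exact ⟨⟨l, ⟨x', hl⟩, ⟨x, hb.symm⟩⟩, rfl⟩
  choose f hf using key
  have hinj : Function.Injective f := by
    intro x y hxy
    apply Subtype.ext
    rw [← hf x, ← hf y, hxy]
  have h1 : Nat.card {x // x ∈ nonclean G P i} ≤
      Nat.card (Σ l : Fin N, Σ x' : {x' // ¬ G.good (P l) x'},
        {y // G.blk (P i) y = G.blk (P i) x'.1}) :=
    Nat.card_le_card_of_injective f hinj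
  have h2 : Nat.card (Σ l : Fin N, Σ x' : {x' // ¬ G.good (P l) x'},
        {y // G.blk (P i) y = G.blk (P i) x'.1}) =
      ∑ l : Fin N, Nat.card {x' // ¬ G.good (P l) x'} * D ^ N := by
    rw [Nat.card_sigma]
    refine Finset.sum_congr rfl fun l _ => ?_
    haveI : Fintype {x' // ¬ G.good (P l) x'} := Fintype.ofFinite _
    rw [Nat.card_sigma]
    rw [Finset.sum_congr rfl (fun x' _ => blk_card G hD (P i) x'.1)]
    rw [Finset.sum_const, smul_eq_mul, Nat.card_eq_fintype_card, Finset.card_univ]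
  have h3 : (Nat.card {x // x ∈ nonclean G P i} : ℝ) ≤
      ∑ l : Fin N, (Nat.card {x' // ¬ G.good (P l) x'} : ℝ) * (D : ℝ) ^ N := by
    have := h1.trans h2.le
    exact_mod_cast this
  refine h3.trans ?_
  calc ∑ l : Fin N, (Nat.card {x' // ¬ G.good (P l) x'} : ℝ) * (D : ℝ) ^ N
      ≤ ∑ _l : Fin N, (κ * Nat.card Pos) * (D : ℝ) ^ N := by
        refine Finset.sum_le_sum fun l _ => ?_
        exact mul_le_mul_of_nonneg_right (hκ (P l)) (by positivity)
    _ = (D : ℝ) ^ N * N * κ * Nat.card Pos := by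
        rw [Finset.sum_const, Finset.card_univ, Fintype.card_fin, nsmul_eq_mul]
        ring

end SMG
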