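import Pool.Agent.SMG.PAR

/-! ZUP: upper bound for the number of closed vertices. -/

namespace SMG

variable {Pos Dir T U : Type} {N D : ℕ}

open Classical in
/-- the number of types which are not open for a unit -/
noncomputable def zcnt [Fintype T] (C : Cert T U N) (u : U) : ℕ :=
  (Finset.univ.filter (fun a : T => ¬ C.opn u a)).card

theorem z_eq_sum [Fintype T] [Fintype U] (C : Cert T U N) :
    C.z = ∑ u : U, zcnt C u := by
  classical
  unfold Cert.z zcnt
  rw [Nat.card_eq_fintype_card, Fintype.card_subtype, Finset.card_filter,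
    Fintype.sum_prod_type_right]
  apply Finset.sum_congr rfl
  intro u _
  rw [Finset.card_filter]

theorem Zset_card [Fintype Pos] [Fintype T] [Fintype U] [Nonempty U] (C : Cert T U N)
    (G : Geo Pos Dir (Fin N → ZMod D)) (R : Roles N D U C.stop)
    (hD : 0 < D) (P : Fin N → Dir) (hP : Function.Injective P) (hN : 0 < N) :
    ((Zset C G R P).card : ℝ) ≤ 2 * C.z * Nat.card Pos / Nat.card U +
      2 * Nat.card T * Nat.card {x // x ∈ nonclean G P ⟨0, hN⟩} := by
  classical
  set nc : Set Pos := nonclean G P ⟨0, hN⟩ with hnc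
  have hUpos : (0 : ℝ) < (Nat.card U : ℝ) := by
    rw [Nat.card_eq_fintype_card]
    exact_mod_cast Fintype.card_pos
  let S1 : Finset (Vx Pos T) := Finset.univ.filter (fun v => v.1 ∈ nc)
  let S2 : Finset (Vx Pos T) := Finset.univ.filter
    (fun v => v.1 ∉ nc ∧ ¬ C.opn (unitOf C G R P v.1) v.2.1)
  have hsub : Zset C G R P ⊆ S1 ∪ S2 := by
    intro v hv
    unfold Zset at hv
    rw [Finset.mem_filter] at hv
    rw [Finset.mem_union, Finset.mem_filter, Finset.mem_filter]
    by_cases hx : v.1 ∈ nc
    · exact Or.inl ⟨Finset.mem_univ _, hx⟩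
    · refine Or.inr ⟨Finset.mem_univ _, hx, ?_⟩
      rcases hv.2 with h | h
      · exfalso
        apply hx
        rw [hnc]
        exact ⟨v.1, rfl, h⟩
      · exact h
  have hcard : (Zset C G R P).card ≤ S1.card + S2.card :=
    (Finset.card_le_card hsub).trans (Finset.card_union_le _ _)
  have hS1 : S1.card = 2 * Nat.card T * Nat.card {x // x ∈ nc} := by
    have h1 : S1 = (Finset.univ.filter (fun x : Pos => x ∈ nc)) ×ˢ
        (Finset.univ : Finset (T × Bool)) := by
      ext v
      simp [S1]
    rw [h1, Finset.card_product, Finset.card_univ, Fintype.card_prod, Fintype.card_bool,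
      Nat.card_eq_fintype_card, Nat.card_eq_fintype_card, Fintype.card_subtype]
    ring
  have hS2 : S2.card = ∑ x ∈ Finset.univ.filter (fun x : Pos => x ∉ nc),
      2 * zcnt C (unitOf C G R P x) := by
    rw [Finset.card_filter, Fintype.sum_prod_type, Finset.sum_filter]
    apply Finset.sum_congr rfl
    intro x _
    by_cases hx : x ∈ nc
    · simp [hx]
    · simp only [hx, not_false_eq_true, true_and, if_true]
      rw [Fintype.sum_prod_type]
      unfold zcnt
      rw [Finset.card_filter]
      rw [Finset.mul_sum]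
      apply Finset.sum_congr rfl
      intro a _
      show (∑ _y : Bool, if ¬ C.opn (unitOf C G R P x) a then 1 else 0) = _
      rw [Finset.sum_const, Finset.card_univ, Fintype.card_bool, smul_eq_mul]
  have hS2' : S2.card = ∑ u : U, Nat.card {x // x ∉ nc ∧ unitOf C G R P x = u} *
      (2 * zcnt C u) := by
    rw [hS2, ← Finset.sum_fiberwise (Finset.univ.filter (fun x : Pos => x ∉ nc))
      (fun x => unitOf C G R P x)]
    apply Finset.sum_congr rfl
    intro u _
    rw [Finset.sum_congr rfl (g := fun _ => 2 * zcnt C u)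
      (fun x hx => by rw [(Finset.mem_filter.mp hx).2]), Finset.sum_const, smul_eq_mul,
      Nat.card_eq_fintype_card, Fintype.card_subtype, Finset.filter_filter]
  have hcu : ∀ u : U, (Nat.card {x // x ∉ nc ∧ unitOf C G R P x = u} : ℝ) ≤
      Nat.card Pos / Nat.card U := by
    intro u
    rw [le_div_iff₀ hUpos]
    have h1 := unit_count C G R hD P hP hN u
    have h2 : Nat.card {x // x ∉ nc ∧ unitOf C G R P x = u} * Nat.card U ≤ Nat.card Pos := by
      rw [← h1, mul_comm]
      exact Nat.le_add_right _ _
    exact_mod_cast h2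
  have hS2r : (S2.card : ℝ) ≤ 2 * C.z * Nat.card Pos / Nat.card U := by
    rw [hS2', z_eq_sum]
    push_cast
    calc ∑ u : U, (Nat.card {x // x ∉ nc ∧ unitOf C G R P x = u} : ℝ) * (2 * (zcnt C u : ℝ))
        ≤ ∑ u : U, ((Nat.card Pos : ℝ) / Nat.card U) * (2 * (zcnt C u : ℝ)) := by
          apply Finset.sum_le_sum
          intro u _
          exact mul_le_mul_of_nonneg_right (hcu u) (by positivity)
      _ = 2 * (∑ u : U, (zcnt C u : ℝ)) * Nat.card Pos / Nat.card U := by
          rw [← Finset.mul_sum, ← Finset.mul_sum]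
          ring
  calc ((Zset C G R P).card : ℝ) ≤ ((S1.card + S2.card : ℕ) : ℝ) := by exact_mod_cast hcard
    _ = (S2.card : ℝ) + (S1.card : ℝ) := by push_cast; ring
    _ ≤ 2 * C.z * Nat.card Pos / Nat.card U + 2 * Nat.card T * Nat.card {x // x ∈ nc} := by
        apply add_le_add hS2r
        rw [hS1]
        push_cast
        exact le_rfl

end SMG
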