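import Pool.Agent.SMG.OUTB
import Pool.Agent.SMG.COV
import Pool.Agent.SMG.NCL
import Pool.Agent.SMG.ZUP
import Pool.Agent.SMG.HID

/-! CORE: a fixed algorithm rarely succeeds on the hard distribution. -/

namespace SMG

/-- The bad event of `out_bound`. -/
private def BadE {Pos Dir T U : Type} {N D : ℕ} [Fintype Pos] [Fintype Dir] [Fintype T]
    (C : Cert T U N)
    (G : Geo Pos Dir (Fin N → ZMod D)) (R : Roles N D U C.stop) {b : ℕ}
    (A : SAlg (VV Pos T) b) (B : ℕ) (i j : Fin N) (θ : Par Pos Dir T N) : Prop :=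
  by
    classical
    exact (∀ e ∈ A.output (stream C G R θ.1 θ.2), e ∈ stream C G R θ.1 θ.2) ∧
        2 * B ≤ ((A.output (stream C G R θ.1 θ.2)).filter
          (fun e => e ∈ Spec C G (i : ℕ) (θ.1 j))).card

/-- Union bound. -/
private theorem union_count {X I : Type} [Fintype X] [Fintype I] (S E : X → Prop)
    (F : I → X → Prop) (h : ∀ x, S x → E x ∨ ∃ i, F i x) :
    Nat.card {x // S x} ≤ Nat.card {x // E x} + ∑ i : I, Nat.card {x // F i x} := by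
  classical
  have h1 : Nat.card {x // S x} ≤ Nat.card ({x // E x} ⊕ (Σ i : I, {x // F i x})) := by
    refine Nat.card_le_card_of_surjective
      (f := (fun s : {s : {x // E x} ⊕ (Σ i : I, {x // F i x}) //
          S (Sum.elim (fun y => y.1) (fun y => y.2.1) s)} =>
        (⟨Sum.elim (fun y => y.1) (fun y => y.2.1) s.1, s.2⟩ : {x // S x}))) ?_ |>.trans ?_
    · rintro ⟨x, hx⟩
      rcases h x hx with h' | ⟨i, h'⟩
      · exact ⟨⟨Sum.inl ⟨x, h'⟩, hx⟩, rfl⟩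
      · exact ⟨⟨Sum.inr ⟨i, ⟨x, h'⟩⟩, hx⟩, rfl⟩
    · exact Nat.card_le_card_of_injective _ Subtype.val_injective
  rw [Nat.card_sum, Nat.card_sigma] at h1
  exact h1

/-- The arithmetic of the contradiction. -/
private theorem arith {z h u Tc P Z ν O κ' c B N α ε c₀ Q : ℝ}
    (hh : 0 ≤ h) (hu : 0 < u) (hTc : 0 ≤ Tc) (hP : 0 < P) (hα0 : 0 < α) (hα1 : α ≤ 1)
    (hκ' : 0 ≤ κ')
    (hε : ε = α * (z + h) - z)
    (hO : O ≤ Z + N ^ 2 * (2 * B)) (hν : Z + 2 * h * c ≤ ν) (hs : α * ν ≤ O)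
    (hZ : Z ≤ 2 * z * P / u + 2 * Tc * (κ' * P))
    (hc : P * (1 / u - 2 * κ') - 1 ≤ c)
    (hB : B ≤ Q * P)
    (hκ2 : (4 * h + 2 * Tc) * κ' < ε / u)
    (hP2 : 2 * h ≤ c₀ * P) (hc₀ : c₀ + 2 * N ^ 2 * Q < ε / u) : False := by
  have h1 : α * (Z + 2 * h * c) ≤ Z + N ^ 2 * (2 * B) :=
    (mul_le_mul_of_nonneg_left hν hα0.le).trans (hs.trans hO)
  have h2 : 2 * α * h * (P * (1 / u - 2 * κ') - 1) ≤ 2 * α * h * c := by
    apply mul_le_mul_of_nonneg_left hc; positivity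
  have h3 : (1 - α) * Z ≤ (1 - α) * (2 * z * P / u + 2 * Tc * (κ' * P)) :=
    mul_le_mul_of_nonneg_left hZ (by linarith)
  have h4 : 2 * N ^ 2 * B ≤ 2 * N ^ 2 * (Q * P) := by
    apply mul_le_mul_of_nonneg_left hB; positivity
  have h5 : (1 - α) * (2 * Tc * (κ' * P)) ≤ 2 * Tc * (κ' * P) := by
    have : 0 ≤ 2 * Tc * (κ' * P) := by positivity
    nlinarith
  have h6 : 2 * α * h * (2 * κ' * P) ≤ 2 * h * (2 * κ' * P) := by
    have : 0 ≤ 2 * h * (2 * κ' * P) := by positivity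
    nlinarith
  have h7 : 2 * α * h ≤ 2 * h := by nlinarith
  have h8 : (4 * h + 2 * Tc) * κ' * P < ε / u * P := mul_lt_mul_of_pos_right hκ2 hP
  have h9 : (c₀ + 2 * N ^ 2 * Q) * P < ε / u * P := mul_lt_mul_of_pos_right hc₀ hP
  have h10 : 2 * (ε / u * P) = 2 * α * h * (P * (1 / u)) - (1 - α) * (2 * z * P / u) := by
    rw [hε]; field_simp; ring
  linarith [h1, h2, h3, h4, h5, h6, h7, h8, h9, h10, hP2]

theorem core {T U : Type} [Fintype T] [Fintype U] [Nonempty U] {N D : ℕ} (hD : 0 < D)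
    (C : Cert T U N) (R : Roles N D U C.stop) (α δ : ℝ) (hα : (C.z : ℝ) < α * (C.z + C.h))
    (hα1 : α ≤ 1) (hδ : 0 < δ) :
    ∃ κ : ℝ, 0 < κ ∧ ∃ c₀ : ℝ, 0 < c₀ ∧ ∀ (Pos Dir : Type) [Fintype Pos] [Fintype Dir]
      (G : Geo Pos Dir (Fin N → ZMod D)) (b : ℕ),
      (∀ p, (Nat.card {x // ¬ G.good p x} : ℝ) ≤ κ * Nat.card Pos) →
      (b : ℝ) ≤ c₀ * Nat.card Pos * Nat.card Dir →
      1 / c₀ ≤ (Nat.card Pos : ℝ) → 1 / c₀ ≤ (Nat.card Dir : ℝ) →
      ∀ A : SAlg (VV Pos T) b,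
        (Nat.card {θ : Par Pos Dir T N // Success α A (stream C G R θ.1 θ.2)} : ℝ) ≤
          δ * Nat.card (Par Pos Dir T N) := by
  classical
  -- N > 0
  have hN : 0 < N := lt_of_le_of_lt (Nat.zero_le _) (C.stop_lt (Classical.arbitrary U))
  have hNr : (1 : ℝ) ≤ N := by exact_mod_cast hN
  have hz : (0 : ℝ) ≤ C.z := Nat.cast_nonneg _
  have hh : (0 : ℝ) ≤ C.h := Nat.cast_nonneg _
  have hzh : (0 : ℝ) ≤ (C.z : ℝ) + C.h := by positivity
  have hα0 : 0 < α := by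
    by_contra hcon
    have h1 : α * (C.z + C.h) ≤ 0 := mul_nonpos_of_nonpos_of_nonneg (not_lt.1 hcon) hzh
    linarith
  set u : ℝ := (Nat.card U : ℝ) with hu_def
  have hu : 0 < u := by
    have : 0 < Nat.card U := Nat.card_pos
    rw [hu_def]
    exact_mod_cast this
  set Tc : ℝ := (Nat.card T : ℝ) with hTc_def
  have hTc : 0 ≤ Tc := Nat.cast_nonneg _
  obtain ⟨ε, hε⟩ : ∃ ε : ℝ, ε = α * (C.z + C.h) - C.z := ⟨_, rfl⟩
  have hε0 : 0 < ε := by rw [hε]; linarith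
  have hεu : 0 < ε / u := div_pos hε0 hu
  have hNN : (0 : ℝ) < (N : ℝ) ^ 2 := by positivity
  -- a
  obtain ⟨a, ha⟩ : ∃ a : ℕ, (1 / 2 : ℝ) ^ a < δ / (4 * (N : ℝ) ^ 2) :=
    exists_pow_lt_of_lt_one (by positivity) (by norm_num)
  obtain ⟨η, hη⟩ : ∃ η : ℝ, η = δ / (4 * (N : ℝ) ^ 2) := ⟨_, rfl⟩
  have hη0 : 0 < η := by rw [hη]; positivity
  -- κ
  have hDN : (0 : ℝ) < (D : ℝ) ^ N * N := by
    have : (0 : ℝ) < D := by exact_mod_cast hD
    positivity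
  obtain ⟨κ, hκ⟩ : ∃ κ : ℝ, κ = ε / u / (2 * ((4 * C.h + 2 * Tc + 1) * ((D : ℝ) ^ N * N))) :=
    ⟨_, rfl⟩
  have hκ0 : 0 < κ := by rw [hκ]; positivity
  have hκ2 : (4 * C.h + 2 * Tc) * ((D : ℝ) ^ N * N * κ) < ε / u := by
    have h1 : (4 * C.h + 2 * Tc + 1) * ((D : ℝ) ^ N * N * κ) = ε / u / 2 := by
      rw [hκ]; field_simp
    have h2 : 0 < (D : ℝ) ^ N * N * κ := mul_pos hDN hκ0
    nlinarith
  -- c₀
  obtain ⟨W, hW⟩ : ∃ W : ℝ, W = 1 + (2 + (a : ℝ)) / η := ⟨_, rfl⟩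
  have hW1 : 1 ≤ W := by
    rw [hW]
    have : 0 ≤ (2 + (a : ℝ)) / η := by positivity
    linarith
  obtain ⟨c₀, hc₀⟩ : ∃ c₀ : ℝ, c₀ = min 1 (min (δ / (4 * (N : ℝ) ^ 2))
      (ε / u / (2 * (2 * C.h + 2 * (N : ℝ) ^ 2 * W + 1)))) := ⟨_, rfl⟩
  have hden : 0 < 2 * C.h + 2 * (N : ℝ) ^ 2 * W + 1 := by positivity
  have hc₀0 : 0 < c₀ := by
    rw [hc₀]
    refine lt_min one_pos (lt_min (by positivity) (by positivity))
  have hc₀1 : c₀ ≤ 1 := by rw [hc₀]; exact min_le_left _ _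
  have hc₀2 : c₀ ≤ δ / (4 * (N : ℝ) ^ 2) := by
    rw [hc₀]; exact (min_le_right _ _).trans (min_le_left _ _)
  have hc₀3 : c₀ ≤ ε / u / (2 * (2 * C.h + 2 * (N : ℝ) ^ 2 * W + 1)) := by
    rw [hc₀]; exact (min_le_right _ _).trans (min_le_right _ _)
  have hc₀4 : 2 * C.h * c₀ + 2 * (N : ℝ) ^ 2 * (W * c₀) < ε / u := by
    have h1 : (2 * C.h + 2 * (N : ℝ) ^ 2 * W + 1) * c₀ ≤ ε / u / 2 := by
      calc (2 * C.h + 2 * (N : ℝ) ^ 2 * W + 1) * c₀
          ≤ (2 * C.h + 2 * (N : ℝ) ^ 2 * W + 1) *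
            (ε / u / (2 * (2 * C.h + 2 * (N : ℝ) ^ 2 * W + 1))) :=
            mul_le_mul_of_nonneg_left hc₀3 hden.le
        _ = ε / u / 2 := by field_simp
    nlinarith
  refine ⟨κ, hκ0, c₀, hc₀0, ?_⟩
  intro Pos Dir _ _ G b hgood hb hPos hDir A
  have hPos1 : (1 : ℝ) ≤ c₀ * Nat.card Pos := by
    have := mul_le_mul_of_nonneg_left hPos hc₀0.le
    rwa [mul_one_div_cancel hc₀0.ne'] at this
  have hDir1 : (1 : ℝ) ≤ c₀ * Nat.card Dir := by
    have := mul_le_mul_of_nonneg_left hDir hc₀0.le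
    rwa [mul_one_div_cancel hc₀0.ne'] at this
  obtain ⟨P, hPdef⟩ : ∃ P : ℝ, P = (Nat.card Pos : ℝ) := ⟨_, rfl⟩
  obtain ⟨t, htdef⟩ : ∃ t : ℝ, t = (Nat.card Dir : ℝ) := ⟨_, rfl⟩
  rw [← hPdef] at hPos1 hPos
  rw [← htdef] at hDir1 hDir
  have hP0 : 0 < P := by
    by_contra hcon
    have : c₀ * P ≤ 0 := mul_nonpos_of_nonneg_of_nonpos hc₀0.le (not_lt.1 hcon)
    linarith
  have ht0 : 0 < t := by
    by_contra hcon
    have : c₀ * t ≤ 0 := mul_nonpos_of_nonneg_of_nonpos hc₀0.le (not_lt.1 hcon)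
    linarith
  have ht1 : 1 ≤ t := by nlinarith
  have : Nonempty Dir := by
    have : 0 < Nat.card Dir := by
      have : (0 : ℝ) < (Nat.card Dir : ℝ) := by rw [← htdef]; exact ht0
      exact_mod_cast this
    exact (Nat.card_pos_iff.1 this).1
  -- B
  obtain ⟨B, hBdef⟩ : ∃ B : ℕ, B = ⌈((b : ℝ) + t + a) / (η * t)⌉₊ := ⟨_, rfl⟩
  have hηt : 0 < η * t := mul_pos hη0 ht0
  have hB1 : ((b : ℝ) + t + a) / (η * t) ≤ B := by rw [hBdef]; exact Nat.le_ceil _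
  have hB2 : (B : ℝ) ≤ ((b : ℝ) + t + a) / (η * t) + 1 := by
    rw [hBdef]; exact (Nat.ceil_lt_add_one (by positivity)).le
  have hB3 : (b : ℝ) + Nat.card Dir + a ≤ η * B * Nat.card Dir := by
    rw [← htdef]
    rw [div_le_iff₀ hηt] at hB1
    linarith [hB1]
  have hb' : (b : ℝ) ≤ c₀ * P * t := by rw [hPdef, htdef]; exact hb
  have hB4 : (B : ℝ) ≤ W * c₀ * P := by
    have h1 : ((b : ℝ) + t + a) / (η * t) ≤ c₀ * P / η + 1 / η + a / η := by
      rw [div_le_iff₀ hηt]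
      have h2 : (c₀ * P / η + 1 / η + a / η) * (η * t) = c₀ * P * t + t + a * t := by
        field_simp
      rw [h2]
      have h3 : (a : ℝ) ≤ a * t := by
        have : (0 : ℝ) ≤ a := Nat.cast_nonneg _
        nlinarith
      linarith
    have h4 : 1 / η ≤ c₀ * P * (1 / η) := by
      have : 0 < 1 / η := by positivity
      nlinarith
    have h5 : (a : ℝ) / η ≤ c₀ * P * (a / η) := by
      have : 0 ≤ (a : ℝ) / η := by positivity
      nlinarith
    have h6 : W * c₀ * P = c₀ * P + c₀ * P / η + c₀ * P * (1 / η) + c₀ * P * (a / η) := by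
      rw [hW]; ring
    linarith
  -- the counting
  have hcount : Nat.card {θ : Par Pos Dir T N // Success α A (stream C G R θ.1 θ.2)} ≤
      Nat.card {θ : Par Pos Dir T N // ¬ Function.Injective θ.1} +
        ∑ ij : Fin N × Fin N, Nat.card {θ : Par Pos Dir T N //
          ij.1 ≤ ij.2 ∧ BadE C G R A B ij.1 ij.2 θ} := by
    refine union_count _ _ (fun (ij : Fin N × Fin N) (θ : Par Pos Dir T N) => ij.1 ≤ ij.2 ∧ BadE C G R A B ij.1 ij.2 θ) ?_
    intro θ hS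
    by_contra hcon
    push Not at hcon
    obtain ⟨hinj, hF⟩ := hcon
    obtain ⟨hS1, hS2, hS3⟩ := hS
    have hQ : ∀ i j : Fin N, i ≤ j →
        ((A.output (stream C G R θ.1 θ.2)).filter
          (fun e => e ∈ Spec C G (i : ℕ) (θ.1 j))).card ≤ 2 * B := by
      intro i j hij
      by_contra hlt
      exact hF (i, j) hij ⟨hS1, (not_le.1 hlt).le⟩
    have hO := out_card C G R θ.1 θ.2 (A.output (stream C G R θ.1 θ.2)) hS1 hS2 (2 * B) hQ
    have hZ := Zset_card C G R hD θ.1 hinj hN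
    -- the number of positions per unit
    have hncl : ∀ i : Fin N, (Nat.card {x // x ∈ nonclean G θ.1 i} : ℝ) ≤
        (D : ℝ) ^ N * N * κ * P := by
      intro i
      rw [hPdef]
      exact nonclean_card G hD κ hgood θ.1 i
    have hcl : ∀ (i : Fin N) (v : U), P * (1 / u - 2 * ((D : ℝ) ^ N * N * κ)) ≤
        (Nat.card {x // x ∉ nonclean G θ.1 i ∧ unitOf C G R θ.1 x = v} : ℝ) := by
      intro i v
      have h1 := unit_count C G R hD θ.1 hinj hN v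
      have h1' : u * (Nat.card {x // x ∉ nonclean G θ.1 ⟨0, hN⟩ ∧
          unitOf C G R θ.1 x = v} : ℝ) + (Nat.card {x // x ∈ nonclean G θ.1 ⟨0, hN⟩} : ℝ) = P := by
        rw [hPdef, hu_def]; exact_mod_cast h1
      have h2 : Nat.card {x // x ∉ nonclean G θ.1 ⟨0, hN⟩ ∧ unitOf C G R θ.1 x = v} ≤
          Nat.card {x // x ∈ nonclean G θ.1 i} +
            ∑ _k : Unit, Nat.card {x // x ∉ nonclean G θ.1 i ∧ unitOf C G R θ.1 x = v} := by
        refine union_count _ _ (fun _ x => x ∉ nonclean G θ.1 i ∧ unitOf C G R θ.1 x = v) ?_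
        intro x hx
        by_cases hxi : x ∈ nonclean G θ.1 i
        · exact Or.inl hxi
        · exact Or.inr ⟨(), hxi, hx.2⟩
      simp only [Finset.univ_unique, Finset.sum_singleton] at h2
      have h2' : (Nat.card {x // x ∉ nonclean G θ.1 ⟨0, hN⟩ ∧ unitOf C G R θ.1 x = v} : ℝ) ≤
          (Nat.card {x // x ∈ nonclean G θ.1 i} : ℝ) +
            (Nat.card {x // x ∉ nonclean G θ.1 i ∧ unitOf C G R θ.1 x = v} : ℝ) := by
        exact_mod_cast h2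
      have h3 := hncl i
      have h4 := hncl ⟨0, hN⟩
      have hu1 : 1 ≤ u := by
        have : 0 < Nat.card U := Nat.card_pos
        have : (1 : ℝ) ≤ (Nat.card U : ℝ) := by exact_mod_cast this
        simpa [hu_def] using this
      have hk0 : 0 ≤ (D : ℝ) ^ N * N * κ * P := by positivity
      have h5 : P * (1 / u - 2 * ((D : ℝ) ^ N * N * κ)) =
          (P - (D : ℝ) ^ N * N * κ * P) / u + (D : ℝ) ^ N * N * κ * P / u -
            2 * ((D : ℝ) ^ N * N * κ * P) := by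
        field_simp
        ring
      have h6 : (D : ℝ) ^ N * N * κ * P / u ≤ (D : ℝ) ^ N * N * κ * P :=
        div_le_self hk0 hu1
      have h7 : (P - (D : ℝ) ^ N * N * κ * P) / u ≤
          (Nat.card {x // x ∉ nonclean G θ.1 ⟨0, hN⟩ ∧ unitOf C G R θ.1 x = v} : ℝ) := by
        rw [div_le_iff₀ hu]
        linarith
      linarith
    obtain ⟨c, hcdef⟩ : ∃ c : ℕ, c = ⌊P * (1 / u - 2 * ((D : ℝ) ^ N * N * κ))⌋₊ := ⟨_, rfl⟩
    have hc1 : P * (1 / u - 2 * ((D : ℝ) ^ N * N * κ)) - 1 ≤ c := by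
      rw [hcdef]; exact (Nat.sub_one_lt_floor _).le
    have hc2 : ∀ (i : Fin N) (v : U),
        c ≤ Nat.card {x // x ∉ nonclean G θ.1 i ∧ unitOf C G R θ.1 x = v} := by
      intro i v
      have h1 := hcl i v
      by_cases hneg : 0 ≤ P * (1 / u - 2 * ((D : ℝ) ^ N * N * κ))
      · have h2 : (c : ℝ) ≤ P * (1 / u - 2 * ((D : ℝ) ^ N * N * κ)) := by
          rw [hcdef]; exact Nat.floor_le hneg
        exact_mod_cast h2.trans h1
      · have h2 : c = 0 := by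
          rw [hcdef]; exact Nat.floor_of_nonpos (not_le.1 hneg).le
        rw [h2]; exact Nat.zero_le _
    have hν := hidden C G R hD θ.1 hinj θ.2 c hc2
    refine arith (z := C.z) (h := C.h) (u := u) (Tc := Tc) (P := P)
      (Z := ((Zset C G R θ.1).card : ℝ)) (ν := (nu (stream C G R θ.1 θ.2) : ℝ))
      (O := ((A.output (stream C G R θ.1 θ.2)).card : ℝ)) (κ' := (D : ℝ) ^ N * N * κ)
      (c := c) (B := B) (N := N) (α := α) (ε := ε) (c₀ := 2 * C.h * c₀) (Q := W * c₀)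
      hh hu hTc hP0 hα0 hα1 (by positivity) hε ?_ ?_ hS3 ?_ hc1 hB4 hκ2 ?_ hc₀4
    · exact_mod_cast hO
    · exact_mod_cast hν
    · have h1 := hncl ⟨0, hN⟩
      have h2 : 2 * Tc * (Nat.card {x // x ∈ nonclean G θ.1 ⟨0, hN⟩} : ℝ) ≤
          2 * Tc * ((D : ℝ) ^ N * N * κ * P) := mul_le_mul_of_nonneg_left h1 (by positivity)
      rw [← hPdef, ← hu_def, ← hTc_def] at hZ
      linarith
    · nlinarith
  -- real bounds
  have h1 := noninj_count N (Dir := Dir) (X := Dir → JJ Pos T → Bool)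
  rw [← htdef] at h1
  have h2 : ∀ ij : Fin N × Fin N, (Nat.card {θ : Par Pos Dir T N //
          ij.1 ≤ ij.2 ∧ BadE C G R A B ij.1 ij.2 θ} : ℝ) ≤
      (η + 1 / 2 ^ a) * Nat.card (Par Pos Dir T N) := by
    intro ij
    by_cases hij : ij.1 ≤ ij.2
    · have h3 := out_bound C G R b a B η hη0 hB3 A ij.1 ij.2 hij
      refine le_trans ?_ h3
      have : Nat.card {θ : Par Pos Dir T N // ij.1 ≤ ij.2 ∧ BadE C G R A B ij.1 ij.2 θ} ≤
          Nat.card {θ : Par Pos Dir T N //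
            (∀ e ∈ A.output (stream C G R θ.1 θ.2), e ∈ stream C G R θ.1 θ.2) ∧
            2 * B ≤ ((A.output (stream C G R θ.1 θ.2)).filter
              (fun e => e ∈ Spec C G (ij.1 : ℕ) (θ.1 ij.2))).card} := by
        apply Nat.card_le_card_of_injective
          (fun θ => (⟨θ.1, by
            have := θ.2.2
            unfold BadE at this
            exact this⟩ : {θ : Par Pos Dir T N //
            (∀ e ∈ A.output (stream C G R θ.1 θ.2), e ∈ stream C G R θ.1 θ.2) ∧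
            2 * B ≤ ((A.output (stream C G R θ.1 θ.2)).filter
              (fun e => e ∈ Spec C G (ij.1 : ℕ) (θ.1 ij.2))).card}))
        intro x y hxy
        exact Subtype.ext (by simpa using hxy)
      exact_mod_cast this
    · have : Nat.card {θ : Par Pos Dir T N // ij.1 ≤ ij.2 ∧ BadE C G R A B ij.1 ij.2 θ} = 0 := by
        have : IsEmpty {θ : Par Pos Dir T N // ij.1 ≤ ij.2 ∧ BadE C G R A B ij.1 ij.2 θ} :=
          ⟨fun θ => hij θ.2.1⟩
        exact Nat.card_of_isEmpty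
      rw [this]
      simp only [Nat.cast_zero]
      positivity
  have h3 : (Nat.card {θ : Par Pos Dir T N // Success α A (stream C G R θ.1 θ.2)} : ℝ) ≤
      (Nat.card {θ : Par Pos Dir T N // ¬ Function.Injective θ.1} : ℝ) +
        ∑ ij : Fin N × Fin N, (Nat.card {θ : Par Pos Dir T N //
          ij.1 ≤ ij.2 ∧ BadE C G R A B ij.1 ij.2 θ} : ℝ) := by
    exact_mod_cast hcount
  have h4 : ∑ ij : Fin N × Fin N, (Nat.card {θ : Par Pos Dir T N //
          ij.1 ≤ ij.2 ∧ BadE C G R A B ij.1 ij.2 θ} : ℝ) ≤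
      (N : ℝ) ^ 2 * ((η + 1 / 2 ^ a) * Nat.card (Par Pos Dir T N)) := by
    calc _ ≤ ∑ _ij : Fin N × Fin N, (η + 1 / 2 ^ a) * (Nat.card (Par Pos Dir T N) : ℝ) :=
          Finset.sum_le_sum (fun ij _ => h2 ij)
      _ = _ := by
          rw [Finset.sum_const, Finset.card_univ, Fintype.card_prod, Fintype.card_fin,
            nsmul_eq_mul]
          push_cast
          ring
  have hPar : (0 : ℝ) ≤ Nat.card (Par Pos Dir T N) := Nat.cast_nonneg _
  have h5 : (N : ℝ) ^ 2 / t ≤ δ / 4 := by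
    rw [div_le_iff₀ ht0]
    have h6 : (1 : ℝ) ≤ δ / (4 * (N : ℝ) ^ 2) * t :=
      hDir1.trans (mul_le_mul_of_nonneg_right hc₀2 ht0.le)
    have h7 : (N : ℝ) ^ 2 * 1 ≤ (N : ℝ) ^ 2 * (δ / (4 * (N : ℝ) ^ 2) * t) :=
      mul_le_mul_of_nonneg_left h6 hNN.le
    have h8 : (N : ℝ) ^ 2 * (δ / (4 * (N : ℝ) ^ 2) * t) = δ / 4 * t := by field_simp
    linarith
  have h6 : (N : ℝ) ^ 2 * (η + 1 / 2 ^ a) ≤ δ / 2 := by
    have h7 : (1 : ℝ) / 2 ^ a ≤ δ / (4 * (N : ℝ) ^ 2) := by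
      rw [one_div_pow] at ha
      exact ha.le
    have h8 : (N : ℝ) ^ 2 * (η + 1 / 2 ^ a) ≤
        (N : ℝ) ^ 2 * (δ / (4 * (N : ℝ) ^ 2) + δ / (4 * (N : ℝ) ^ 2)) := by
      apply mul_le_mul_of_nonneg_left _ hNN.le
      rw [hη]
      linarith
    have h9 : (N : ℝ) ^ 2 * (δ / (4 * (N : ℝ) ^ 2) + δ / (4 * (N : ℝ) ^ 2)) = δ / 2 := by
      field_simp
      ring
    linarith
  calc (Nat.card {θ : Par Pos Dir T N // Success α A (stream C G R θ.1 θ.2)} : ℝ)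
      ≤ (N : ℝ) ^ 2 / t * Nat.card (Par Pos Dir T N) +
        (N : ℝ) ^ 2 * ((η + 1 / 2 ^ a) * Nat.card (Par Pos Dir T N)) :=
        h3.trans (add_le_add h1 h4)
    _ = ((N : ℝ) ^ 2 / t + (N : ℝ) ^ 2 * (η + 1 / 2 ^ a)) * Nat.card (Par Pos Dir T N) := by ring
    _ ≤ δ * Nat.card (Par Pos Dir T N) := by
        apply mul_le_mul_of_nonneg_right _ hPar
        linarith

end SMG
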