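import Mathlib

/-!
SMG: one-pass streaming lower bound for matchings (MP_8d7caf_lc).  Definitions.
-/

namespace SMG

open Finset

/-! ### The streaming model -/

/-- A deterministic one-pass algorithm with `b` bits of memory on graphs with vertex set `V`.
The step may depend on the number of edges read so far, and at the end a set of edges is produced. -/
structure SAlg (V : Type) (b : ℕ) where
  init : Fin (2 ^ b)
  step : ℕ → Fin (2 ^ b) → Sym2 V → Fin (2 ^ b)
  out : ℕ → Fin (2 ^ b) → Finset (Sym2 V)

/-- Memory after reading a list of edges, starting at time `t` with memory `m`. -/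
def SAlg.runFrom {V : Type} {b : ℕ} (A : SAlg V b) : ℕ → Fin (2 ^ b) → List (Sym2 V) → Fin (2 ^ b)
  | _, m, [] => m
  | t, m, e :: l => A.runFrom (t + 1) (A.step t m e) l

/-- The set of edges which the algorithm outputs after reading the whole stream. -/
def SAlg.output {V : Type} {b : ℕ} (A : SAlg V b) (σ : List (Sym2 V)) : Finset (Sym2 V) :=
  A.out σ.length (A.runFrom 0 A.init σ)

/-- A stream of pairwise different edges without loops. -/
def IsStream {V : Type} (σ : List (Sym2 V)) : Prop := σ.Nodup ∧ ∀ e ∈ σ, ¬ e.IsDiag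

/-- The graph of the stream is bipartite. -/
def IsBip {V : Type} (σ : List (Sym2 V)) : Prop :=
  ∃ side : V → Bool, ∀ v w, s(v, w) ∈ σ → side v ≠ side w

/-- Pairwise disjoint edges. -/
def IsMatch {V : Type} (M : Finset (Sym2 V)) : Prop :=
  ∀ e ∈ M, ∀ f ∈ M, ∀ v, v ∈ e → v ∈ f → e = f

/-- The maximum size of a matching of the graph whose edges are the elements of the stream. -/
noncomputable def nu {V : Type} (σ : List (Sym2 V)) : ℕ :=
  sSup {k | ∃ M : Finset (Sym2 V), (∀ e ∈ M, e ∈ σ) ∧ IsMatch M ∧ M.card = k}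

/-- The output is a matching of the graph with at least `α ν` edges. -/
def Success {V : Type} {b : ℕ} (α : ℝ) (A : SAlg V b) (σ : List (Sym2 V)) : Prop :=
  (∀ e ∈ A.output σ, e ∈ σ) ∧ IsMatch (A.output σ) ∧ α * (nu σ : ℝ) ≤ ((A.output σ).card : ℝ)

/-! ### Game certificates -/

/-- A certificate: a finite set `T` of vertex types (left and right), `N` phases, a finite set `U`
of units.  The left type `a` and the right type `b` are joined in phase `ph a b` (never if
`ph a b ≥ N`), the unit `u` stops after phase `stop u` and leaves the types with `opn u` open;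
`M` is a matching of pairs (type, unit). -/
structure Cert (T U : Type) (N : ℕ) where
  left : T → Bool
  ph : T → T → ℕ
  stop : U → ℕ
  stop_lt : ∀ u, stop u < N
  opn : U → T → Prop
  indep : ∀ u a b, left a = true → left b = false → ph a b ≤ stop u → ¬ (opn u a ∧ opn u b)
  M : Finset ((T × U) × (T × U))
  M_spec : ∀ m ∈ M, left m.1.1 = true ∧ left m.2.1 = false ∧ opn m.1.2 m.1.1 ∧ opn m.2.2 m.2.1 ∧
    ph m.1.1 m.2.1 ≤ stop m.1.2 ∧ ph m.1.1 m.2.1 ≤ stop m.2.2
  M_match : ∀ m ∈ M, ∀ m' ∈ M, (m.1 = m'.1 ∨ m.2 = m'.2) → m = m'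

/-- The number of closed pairs (type, unit). -/
noncomputable def Cert.z {T U : Type} {N : ℕ} (C : Cert T U N) : ℕ :=
  Nat.card {s : T × U // ¬ C.opn s.2 s.1}

/-- The number of matched pairs. -/
def Cert.h {T U : Type} {N : ℕ} (C : Cert T U N) : ℕ := C.M.card

/-! ### Geometry -/

/-- Positions, directions, blocks (fibres of `blk p`) of each direction, and an arc coordinate
which runs through all values on each block of its own direction and is constant, near a good
position, on the blocks of the other directions. -/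
structure Geo (Pos Dir A : Type) where
  blk : Dir → Pos → Pos
  arc : Dir → Pos → A
  arc_ex : ∀ p x (r : A), ∃ x', blk p x' = blk p x ∧ arc p x' = r
  arc_inj : ∀ p x x', blk p x' = blk p x → arc p x' = arc p x → x' = x
  dir_uniq : ∀ p p' x x', x ≠ x' → blk p x = blk p x' → blk p' x = blk p' x' → p = p'
  good : Dir → Pos → Prop
  good_spec : ∀ p₀ p x x', p ≠ p₀ → blk p x' = blk p x → good p₀ x → arc p₀ x' = arc p₀ x

/-! ### Roles -/

/-- A rule which turns a word `δ` of `N` digits into a unit; the unit with stop `s` is decided by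
the digits with index at most `s`, and all units which are still possible are equally likely. -/
structure Roles (N D : ℕ) (U : Type) (stop : U → ℕ) where
  unit : (Fin N → ZMod D) → U
  adapted : ∀ δ δ' : Fin N → ZMod D, (∀ l : Fin N, (l : ℕ) ≤ stop (unit δ) → δ l = δ' l) →
    unit δ' = unit δ
  equi : ∀ (i : ℕ) (δ₀ : Fin N → ZMod D), i ≤ stop (unit δ₀) → ∀ u u' : U, i ≤ stop u →
    i ≤ stop u' →
    Nat.card {δ : Fin N → ZMod D // (∀ l : Fin N, (l : ℕ) < i → δ l = δ₀ l) ∧ unit δ = u} =
    Nat.card {δ : Fin N → ZMod D // (∀ l : Fin N, (l : ℕ) < i → δ l = δ₀ l) ∧ unit δ = u'}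

/-! ### The hard streams -/

/-- Main vertices: position, type, twin bit. -/
abbrev Vx (Pos T : Type) := Pos × T × Bool

/-- All vertices: main vertices and their pendants. -/
abbrev VV (Pos T : Type) := Vx Pos T ⊕ Vx Pos T

/-- Slots: pairs of (position, type). -/
abbrev JJ (Pos T : Type) := (Pos × T) × (Pos × T)

/-- The edge between two main vertices. -/
def edg {Pos T : Type} (x : Pos) (a : T) (τ : Bool) (x' : Pos) (b : T) (τ' : Bool) :
    Sym2 (VV Pos T) := s(Sum.inl (x, a, τ), Sum.inl (x', b, τ'))

section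
variable {Pos Dir T U : Type} {N D : ℕ}

/-- The word of digits of a position. -/
def delta (G : Geo Pos Dir (Fin N → ZMod D)) (P : Fin N → Dir) (x : Pos) : Fin N → ZMod D :=
  fun l => ∑ j ∈ Finset.univ.filter (fun j : Fin N => j ≤ l), G.arc (P j) x l

/-- The unit of a position. -/
def unitOf (C : Cert T U N) (G : Geo Pos Dir (Fin N → ZMod D)) (R : Roles N D U C.stop)
    (P : Fin N → Dir) (x : Pos) : U := R.unit (delta G P x)

/-- The position `x` takes part in phase `i`. -/
def alive (C : Cert T U N) (G : Geo Pos Dir (Fin N → ZMod D)) (R : Roles N D U C.stop)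
    (P : Fin N → Dir) (i : ℕ) (x : Pos) : Prop := i ≤ C.stop (unitOf C G R P x)

/-- The slot `j` in direction `p` belongs to phase `i`. -/
def slot (C : Cert T U N) (G : Geo Pos Dir (Fin N → ZMod D)) (i : ℕ) (p : Dir) (j : JJ Pos T) :
    Prop :=
  C.left j.1.2 = true ∧ C.left j.2.2 = false ∧ C.ph j.1.2 j.2.2 = i ∧
    j.1.1 ≠ j.2.1 ∧ G.blk p j.1.1 = G.blk p j.2.1

/-- The slot `j` in direction `p` is used in phase `i`. -/
def slotOK (C : Cert T U N) (G : Geo Pos Dir (Fin N → ZMod D)) (R : Roles N D U C.stop)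
    (P : Fin N → Dir) (i : ℕ) (p : Dir) (j : JJ Pos T) : Prop :=
  (∀ l : Fin N, (l : ℕ) < i → p ≠ P l) ∧ slot C G i p j ∧
    alive C G R P i j.1.1 ∧ alive C G R P i j.2.1

open Classical in
/-- The edges of phase `i` with switch bits `X`. -/
noncomputable def phaseList [Fintype Pos] [Fintype Dir] [Fintype T] (C : Cert T U N)
    (G : Geo Pos Dir (Fin N → ZMod D)) (R : Roles N D U C.stop)
    (P : Fin N → Dir) (i : ℕ) (X : Dir → JJ Pos T → Bool) : List (Sym2 (VV Pos T)) :=
  ((Finset.univ : Finset (Dir × JJ Pos T)).filter (fun s => slotOK C G R P i s.1 s.2)).toList.flatMap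
    (fun s => [edg s.2.1.1 s.2.1.2 false s.2.2.1 s.2.2.2 (X s.1 s.2),
      edg s.2.1.1 s.2.1.2 true s.2.2.1 s.2.2.2 (!(X s.1 s.2))])

open Classical in
/-- The closed vertices: those of bad positions, and those whose type is not open. -/
noncomputable def Zset [Fintype Pos] [Fintype T] (C : Cert T U N)
    (G : Geo Pos Dir (Fin N → ZMod D)) (R : Roles N D U C.stop)
    (P : Fin N → Dir) : Finset (Vx Pos T) :=
  Finset.univ.filter (fun v => (∃ l, ¬ G.good (P l) v.1) ∨ ¬ C.opn (unitOf C G R P v.1) v.2.1)

/-- The pendant edges. -/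
noncomputable def pendList [Fintype Pos] [Fintype T] (C : Cert T U N)
    (G : Geo Pos Dir (Fin N → ZMod D)) (R : Roles N D U C.stop)
    (P : Fin N → Dir) : List (Sym2 (VV Pos T)) :=
  (Zset C G R P).toList.map (fun v => s(Sum.inl v, Sum.inr v))

/-- The hard stream. -/
noncomputable def stream [Fintype Pos] [Fintype Dir] [Fintype T] (C : Cert T U N)
    (G : Geo Pos Dir (Fin N → ZMod D)) (R : Roles N D U C.stop)
    (P : Fin N → Dir) (X : Fin N → Dir → JJ Pos T → Bool) : List (Sym2 (VV Pos T)) :=
  (List.finRange N).flatMap (fun i : Fin N => phaseList C G R P (i : ℕ) (X i)) ++ pendList C G R P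

/-- The edges which phase `i` could insert in direction `p`. -/
def Spec (C : Cert T U N) (G : Geo Pos Dir (Fin N → ZMod D)) (i : ℕ) (p : Dir) :
    Set (Sym2 (VV Pos T)) :=
  {e | ∃ (j : JJ Pos T) (τ τ' : Bool), slot C G i p j ∧ e = edg j.1.1 j.1.2 τ j.2.1 j.2.2 τ'}

/-- Positions whose block in direction `P i` has a bad position. -/
def nonclean (G : Geo Pos Dir (Fin N → ZMod D)) (P : Fin N → Dir) (i : Fin N) : Set Pos :=
  {x | ∃ x', G.blk (P i) x' = G.blk (P i) x ∧ ∃ l, ¬ G.good (P l) x'}

/-- The parameter space of the hard distribution. -/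
abbrev Par (Pos Dir T : Type) (N : ℕ) := (Fin N → Dir) × (Fin N → Dir → JJ Pos T → Bool)

open Classical in
/-- The switch bits which a set `O` of edges predicts in direction `p` of phase `i`. -/
noncomputable def pred (C : Cert T U N) (G : Geo Pos Dir (Fin N → ZMod D))
    (O : Finset (Sym2 (VV Pos T))) (i : ℕ) (p : Dir) (j : JJ Pos T) : Option Bool :=
  if slot C G i p j then
    if h : ∃ β : Bool, edg j.1.1 j.1.2 false j.2.1 j.2.2 β ∈ O ∨
        edg j.1.1 j.1.2 true j.2.1 j.2.2 (!β) ∈ O then some h.choose else none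
  else none

end

end SMG
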