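import Pool.Agent.SMG.Defs

/-! FIB: finite sets with fibres of equal sizes are in a bijection which preserves fibres. -/

namespace SMG

theorem fib_equiv {α β : Type} [Finite α] (f : α → β) (p q : α → Prop)
    (h : ∀ y, Nat.card {x // f x = y ∧ p x} = Nat.card {x // f x = y ∧ q x}) :
    ∃ g : {x // p x} ≃ {x // q x}, ∀ x, f (g x).1 = f x.1 := by
  classical
  have e : ∀ y, Nonempty ({x // f x = y ∧ p x} ≃ {x // f x = y ∧ q x}) := fun y => Finite.card_eq.1 (h y)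
  let E : ∀ y, {x // f x = y ∧ p x} ≃ {x // f x = y ∧ q x} := fun y => (e y).some
  refine ⟨⟨fun x => ⟨(E (f x.1) ⟨x.1, rfl, x.2⟩).1, (E (f x.1) ⟨x.1, rfl, x.2⟩).2.2⟩,
    fun x => ⟨((E (f x.1)).symm ⟨x.1, rfl, x.2⟩).1, ((E (f x.1)).symm ⟨x.1, rfl, x.2⟩).2.2⟩,
    ?_, ?_⟩, fun x => (E (f x.1) ⟨x.1, rfl, x.2⟩).2.1⟩
  · intro x
    apply Subtype.ext
    have key : ∀ (y : β) (z : {x // f x = y ∧ q x}), y = f x.1 →
        z.1 = (E (f x.1) ⟨x.1, rfl, x.2⟩).1 → ((E y).symm z).1 = x.1 := by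
      intro y z hy hz
      subst hy
      have : z = E (f x.1) ⟨x.1, rfl, x.2⟩ := Subtype.ext hz
      rw [this, Equiv.symm_apply_apply]
    exact key _ _ (E (f x.1) ⟨x.1, rfl, x.2⟩).2.1 rfl
  · intro x
    apply Subtype.ext
    have key : ∀ (y : β) (z : {x // f x = y ∧ p x}), y = f x.1 →
        z.1 = ((E (f x.1)).symm ⟨x.1, rfl, x.2⟩).1 → ((E y) z).1 = x.1 := by
      intro y z hy hz
      subst hy
      have : z = (E (f x.1)).symm ⟨x.1, rfl, x.2⟩ := Subtype.ext hz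
      rw [this, Equiv.apply_symm_apply]
    exact key _ _ ((E (f x.1)).symm ⟨x.1, rfl, x.2⟩).2.1 rfl

end SMG
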