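import Pool.Agent.SMG.Defs

/-! GED: disjoint copies of a geometry, with relabelled arcs. -/

namespace SMG

theorem geo_copies {Pos Dir A A' : Type} (G : Geo Pos Dir A) (e : A ≃ A') (R : ℕ) :
    ∃ G' : Geo (Pos × Fin R) Dir A', ∀ p x, G'.good p x ↔ G.good p x.1 := by
  refine ⟨{ blk := fun p x => (G.blk p x.1, x.2)
            arc := fun p x => e (G.arc p x.1)
            arc_ex := ?_
            arc_inj := ?_
            dir_uniq := ?_
            good := fun p x => G.good p x.1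
            good_spec := ?_ }, fun p x => Iff.rfl⟩
  · intro p x r
    obtain ⟨x', h1, h2⟩ := G.arc_ex p x.1 (e.symm r)
    exact ⟨(x', x.2), Prod.ext h1 rfl, by rw [h2, Equiv.apply_symm_apply]⟩
  · intro p x x' h1 h2
    obtain ⟨h3, h4⟩ := Prod.mk.inj h1
    exact Prod.ext (G.arc_inj p x.1 x'.1 h3 (e.injective h2)) h4
  · intro p p' x x' hne h1 h2
    obtain ⟨h3, h4⟩ := Prod.mk.inj h1
    obtain ⟨h5, h6⟩ := Prod.mk.inj h2
    refine G.dir_uniq p p' x.1 x'.1 (fun h7 => hne (Prod.ext h7 h4)) h3 h5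
  · intro p₀ p x x' hne h1 h2
    obtain ⟨h3, h4⟩ := Prod.mk.inj h1
    exact congrArg e (G.good_spec p₀ p x.1 x'.1 hne h3 h2)

end SMG
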