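import Pool.Agent.SMG.GEC
import Pool.Agent.SMG.GED
import Pool.Agent.SMG.ASY

/-! GEO: geometries for all large `n`. -/

namespace SMG

open Filter

private def geoEquiv {Pos : Type} (R : ℕ) (Q : Pos → Prop) :
    {x : Pos × Fin R // Q x.1} ≃ {x : Pos // Q x} × Fin R where
  toFun x := (⟨x.1.1, x.2⟩, x.1.2)
  invFun x := ⟨(x.1.1, x.2), x.1.2⟩
  left_inv _ := rfl
  right_inv _ := rfl

theorem exists_geo (N D W c : ℕ) (hD : 0 < D) (hW : 0 < W) (κ K : ℝ) (hκ : 0 < κ) :
    ∀ᶠ n : ℕ in atTop, ∃ (Pos Dir : Type) (_ : Fintype Pos) (_ : Fintype Dir)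
      (G : Geo Pos Dir (Fin N → ZMod D)),
      (∀ p, (Nat.card {x // ¬ G.good p x} : ℝ) ≤ κ * Nat.card Pos) ∧
      W * Nat.card Pos ≤ n ∧ n ≤ 2 * W * Nat.card Pos ∧
      K * Real.log n ^ c ≤ (Nat.card Dir : ℝ) := by
  have hL : 0 < D ^ N := pow_pos hD N
  filter_upwards [params (D ^ N) W c hL hW κ K hκ] with n hn
  obtain ⟨q, d, hq, hd, hdq, h1, h2, h3⟩ := hn
  have : Fact q.Prime := ⟨hq⟩
  have : NeZero q := ⟨hq.ne_zero⟩
  have : NeZero (q * D ^ N) := ⟨(Nat.mul_pos hq.pos hL).ne'⟩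
  have : NeZero D := ⟨hD.ne'⟩
  obtain ⟨G, hG⟩ := exists_geo0 q (D ^ N) d hL hd hdq
  have hcard : Nat.card (Fin (D ^ N)) = Nat.card (Fin N → ZMod D) := by
    rw [Nat.card_eq_fintype_card, Nat.card_eq_fintype_card, Fintype.card_fin, Fintype.card_fun,
      ZMod.card, Fintype.card_fin]
  have e : Fin (D ^ N) ≃ (Fin N → ZMod D) := (Finite.card_eq.1 hcard).some
  have hpos : Nat.card (Grid q (D ^ N)) = (q * D ^ N) ^ (q * q) := by
    rw [Nat.card_eq_fintype_card, Fintype.card_fun, Fintype.card_prod, ZMod.card, ZMod.card]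
  have hpos0 : 0 < Nat.card (Grid q (D ^ N)) := by
    rw [hpos]
    exact pow_pos (Nat.mul_pos hq.pos hL) _
  have hdir : Nat.card (Fin d → ZMod q) = q ^ d := by
    rw [Nat.card_eq_fintype_card, Fintype.card_fun, ZMod.card, Fintype.card_fin]
  set B : ℕ := W * Nat.card (Grid q (D ^ N)) with hB
  have hB0 : 0 < B := Nat.mul_pos hW hpos0
  have hBn : B ≤ n := by rw [hB, hpos]; exact h2
  set R : ℕ := n / B with hR
  have hR1 : 1 ≤ R := (Nat.one_le_div_iff hB0).2 hBn
  obtain ⟨G', hG'⟩ := geo_copies G e R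
  have hc' : Nat.card (Grid q (D ^ N) × Fin R) = Nat.card (Grid q (D ^ N)) * R := by
    rw [Nat.card_prod, Nat.card_eq_fintype_card (α := Fin R), Fintype.card_fin]
  refine ⟨Grid q (D ^ N) × Fin R, Fin d → ZMod q, inferInstance, inferInstance, G', ?_, ?_, ?_, ?_⟩
  · intro p
    have h4 : Nat.card {x : Grid q (D ^ N) × Fin R // ¬ G'.good p x} =
        Nat.card {x : Grid q (D ^ N) // ¬ G.good p x} * R := by
      have h5 : Nat.card {x : Grid q (D ^ N) × Fin R // ¬ G'.good p x} =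
          Nat.card {x : Grid q (D ^ N) × Fin R // ¬ G.good p x.1} :=
        Nat.card_congr (Equiv.subtypeEquivRight fun x => not_congr (hG' p x))
      rw [h5, Nat.card_congr (geoEquiv R fun x => ¬ G.good p x), Nat.card_prod,
        Nat.card_eq_fintype_card (α := Fin R), Fintype.card_fin]
    rw [h4, hc']
    push_cast
    have hq0 : (0 : ℝ) < q := by exact_mod_cast hq.pos
    have h6 : (Nat.card {x : Grid q (D ^ N) // ¬ G.good p x} : ℝ) * q ≤
        2 * (((D ^ N : ℕ) : ℝ) * d) * Nat.card (Grid q (D ^ N)) := by exact_mod_cast hG p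
    have h7 : (Nat.card {x : Grid q (D ^ N) // ¬ G.good p x} : ℝ) * q ≤
        (κ * q) * Nat.card (Grid q (D ^ N)) :=
      h6.trans (mul_le_mul_of_nonneg_right h1 (Nat.cast_nonneg _))
    have h8 : (Nat.card {x : Grid q (D ^ N) // ¬ G.good p x} : ℝ) ≤
        κ * Nat.card (Grid q (D ^ N)) := by
      refine le_of_mul_le_mul_right ?_ hq0
      linarith
    calc (Nat.card {x : Grid q (D ^ N) // ¬ G.good p x} : ℝ) * R ≤
        κ * Nat.card (Grid q (D ^ N)) * R := mul_le_mul_of_nonneg_right h8 (Nat.cast_nonneg R)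
      _ = κ * (Nat.card (Grid q (D ^ N)) * R) := by ring
  · rw [hc', ← mul_assoc, ← hB, hR]
    exact Nat.mul_div_le n B
  · rw [hc']
    have h9 : 2 * W * (Nat.card (Grid q (D ^ N)) * R) = 2 * (B * R) := by rw [hB]; ring
    rw [h9]
    have h10 : n < B * R + B := by
      have := Nat.lt_mul_div_succ n hB0
      rw [Nat.mul_add, Nat.mul_one] at this
      exact this
    have h11 : B ≤ B * R := Nat.le_mul_of_pos_right B (by omega)
    omega
  · rw [hdir]
    exact_mod_cast h3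

end SMG
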