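import Pool.Agent.SMG.Defs

/-! MMX: averaging over the inputs against a randomised algorithm. -/

namespace SMG

open MeasureTheory

theorem minimax {Ω Θ : Type} [MeasurableSpace Ω] [Fintype Θ] [Nonempty Θ] (P : Measure Ω)
    [IsProbabilityMeasure P] (S : Θ → Set Ω) (hS : ∀ θ, MeasurableSet (S θ)) (δ : ℝ) (hδ : 0 ≤ δ)
    (h : ∀ ω, (Nat.card {θ // ω ∈ S θ} : ℝ) ≤ δ * Nat.card Θ) :
    ∃ θ, P (S θ) ≤ ENNReal.ofReal δ := by
  classical
  by_contra hcon
  push Not at hcon
  have h1 : ∑ θ : Θ, P (S θ) = ∫⁻ ω, ∑ θ : Θ, (S θ).indicator (fun _ => (1 : ENNReal)) ω ∂P := by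
    rw [lintegral_finsetSum]
    · refine Finset.sum_congr rfl fun θ _ => ?_
      exact (lintegral_indicator_one (hS θ)).symm
    · intro θ _
      exact measurable_const.indicator (hS θ)
  have h2 : ∀ ω, ∑ θ : Θ, (S θ).indicator (fun _ => (1 : ENNReal)) ω ≤
      ENNReal.ofReal (δ * Fintype.card Θ) := by
    intro ω
    have h3 : ∑ θ : Θ, (S θ).indicator (fun _ => (1 : ENNReal)) ω =
        ENNReal.ofReal (Nat.card {θ // ω ∈ S θ}) := by
      rw [Nat.card_eq_fintype_card, Fintype.card_subtype, ENNReal.ofReal_natCast,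
        Finset.card_filter]
      push_cast
      refine Finset.sum_congr rfl fun θ _ => ?_
      rw [Set.indicator_apply]
    rw [h3]
    apply ENNReal.ofReal_le_ofReal
    have h4 := h ω
    rw [Nat.card_eq_fintype_card (α := Θ)] at h4
    exact h4
  have h3 : ∑ θ : Θ, P (S θ) ≤ ENNReal.ofReal (δ * Fintype.card Θ) := by
    rw [h1]
    calc ∫⁻ ω, ∑ θ : Θ, (S θ).indicator (fun _ => (1 : ENNReal)) ω ∂P
        ≤ ∫⁻ _, ENNReal.ofReal (δ * Fintype.card Θ) ∂P := lintegral_mono h2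
      _ = ENNReal.ofReal (δ * Fintype.card Θ) := by
        rw [lintegral_const, measure_univ, mul_one]
  have h4 : ENNReal.ofReal (δ * Fintype.card Θ) < ∑ θ : Θ, P (S θ) := by
    have h5 : ENNReal.ofReal (δ * Fintype.card Θ) = ∑ _θ : Θ, ENNReal.ofReal δ := by
      rw [Finset.sum_const, Finset.card_univ, ENNReal.ofReal_mul hδ, ENNReal.ofReal_natCast,
        nsmul_eq_mul, mul_comm]
    rw [h5]
    exact ENNReal.sum_lt_sum_of_nonempty Finset.univ_nonempty fun θ _ => hcon θ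
  exact absurd h3 (not_le.2 h4)

end SMG
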