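import Pool.Agent.SMG.Defs

/-! ROL: existence of a rule for the roles.

Take `D = (card U)!` and number the units; in phase `i` the digit `δ i` modulo the number of
units with stop at least `i` picks one of these units; if its stop is `i` it is the result,
otherwise go on to phase `i + 1`. -/

namespace SMG

open Finset

open Classical in
private theorem rol_agree (N D : ℕ) [NeZero D] (j : ℕ) (hj : j ≤ N) (δ₀ : Fin N → ZMod D) :
    (univ.filter (fun δ : Fin N → ZMod D => ∀ l : Fin N, (l : ℕ) < j → δ l = δ₀ l)).card
      = D ^ (N - j) := by
  have e : (univ.filter (fun δ : Fin N → ZMod D => ∀ l : Fin N, (l : ℕ) < j → δ l = δ₀ l))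
      = Fintype.piFinset (fun l : Fin N => if (l : ℕ) < j then {δ₀ l} else univ) := by
    ext δ
    simp only [mem_filter, mem_univ, true_and, Fintype.mem_piFinset]
    constructor
    · intro h l
      by_cases hl : (l : ℕ) < j
      · simp [hl, h l hl]
      · simp [hl]
    · intro h l hl
      have := h l
      simpa [hl] using this
  rw [e, Fintype.card_piFinset]
  have : ∀ l : Fin N, (if (l : ℕ) < j then ({δ₀ l} : Finset (ZMod D)) else univ).card
      = if (l : ℕ) < j then 1 else D := by
    intro l
    split_ifs <;> simp [ZMod.card]
  simp only [this]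
  rw [Finset.prod_ite, Finset.prod_const_one, one_mul, Finset.prod_const]
  congr 1
  have h1 : (univ.filter (fun l : Fin N => ¬ (l : ℕ) < j)).card
      + (univ.filter (fun l : Fin N => (l : ℕ) < j)).card = N := by
    rw [add_comm, Finset.card_filter_add_card_filter_not]
    simp
  have h2 : (univ.filter (fun l : Fin N => (l : ℕ) < j)).card = j := by
    rw [Fin.card_filter_val_lt]
    omega
  omega

open Classical in
private theorem rol_key (N : ℕ) (U : Type) [Fintype U] [Nonempty U] (stop : U → ℕ)
    (h : ∀ u, stop u < N) (D : ℕ) [NeZero D]
    (hD : ∀ i, 0 < (univ.filter (fun u : U => i ≤ stop u)).card →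
      (univ.filter (fun u : U => i ≤ stop u)).card ∣ D) :
    ∀ k i, i + k = N → 0 < (univ.filter (fun u : U => i ≤ stop u)).card →
      ∃ g : (Fin N → ZMod D) → U, (∀ δ, i ≤ stop (g δ)) ∧
        (∀ δ δ', (∀ l : Fin N, i ≤ (l : ℕ) → (l : ℕ) ≤ stop (g δ) → δ l = δ' l) → g δ' = g δ) ∧
        (∀ j, i ≤ j → ∀ δ₀, j ≤ stop (g δ₀) → ∀ u, j ≤ stop u →
          (univ.filter (fun δ : Fin N → ZMod D =>
            (∀ l : Fin N, (l : ℕ) < j → δ l = δ₀ l) ∧ g δ = u)).card
            * (univ.filter (fun u : U => j ≤ stop u)).card = D ^ (N - j)) := by
  intro k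
  induction k with
  | zero =>
    intro i hi hc
    exfalso
    obtain ⟨u, hu⟩ := Finset.card_pos.1 hc
    have := h u
    simp at hu
    omega
  | succ k ih =>
    intro i hi hc
    have hiN : i < N := by omega
    set c : ℕ → ℕ := fun i => (univ.filter (fun u : U => i ≤ stop u)).card with hcdef
    have hDpos : 0 < D := Nat.pos_of_ne_zero (NeZero.ne D)
    obtain ⟨q, hq⟩ := hD i hc
    have hq' : D = c i * q := hq
    have hqpos : 0 < q := by
      rcases Nat.eq_zero_or_pos q with h0 | h0
      · rw [h0, mul_zero] at hq
        omega
      · exact h0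
    have hcardV : Fintype.card (ZMod D) = Fintype.card ({u : U // i ≤ stop u} × Fin q) := by
      rw [ZMod.card, Fintype.card_prod, Fintype.card_subtype, Fintype.card_fin]
      exact hq
    obtain ⟨e⟩ : Nonempty (ZMod D ≃ {u : U // i ≤ stop u} × Fin q) :=
      ⟨Fintype.equivOfCardEq hcardV⟩
    let f : ZMod D → U := fun a => ((e a).1 : U)
    have hf : ∀ a, i ≤ stop (f a) := fun a => (e a).1.2
    have hfib : ∀ u, i ≤ stop u → (univ.filter (fun a => f a = u)).card = q := by
      intro u hu
      have : (univ.filter (fun a => f a = u)).card = (univ : Finset (Fin q)).card := by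
        symm
        apply Finset.card_bij (fun t _ => e.symm (⟨u, hu⟩, t))
        · intro t _
          simp [f]
        · intro t _ t' _ ht
          have := e.symm.injective ht
          simpa using this
        · intro a ha
          simp only [mem_filter, mem_univ, true_and, f] at ha
          refine ⟨(e a).2, mem_univ _, ?_⟩
          apply e.injective
          rw [Equiv.apply_symm_apply]
          ext
          · exact ha.symm
          · rfl
      rw [this, Finset.card_univ, Fintype.card_fin]
    have hex : ∃ g' : (Fin N → ZMod D) → U, 0 < c (i + 1) → (∀ δ, i + 1 ≤ stop (g' δ)) ∧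
        (∀ δ δ', (∀ l : Fin N, i + 1 ≤ (l : ℕ) → (l : ℕ) ≤ stop (g' δ) → δ l = δ' l) →
          g' δ' = g' δ) ∧
        (∀ j, i + 1 ≤ j → ∀ δ₀, j ≤ stop (g' δ₀) → ∀ u, j ≤ stop u →
          (univ.filter (fun δ : Fin N → ZMod D =>
            (∀ l : Fin N, (l : ℕ) < j → δ l = δ₀ l) ∧ g' δ = u)).card
            * c j = D ^ (N - j)) := by
      by_cases h0 : 0 < c (i + 1)
      · obtain ⟨g', hg'⟩ := ih (i + 1) (by omega) h0
        exact ⟨g', fun _ => hg'⟩
      · exact ⟨fun _ => Classical.arbitrary U, fun h1 => absurd h1 h0⟩
    obtain ⟨g', hg'⟩ := hex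
    let ii : Fin N := ⟨i, hiN⟩
    let g : (Fin N → ZMod D) → U := fun δ => if stop (f (δ ii)) = i then f (δ ii) else g' δ
    have hcpos : ∀ a, stop (f a) ≠ i → 0 < c (i + 1) := by
      intro a ha
      apply Finset.card_pos.2
      exact ⟨f a, by simp; have := hf a; omega⟩
    have hg1 : ∀ δ, stop (f (δ ii)) = i → g δ = f (δ ii) := fun δ hδ => if_pos hδ
    have hg2 : ∀ δ, stop (f (δ ii)) ≠ i → g δ = g' δ := fun δ hδ => if_neg hδ
    refine ⟨g, ?_, ?_, ?_⟩
    · intro δ
      by_cases hδ : stop (f (δ ii)) = i
      · rw [hg1 δ hδ]
        omega
      · rw [hg2 δ hδ]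
        have := (hg' (hcpos _ hδ)).1 δ
        omega
    · intro δ δ' hδδ
      have hst : i ≤ stop (g δ) := by
        by_cases hδ : stop (f (δ ii)) = i
        · rw [hg1 δ hδ]; omega
        · rw [hg2 δ hδ]
          have := (hg' (hcpos _ hδ)).1 δ
          omega
      have h1 : δ ii = δ' ii := hδδ ii le_rfl hst
      by_cases hδ : stop (f (δ ii)) = i
      · rw [hg1 δ hδ, hg1 δ' (by rw [← h1]; exact hδ), h1]
      · rw [hg2 δ hδ] at hδδ ⊢
        rw [hg2 δ' (by rw [← h1]; exact hδ)]
        apply (hg' (hcpos _ hδ)).2.1
        intro l hl hl'
        exact hδδ l (by omega) hl'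
    · intro j hj δ₀ hδ₀ u hu
      rcases Nat.lt_or_ge i j with hij | hij
      · -- j > i
        have hne : stop (f (δ₀ ii)) ≠ i := by
          intro h0
          rw [hg1 δ₀ h0, h0] at hδ₀
          omega
        rw [hg2 δ₀ hne] at hδ₀
        have hset : (univ.filter (fun δ : Fin N → ZMod D =>
            (∀ l : Fin N, (l : ℕ) < j → δ l = δ₀ l) ∧ g δ = u))
            = (univ.filter (fun δ : Fin N → ZMod D =>
            (∀ l : Fin N, (l : ℕ) < j → δ l = δ₀ l) ∧ g' δ = u)) := by
          apply Finset.filter_congr
          intro δ _
          constructor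
          · rintro ⟨h1, h2⟩
            refine ⟨h1, ?_⟩
            rwa [hg2 δ (by rw [h1 ii hij]; exact hne)] at h2
          · rintro ⟨h1, h2⟩
            refine ⟨h1, ?_⟩
            rw [hg2 δ (by rw [h1 ii hij]; exact hne)]
            exact h2
        rw [hset]
        exact (hg' (hcpos _ hne)).2.2 j hij δ₀ hδ₀ u hu
      · have hji : j = i := by omega
        subst hji
        -- sum over the digit
        have hsum : (univ.filter (fun δ : Fin N → ZMod D =>
            (∀ l : Fin N, (l : ℕ) < j → δ l = δ₀ l) ∧ g δ = u)).card
            = ∑ a : ZMod D, ((univ.filter (fun δ : Fin N → ZMod D =>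
            (∀ l : Fin N, (l : ℕ) < j → δ l = δ₀ l) ∧ g δ = u)).filter (fun δ => δ ii = a)).card := by
          apply Finset.card_eq_sum_card_fiberwise
          intro δ _
          exact mem_coe.2 (mem_univ _)
        have hup : ∀ (a : ZMod D) (δ : Fin N → ZMod D),
            ((∀ l : Fin N, (l : ℕ) < j → δ l = δ₀ l) ∧ δ ii = a) ↔
            (∀ l : Fin N, (l : ℕ) < j + 1 → δ l = Function.update δ₀ ii a l) := by
          intro a δ
          constructor
          · rintro ⟨h1, h2⟩ l hl
            by_cases hl' : l = ii
            · subst hl'
              simpa using h2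
            · rw [Function.update_of_ne hl']
              apply h1
              have : (l : ℕ) ≠ j := fun h3 => hl' (Fin.ext h3)
              omega
          · intro h1
            refine ⟨fun l hl => ?_, ?_⟩
            · have h2 := h1 l (by omega)
              rwa [Function.update_of_ne] at h2
              intro h3
              rw [h3] at hl
              exact absurd hl (lt_irrefl _)
            · have h2 := h1 ii (Nat.lt_succ_self _)
              simpa using h2
        have hq2 : (univ.filter (fun δ : Fin N → ZMod D =>
            (∀ l : Fin N, (l : ℕ) < j → δ l = δ₀ l) ∧ g δ = u)).card = q * D ^ (N - (j + 1)) := by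
          rcases Nat.eq_or_lt_of_le hu with hu' | hu'
          · -- stop u = j
            rw [hsum]
            have hcnt : ∀ a : ZMod D, ((univ.filter (fun δ : Fin N → ZMod D =>
                (∀ l : Fin N, (l : ℕ) < j → δ l = δ₀ l) ∧ g δ = u)).filter
                (fun δ => δ ii = a)).card = if f a = u then D ^ (N - (j + 1)) else 0 := by
              intro a
              split_ifs with hfa
              · rw [← rol_agree N D (j + 1) (by omega) (Function.update δ₀ ii a)]
                congr 1
                ext δ
                simp only [mem_filter, mem_univ, true_and]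
                rw [← hup a δ]
                constructor
                · rintro ⟨⟨h1, _⟩, h3⟩
                  exact ⟨h1, h3⟩
                · rintro ⟨h1, h3⟩
                  refine ⟨⟨h1, ?_⟩, h3⟩
                  rw [hg1 δ (by rw [h3, hfa]; exact hu'.symm), h3, hfa]
              · rw [Finset.card_eq_zero, Finset.filter_eq_empty_iff]
                intro δ hδ h3
                simp only [mem_filter, mem_univ, true_and] at hδ
                by_cases h4 : stop (f (δ ii)) = j
                · rw [hg1 δ h4, h3] at hδ
                  exact hfa hδ.2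
                · rw [hg2 δ h4] at hδ
                  have := (hg' (hcpos _ h4)).1 δ
                  rw [hδ.2] at this
                  omega
            rw [Finset.sum_congr rfl (fun a _ => hcnt a), ← Finset.sum_filter,
              Finset.sum_const, hfib u hu, smul_eq_mul]
          · -- stop u > j
            have hc1 : 0 < c (j + 1) := Finset.card_pos.2 ⟨u, by simp; omega⟩
            have hG := hg' hc1
            have hcnt : ∀ a : ZMod D, ((univ.filter (fun δ : Fin N → ZMod D =>
                (∀ l : Fin N, (l : ℕ) < j → δ l = δ₀ l) ∧ g δ = u)).filter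
                (fun δ => δ ii = a)).card * c (j + 1)
                = if j + 1 ≤ stop (f a) then D ^ (N - (j + 1)) else 0 := by
              intro a
              split_ifs with hfa
              · rw [← hG.2.2 (j + 1) le_rfl (Function.update δ₀ ii a) (hG.1 _) u hu']
                congr 2
                ext δ
                simp only [mem_filter, mem_univ, true_and]
                rw [← hup a δ]
                constructor
                · rintro ⟨⟨h1, h2⟩, h3⟩
                  refine ⟨⟨h1, h3⟩, ?_⟩
                  rwa [hg2 δ (by rw [h3]; omega)] at h2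
                · rintro ⟨⟨h1, h3⟩, h2⟩
                  refine ⟨⟨h1, ?_⟩, h3⟩
                  rwa [hg2 δ (by rw [h3]; omega)]
              · have : ((univ.filter (fun δ : Fin N → ZMod D =>
                    (∀ l : Fin N, (l : ℕ) < j → δ l = δ₀ l) ∧ g δ = u)).filter
                    (fun δ => δ ii = a)) = ∅ := by
                  rw [Finset.filter_eq_empty_iff]
                  intro δ hδ h3
                  simp only [mem_filter, mem_univ, true_and] at hδ
                  have h4 : stop (f (δ ii)) = j := by
                    rw [h3]
                    have := hf a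
                    omega
                  rw [hg1 δ h4] at hδ
                  rw [hδ.2] at h4
                  omega
                rw [this, Finset.card_empty, zero_mul]
            have hnum : (univ.filter (fun a => j + 1 ≤ stop (f a))).card = c (j + 1) * q := by
              have h5 : (univ.filter (fun a => j + 1 ≤ stop (f a))).card
                  = ∑ v ∈ univ.filter (fun v : U => j + 1 ≤ stop v),
                    ((univ.filter (fun a => j + 1 ≤ stop (f a))).filter
                      (fun a => f a = v)).card := by
                apply Finset.card_eq_sum_card_fiberwise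
                intro a ha
                simp only [mem_coe, mem_filter, mem_univ, true_and] at ha ⊢
                exact ha
              rw [h5]
              have h6 : ∀ v ∈ univ.filter (fun v : U => j + 1 ≤ stop v),
                  ((univ.filter (fun a => j + 1 ≤ stop (f a))).filter
                      (fun a => f a = v)).card = q := by
                intro v hv
                simp only [mem_filter, mem_univ, true_and] at hv
                rw [← hfib v (by omega)]
                congr 1
                ext a
                simp only [mem_filter, mem_univ, true_and]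
                constructor
                · exact fun h7 => h7.2
                · intro h7
                  exact ⟨by rw [h7]; exact hv, h7⟩
              rw [Finset.sum_congr rfl h6, Finset.sum_const, smul_eq_mul]
            apply Nat.eq_of_mul_eq_mul_right hc1
            rw [hsum, Finset.sum_mul, Finset.sum_congr rfl (fun a _ => hcnt a),
              ← Finset.sum_filter, Finset.sum_const, hnum, smul_eq_mul]
            ring
        rw [hq2]
        have h7 : N - j = (N - (j + 1)) + 1 := by omega
        rw [h7, pow_succ]
        calc q * D ^ (N - (j + 1)) * (univ.filter (fun u : U => j ≤ stop u)).card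
            = D ^ (N - (j + 1)) * ((univ.filter (fun u : U => j ≤ stop u)).card * q) := by ring
          _ = D ^ (N - (j + 1)) * D := by rw [← hq]

theorem exists_roles (N : ℕ) (U : Type) [Fintype U] [Nonempty U] (stop : U → ℕ)
    (h : ∀ u, stop u < N) : ∃ D : ℕ, 0 < D ∧ Nonempty (Roles N D U stop) := by
  classical
  have hDpos : 0 < (Fintype.card U).factorial := Nat.factorial_pos _
  refine ⟨(Fintype.card U).factorial, hDpos, ?_⟩
  haveI : NeZero (Fintype.card U).factorial := ⟨hDpos.ne'⟩
  obtain ⟨g, _, h2, h3⟩ := rol_key N U stop h (Fintype.card U).factorial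
    (fun i hi => Nat.dvd_factorial hi (Finset.card_le_univ _)) N 0 (by omega)
    (Finset.card_pos.2 ⟨Classical.arbitrary U, by simp⟩)
  refine ⟨⟨g, ?_, ?_⟩⟩
  · intro δ δ' hδ
    exact h2 δ δ' (fun l _ hl => hδ l hl)
  · intro i δ₀ hi u u' hu hu'
    have e : ∀ v : U, Nat.card {δ : Fin N → ZMod (Fintype.card U).factorial //
        (∀ l : Fin N, (l : ℕ) < i → δ l = δ₀ l) ∧ g δ = v}
        = (univ.filter (fun δ : Fin N → ZMod (Fintype.card U).factorial =>
            (∀ l : Fin N, (l : ℕ) < i → δ l = δ₀ l) ∧ g δ = v)).card := by
      intro v
      rw [Nat.card_eq_fintype_card, Fintype.card_subtype]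
    rw [e, e]
    have hc : 0 < (univ.filter (fun u : U => i ≤ stop u)).card :=
      Finset.card_pos.2 ⟨u, by simpa using hu⟩
    apply Nat.eq_of_mul_eq_mul_right hc
    rw [h3 i (Nat.zero_le _) δ₀ hi u hu, h3 i (Nat.zero_le _) δ₀ hi u' hu']

end SMG
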