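import Pool.Agent.SMG.RUN

/-! TRF: transport of algorithms and streams along an embedding of the vertex set. -/

namespace SMG

theorem isStream_map {V W : Type} (f : V ↪ W) (σ : List (Sym2 V)) (h : IsStream σ) :
    IsStream (σ.map (Sym2.map f)) := by
  refine ⟨h.1.map (Sym2.map.injective f.injective), ?_⟩
  intro e he
  obtain ⟨e', he', rfl⟩ := List.mem_map.1 he
  rw [Sym2.isDiag_map f.injective]
  exact h.2 e' he'

theorem isBip_map {V W : Type} (f : V ↪ W) (σ : List (Sym2 V)) (h : IsBip σ) :
    IsBip (σ.map (Sym2.map f)) := by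
  obtain ⟨side, hside⟩ := h
  refine ⟨Function.extend f side (fun _ => true), ?_⟩
  intro v w hvw
  obtain ⟨e', he', hmap⟩ := List.mem_map.1 hvw
  induction e' using Sym2.ind with
  | _ a b =>
    rw [Sym2.map_mk, Sym2.eq_iff] at hmap
    rcases hmap with ⟨h1, h2⟩ | ⟨h1, h2⟩
    · rw [← h1, ← h2, f.injective.extend_apply, f.injective.extend_apply]
      exact hside a b he'
    · rw [← h1, ← h2, f.injective.extend_apply, f.injective.extend_apply]
      exact (hside a b he').symm

private theorem trf_runFrom {V W : Type} {b : ℕ} (f : V ↪ W) (A : SAlg W b) (A' : SAlg V b)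
    (hs : ∀ t m e, A'.step t m e = A.step t m (Sym2.map f e)) (σ : List (Sym2 V)) :
    ∀ (t : ℕ) (m : Fin (2 ^ b)), A'.runFrom t m σ = A.runFrom t m (σ.map (Sym2.map f)) := by
  induction σ with
  | nil => intro t m; rfl
  | cons e l ih =>
    intro t m
    show A'.runFrom (t + 1) (A'.step t m e) l =
      A.runFrom (t + 1) (A.step t m (Sym2.map f e)) (l.map (Sym2.map f))
    rw [ih, hs]

private theorem trf_isMatch {V W : Type} [DecidableEq (Sym2 W)] (f : V ↪ W) (M : Finset (Sym2 V))
    (h : IsMatch M) : IsMatch (M.image (Sym2.map f)) := by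
  intro e he e' he' v hv hv'
  obtain ⟨e₀, he₀, rfl⟩ := Finset.mem_image.1 he
  obtain ⟨e₁, he₁, rfl⟩ := Finset.mem_image.1 he'
  obtain ⟨a, ha, hav⟩ := Sym2.mem_map.1 hv
  obtain ⟨a', ha', hav'⟩ := Sym2.mem_map.1 hv'
  have haa : a = a' := f.injective (hav.trans hav'.symm)
  subst haa
  rw [h e₀ he₀ e₁ he₁ a ha ha']

private theorem trf_nu {V W : Type} (f : V ↪ W) (σ : List (Sym2 V)) :
    nu σ ≤ nu (σ.map (Sym2.map f)) := by
  classical
  obtain ⟨M, h1, h2, h3⟩ := nu_spec σ
  have h4 : (M.image (Sym2.map f)).card = M.card :=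
    Finset.card_image_of_injective _ (Sym2.map.injective f.injective)
  rw [← h3, ← h4]
  refine le_nu _ _ ?_ (trf_isMatch f M h2)
  intro e he
  obtain ⟨e₀, he₀, rfl⟩ := Finset.mem_image.1 he
  exact List.mem_map.2 ⟨e₀, h1 e₀ he₀, rfl⟩

/-- An algorithm on the larger vertex set gives one on the smaller vertex set which succeeds
whenever the first one succeeds on the image of the stream. -/
theorem transfer {V W : Type} [Fintype V] {b : ℕ} (f : V ↪ W) (A : SAlg W b) :
    ∃ A' : SAlg V b, ∀ (α : ℝ) (σ : List (Sym2 V)), 0 ≤ α →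
      Success α A (σ.map (Sym2.map f)) → Success α A' σ := by
  classical
  have hinj : Function.Injective (Sym2.map f) := Sym2.map.injective f.injective
  refine ⟨{ init := A.init
            step := fun t m e => A.step t m (Sym2.map f e)
            out := fun t m => Finset.univ.filter (fun e => Sym2.map f e ∈ A.out t m) }, ?_⟩
  intro α σ hα hS
  set A' : SAlg V b := { init := A.init
                         step := fun t m e => A.step t m (Sym2.map f e)
                         out := fun t m => Finset.univ.filter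
                            (fun e => Sym2.map f e ∈ A.out t m) } with hA'
  obtain ⟨h1, h2, h3⟩ := hS
  have hout : ∀ e : Sym2 V, e ∈ A'.output σ ↔ Sym2.map f e ∈ A.output (σ.map (Sym2.map f)) := by
    intro e
    have h4 : A'.runFrom 0 A'.init σ = A.runFrom 0 A.init (σ.map (Sym2.map f)) :=
      trf_runFrom f A A' (fun _ _ _ => rfl) σ 0 A.init
    have h5 : A'.output σ = Finset.univ.filter (fun e => Sym2.map f e ∈
        A.out σ.length (A'.runFrom 0 A'.init σ)) := rfl
    rw [h5, h4, Finset.mem_filter, SAlg.output, List.length_map]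
    exact ⟨fun h => h.2, fun h => ⟨Finset.mem_univ _, h⟩⟩
  have himg : (A'.output σ).image (Sym2.map f) = A.output (σ.map (Sym2.map f)) := by
    ext e
    rw [Finset.mem_image]
    constructor
    · rintro ⟨e₀, he₀, rfl⟩
      exact (hout e₀).1 he₀
    · intro he
      obtain ⟨e₀, _, rfl⟩ := List.mem_map.1 (h1 e he)
      exact ⟨e₀, (hout e₀).2 he, rfl⟩
  have hcard : (A'.output σ).card = (A.output (σ.map (Sym2.map f))).card := by
    rw [← himg, Finset.card_image_of_injective _ hinj]
  refine ⟨?_, ?_, ?_⟩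
  · intro e he
    obtain ⟨e₀, he₀, h4⟩ := List.mem_map.1 (h1 _ ((hout e).1 he))
    rw [← hinj h4]
    exact he₀
  · intro e he e' he' v hv hv'
    apply hinj
    exact h2 _ ((hout e).1 he) _ ((hout e').1 he') (f v) (Sym2.mem_map.2 ⟨v, hv, rfl⟩)
      (Sym2.mem_map.2 ⟨v, hv', rfl⟩)
  · rw [hcard]
    refine le_trans ?_ h3
    have h4 : (nu σ : ℝ) ≤ (nu (σ.map (Sym2.map f)) : ℝ) := by
      exact_mod_cast trf_nu f σ
    exact mul_le_mul_of_nonneg_left h4 hα

/-- A smaller requirement is easier. -/
theorem success_mono {V : Type} {b : ℕ} {α α' : ℝ} (h : α' ≤ α) (A : SAlg V b)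
    (σ : List (Sym2 V)) (hs : Success α A σ) : Success α' A σ := by
  refine ⟨hs.1, hs.2.1, le_trans ?_ hs.2.2⟩
  exact mul_le_mul_of_nonneg_right h (Nat.cast_nonneg _)

end SMG
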