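import Pool.Agent.SMG.Defs

/-! GEA: graphs of polynomials over `ZMod q`, weights of positions along them. -/

namespace SMG

/-- The value at `a` of the polynomial with coefficients `c`. -/
def ev {q d : ℕ} (c : Fin d → ZMod q) (a : ZMod q) : ZMod q := ∑ i : Fin d, c i * a ^ (i : ℕ)

/-- Positions. -/
abbrev Grid (q L : ℕ) := ZMod q × ZMod q → ZMod (q * L)

/-- The sum of the coordinates of a position along the graph of the polynomial. -/
def wt {q L d : ℕ} [NeZero q] (c : Fin d → ZMod q) (x : Grid q L) : ZMod (q * L) :=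
  ∑ a : ZMod q, x (a, ev c a)

/-- The indicator function of the graph of the polynomial. -/
def ind {q L d : ℕ} (c : Fin d → ZMod q) : Grid q L := fun s => if s.2 = ev c s.1 then 1 else 0

/-- Two polynomials agree at fewer than `d` points. -/
theorem inter_card {q d : ℕ} [Fact q.Prime] (hd : d ≤ q) (c c' : Fin d → ZMod q) (h : c ≠ c') :
    Nat.card {a : ZMod q // ev c a = ev c' a} < d := by
  classical
  set P : Polynomial (ZMod q) := ∑ i : Fin d, Polynomial.C (c i - c' i) * Polynomial.X ^ (i : ℕ)
    with hP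
  have hdeg : P.degree < d := Polynomial.degree_sum_fin_lt _
  have hcoef : ∀ i : Fin d, P.coeff (i : ℕ) = c i - c' i := by
    intro i
    rw [hP, Polynomial.finsetSum_coeff, Finset.sum_eq_single i]
    · rw [Polynomial.coeff_C_mul, Polynomial.coeff_X_pow, if_pos rfl, mul_one]
    · intro j _ hj
      rw [Polynomial.coeff_C_mul, Polynomial.coeff_X_pow, if_neg, mul_zero]
      exact fun hij => hj (Fin.ext hij.symm)
    · intro hi
      exact absurd (Finset.mem_univ i) hi
  have hne : P ≠ 0 := by
    intro h0
    apply h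
    funext i
    have h1 := hcoef i
    rw [h0, Polynomial.coeff_zero] at h1
    exact (sub_eq_zero.1 h1.symm)
  have hev : ∀ a : ZMod q, Polynomial.eval a P = ev c a - ev c' a := by
    intro a
    rw [hP, Polynomial.eval_finsetSum, ev, ev, ← Finset.sum_sub_distrib]
    refine Finset.sum_congr rfl (fun i _ => ?_)
    rw [Polynomial.eval_mul, Polynomial.eval_C, Polynomial.eval_pow, Polynomial.eval_X, sub_mul]
  have h1 : Nat.card {a : ZMod q // ev c a = ev c' a} ≤ P.roots.toFinset.card := by
    rw [Nat.card_eq_fintype_card, Fintype.card_subtype]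
    refine Finset.card_le_card (fun a ha => ?_)
    rw [Finset.mem_filter] at ha
    rw [Multiset.mem_toFinset, Polynomial.mem_roots hne, Polynomial.IsRoot.def, hev, ha.2,
      sub_self]
  have h2 : P.roots.toFinset.card ≤ P.natDegree :=
    (Multiset.toFinset_card_le _).trans (Polynomial.card_roots' P)
  have h3 : P.natDegree < d := by
    rwa [Polynomial.natDegree_lt_iff_degree_lt hne]
  exact (h1.trans h2).trans_lt h3

theorem wt_shift {q L d : ℕ} [NeZero q] (c c' : Fin d → ZMod q) (x : Grid q L)
    (e : ZMod (q * L)) :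
    wt c' (x + e • (ind c : Grid q L)) =
      wt c' x + e * (Nat.card {a : ZMod q // ev c a = ev c' a} : ZMod (q * L)) := by
  classical
  have h1 : (Nat.card {a : ZMod q // ev c a = ev c' a} : ZMod (q * L)) =
      ∑ a : ZMod q, if ev c' a = ev c a then (1 : ZMod (q * L)) else 0 := by
    rw [Nat.card_eq_fintype_card, Fintype.card_subtype, Finset.sum_boole]
    have h2 : (Finset.univ.filter (fun a : ZMod q => ev c a = ev c' a)) =
        (Finset.univ.filter (fun a : ZMod q => ev c' a = ev c a)) :=
      Finset.filter_congr (fun a _ => eq_comm)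
    rw [h2]
  rw [h1, Finset.mul_sum, wt, wt, ← Finset.sum_add_distrib]
  refine Finset.sum_congr rfl (fun a _ => ?_)
  simp only [Pi.add_apply, Pi.smul_apply, smul_eq_mul, ind]

theorem wt_shift_self {q L d : ℕ} [NeZero q] (c : Fin d → ZMod q) (x : Grid q L)
    (e : ZMod (q * L)) :
    wt c (x + e • (ind c : Grid q L)) = wt c x + e * (q : ZMod (q * L)) := by
  have h1 : Nat.card {a : ZMod q // ev c a = ev c a} = q := by
    rw [Nat.card_congr (Equiv.subtypeUnivEquiv (fun _ => rfl)), Nat.card_zmod]
  rw [wt_shift, h1]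

private theorem gea_single {q L d : ℕ} [NeZero q] (c : Fin d → ZMod q) (x : Grid q L)
    (s : ZMod (q * L)) :
    wt c (x + (Pi.single (0, ev c 0) s : Grid q L)) = wt c x + s := by
  classical
  rw [wt, wt]
  have h1 : ∀ a : ZMod q, (x + (Pi.single (0, ev c 0) s : Grid q L)) (a, ev c a) =
      x (a, ev c a) + if a = 0 then s else 0 := by
    intro a
    rw [Pi.add_apply]
    congr 1
    by_cases ha : a = 0
    · subst ha
      rw [if_pos rfl, Pi.single_eq_same]
    · rw [if_neg ha, Pi.single_eq_of_ne]
      intro h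
      exact ha (Prod.ext_iff.1 h).1
  rw [Finset.sum_congr rfl (fun a _ => h1 a), Finset.sum_add_distrib, Finset.sum_ite_eq',
    if_pos (Finset.mem_univ _)]

/-- A position is described by its weight and a position of weight `0`. -/
private def geaEquiv {q L d : ℕ} [NeZero q] (c : Fin d → ZMod q) (r : ZMod (q * L)) :
    Grid q L ≃ ZMod (q * L) × {x : Grid q L // wt c x = r} where
  toFun x := (wt c x, ⟨x + Pi.single (0, ev c 0) (r - wt c x), by rw [gea_single]; ring⟩)
  invFun z := z.2.1 + Pi.single (0, ev c 0) (z.1 - r)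
  left_inv x := by
    show x + (Pi.single (0, ev c 0) (r - wt c x) : Grid q L) +
      (Pi.single (0, ev c 0) (wt c x - r) : Grid q L) = x
    rw [add_assoc, ← Pi.single_add, sub_add_sub_cancel, sub_self, Pi.single_zero, add_zero]
  right_inv z := by
    obtain ⟨v, x, hx⟩ := z
    have h1 : wt c (x + (Pi.single (0, ev c 0) (v - r) : Grid q L)) = v := by
      rw [gea_single, hx]
      ring
    refine Prod.ext h1 (Subtype.ext ?_)
    show x + (Pi.single (0, ev c 0) (v - r) : Grid q L) +
      (Pi.single (0, ev c 0) (r - wt c (x + Pi.single (0, ev c 0) (v - r))) : Grid q L) = x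
    rw [h1, add_assoc, ← Pi.single_add, sub_add_sub_cancel, sub_self, Pi.single_zero, add_zero]

/-- The weight is equidistributed. -/
theorem wt_uniform {q L d : ℕ} [NeZero q] (hL : 0 < L) (c : Fin d → ZMod q) (r : ZMod (q * L)) :
    Nat.card {x : Grid q L // wt c x = r} * (q * L) = Nat.card (Grid q L) := by
  rw [Nat.card_congr (geaEquiv c r), Nat.card_prod, Nat.card_zmod, Nat.mul_comm]

private theorem gea_res {q L : ℕ} [NeZero q] (hL : 0 < L) (m : ℕ) :
    Nat.card {v : ZMod (q * L) // ¬ (m ≤ v.val % q ∧ v.val % q + m < q)} ≤ 2 * m * L := by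
  classical
  have hq : 0 < q := Nat.pos_of_ne_zero (NeZero.ne q)
  have : NeZero (q * L) := ⟨(Nat.mul_pos hq hL).ne'⟩
  rw [Nat.card_eq_fintype_card, Fintype.card_subtype]
  have h1 : (Finset.univ.filter (fun v : ZMod (q * L) =>
      ¬ (m ≤ v.val % q ∧ v.val % q + m < q))).card ≤
      ((Finset.range L) ×ˢ (Finset.range m ∪ Finset.Ico (q - m) q)).card := by
    refine Finset.card_le_card_of_injOn (fun v => (v.val / q, v.val % q)) ?_ ?_
    · intro v hv
      have hv' := (Finset.mem_filter.1 hv).2
      have h2 : v.val / q < L := Nat.div_lt_of_lt_mul (ZMod.val_lt v)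
      have h3 : v.val % q < q := Nat.mod_lt _ hq
      rw [Finset.mem_coe, Finset.mem_product, Finset.mem_union, Finset.mem_range,
        Finset.mem_range, Finset.mem_Ico]
      refine ⟨h2, ?_⟩
      show v.val % q < m ∨ (q - m ≤ v.val % q ∧ v.val % q < q)
      omega
    · intro v _ w _ hvw
      have h2 : v.val / q = w.val / q := (Prod.ext_iff.1 hvw).1
      have h3 : v.val % q = w.val % q := (Prod.ext_iff.1 hvw).2
      have h4 : v.val = w.val := by
        rw [← Nat.div_add_mod v.val q, ← Nat.div_add_mod w.val q, h2, h3]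
      exact ZMod.val_injective _ h4
  refine h1.trans ?_
  rw [Finset.card_product, Finset.card_range]
  have h5 : (Finset.range m ∪ Finset.Ico (q - m) q).card ≤ 2 * m := by
    refine (Finset.card_union_le _ _).trans ?_
    rw [Finset.card_range, Nat.card_Ico]
    omega
  calc L * (Finset.range m ∪ Finset.Ico (q - m) q).card ≤ L * (2 * m) :=
        Nat.mul_le_mul_left _ h5
    _ = 2 * m * L := Nat.mul_comm _ _

/-- Few positions have a weight whose residue modulo `q` is close to `0`. -/
theorem bad_count {q L d : ℕ} [NeZero q] (hL : 0 < L) (c : Fin d → ZMod q) (m : ℕ) :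
    Nat.card {x : Grid q L // ¬ (m ≤ (wt c x).val % q ∧ (wt c x).val % q + m < q)} * q ≤
      2 * m * Nat.card (Grid q L) := by
  have h1 : Nat.card {x : Grid q L // ¬ (m ≤ (wt c x).val % q ∧ (wt c x).val % q + m < q)} =
      Nat.card {v : ZMod (q * L) // ¬ (m ≤ v.val % q ∧ v.val % q + m < q)} *
        Nat.card {x : Grid q L // wt c x = 0} := by
    rw [← Nat.card_prod]
    refine Nat.card_congr (((geaEquiv c 0).subtypeEquiv (fun x => ?_)).trans
      (Equiv.prodSubtypeFstEquivSubtypeProd (p := fun v : ZMod (q * L) =>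
        ¬ (m ≤ v.val % q ∧ v.val % q + m < q))))
    exact Iff.rfl
  have h2 := gea_res (q := q) hL m
  have h3 := wt_uniform hL c 0
  rw [h1, ← h3]
  refine Nat.le_of_mul_le_mul_right (c := L) ?_ hL
  calc Nat.card {v : ZMod (q * L) // ¬ (m ≤ v.val % q ∧ v.val % q + m < q)} *
        Nat.card {x : Grid q L // wt c x = 0} * q * L
      ≤ 2 * m * L * Nat.card {x : Grid q L // wt c x = 0} * q * L := by gcongr
    _ = 2 * m * (Nat.card {x : Grid q L // wt c x = 0} * (q * L)) * L := by ring

end SMG
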