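import Pool.Agent.SMG.Defs

/-! GEB: arithmetic in `ZMod (q * L)`. -/

namespace SMG

/-- Adding `c q` shifts the arc index by `c`. -/
theorem arc_shift {q L : ℕ} (hq : 0 < q) (hL : 0 < L) (v : ZMod (q * L)) (c : ℕ) :
    (v + (c : ZMod (q * L)) * (q : ZMod (q * L))).val / q = (v.val / q + c) % L := by
  have : NeZero (q * L) := ⟨(Nat.mul_pos hq hL).ne'⟩
  have h1 : (c : ZMod (q * L)) * (q : ZMod (q * L)) = ((c * q : ℕ) : ZMod (q * L)) := by
    push_cast
    rfl
  rw [h1, ZMod.val_add, ZMod.val_natCast, Nat.add_mod_mod, Nat.mod_mul_right_div_self,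
    Nat.add_mul_div_right _ _ hq]

theorem arc_lt {q L : ℕ} (hq : 0 < q) (hL : 0 < L) (v : ZMod (q * L)) : v.val / q < L := by
  have : NeZero (q * L) := ⟨(Nat.mul_pos hq hL).ne'⟩
  exact Nat.div_lt_of_lt_mul (ZMod.val_lt v)

/-- A small change does not change the arc index away from the ends of the arcs. -/
theorem arc_margin {q L m : ℕ} (hq : 0 < q) (hL : 0 < L) (v : ZMod (q * L)) (e : ℤ)
    (he : |e| ≤ m) (h1 : m ≤ v.val % q) (h2 : v.val % q + m < q) :
    (v + (e : ZMod (q * L))).val / q = v.val / q := by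
  have : NeZero (q * L) := ⟨(Nat.mul_pos hq hL).ne'⟩
  have hlt := arc_lt hq hL v
  rw [abs_le] at he
  obtain ⟨k, hk⟩ : ∃ k : ℕ, ((v.val % q : ℕ) : ℤ) + e = (k : ℤ) :=
    ⟨(((v.val % q : ℕ) : ℤ) + e).toNat, (Int.toNat_of_nonneg (by omega)).symm⟩
  have hkq : k < q := by omega
  have hdm := Nat.div_add_mod v.val q
  have hv : v = ((q * (v.val / q) + v.val % q : ℕ) : ZMod (q * L)) := by
    rw [hdm, ZMod.natCast_val, ZMod.cast_id]
  have key : ∀ a r : ℕ, v = ((q * a + r : ℕ) : ZMod (q * L)) → (r : ℤ) + e = (k : ℤ) →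
      v + (e : ZMod (q * L)) = ((q * a + k : ℕ) : ZMod (q * L)) := by
    intro a r hv hk
    have h4 : ((k : ℕ) : ZMod (q * L)) = (((r : ℤ) + e : ℤ) : ZMod (q * L)) := by
      rw [hk, Int.cast_natCast]
    rw [Nat.cast_add, h4, hv]
    push_cast
    ring
  have h3 : v + (e : ZMod (q * L)) = ((q * (v.val / q) + k : ℕ) : ZMod (q * L)) := key _ _ hv hk
  have h5 : q * (v.val / q) + k < q * L := by
    calc q * (v.val / q) + k < q * (v.val / q) + q := by omega
      _ = q * (v.val / q + 1) := by ring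
      _ ≤ q * L := Nat.mul_le_mul_left _ hlt
  rw [h3, ZMod.val_natCast, Nat.mod_eq_of_lt h5, Nat.mul_add_div hq, Nat.div_eq_of_lt hkq,
    Nat.add_zero]

/-- Subtracting the residue modulo `L` gives a multiple of `L`. -/
theorem base_val {q L : ℕ} (hq : 0 < q) (hL : 0 < L) (v : ZMod (q * L)) :
    (v - ((v.val % L : ℕ) : ZMod (q * L))).val = v.val - v.val % L := by
  have : NeZero (q * L) := ⟨(Nat.mul_pos hq hL).ne'⟩
  have hle : v.val % L ≤ v.val := Nat.mod_le _ _
  have h1 : v - ((v.val % L : ℕ) : ZMod (q * L)) = ((v.val - v.val % L : ℕ) : ZMod (q * L)) := by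
    rw [Nat.cast_sub hle, ZMod.natCast_val, ZMod.cast_id]
  rw [h1, ZMod.val_natCast, Nat.mod_eq_of_lt]
  exact lt_of_le_of_lt (Nat.sub_le _ _) (ZMod.val_lt v)

/-- Adding less than `L` to a multiple of `L`. -/
theorem add_val {q L : ℕ} (hq : 0 < q) (hL : 0 < L) (v : ZMod (q * L)) (hv : v.val % L = 0)
    (c : ℕ) (hc : c < L) : (v + (c : ZMod (q * L))).val = v.val + c := by
  have : NeZero (q * L) := ⟨(Nat.mul_pos hq hL).ne'⟩
  obtain ⟨k, hk⟩ := Nat.dvd_of_mod_eq_zero hv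
  have hlt := ZMod.val_lt v
  have hk1 : k < q := by
    rw [hk, Nat.mul_comm L k] at hlt
    exact Nat.lt_of_mul_lt_mul_right hlt
  have h5 : v.val + c < q * L := by
    calc v.val + c < L * k + L := by omega
      _ = (k + 1) * L := by ring
      _ ≤ q * L := Nat.mul_le_mul_right _ hk1
  rw [ZMod.val_add, ZMod.val_natCast, Nat.add_mod_mod, Nat.mod_eq_of_lt h5]

end SMG
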