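import Pool.Agent.SMG.GEA
import Pool.Agent.SMG.GEB

/-! GEC: the geometry.

Direction: a coefficient vector `c`.  Offset of `x`: `(x (0, ev c 0)).val % L`; `blk c x` is `x`
minus the offset times `ind c`; the arc coordinate is `(wt c x).val / q`; `x` is good for `c` if
`L * d ≤ (wt c x).val % q` and `(wt c x).val % q + L * d < q`. -/

namespace SMG

private def gecOff {q L d : ℕ} [NeZero q] (c : Fin d → ZMod q) (x : Grid q L) : ℕ :=
  (x (0, ev c 0)).val % L

private def gecBlk {q L d : ℕ} [NeZero q] (c : Fin d → ZMod q) (x : Grid q L) : Grid q L :=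
  x - ((gecOff c x : ℕ) : ZMod (q * L)) • (ind c : Grid q L)

private theorem gec_ind_self {q L d : ℕ} [NeZero q] (c : Fin d → ZMod q) (a : ZMod q) :
    (ind c : Grid q L) (a, ev c a) = 1 := by
  simp [ind]

private theorem gec_eq {q L d : ℕ} [NeZero q] (c : Fin d → ZMod q) (x : Grid q L) :
    x = gecBlk c x + ((gecOff c x : ℕ) : ZMod (q * L)) • (ind c : Grid q L) := by
  simp [gecBlk]

private theorem gec_off_lt {q L d : ℕ} [NeZero q] (hL : 0 < L) (c : Fin d → ZMod q)
    (x : Grid q L) : gecOff c x < L := Nat.mod_lt _ hL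

private theorem gec_base {q L d : ℕ} [NeZero q] (hL : 0 < L) (c : Fin d → ZMod q)
    (x : Grid q L) : (gecBlk c x (0, ev c 0)).val % L = 0 := by
  have h1 : gecBlk c x (0, ev c 0) = x (0, ev c 0) - ((gecOff c x : ℕ) : ZMod (q * L)) := by
    simp only [gecBlk, Pi.sub_apply, Pi.smul_apply, gec_ind_self, smul_eq_mul, mul_one]
  rw [h1, gecOff, base_val (Nat.pos_of_ne_zero (NeZero.ne q)) hL]
  exact Nat.mod_eq_zero_of_dvd (Nat.dvd_sub_mod _)

private theorem gec_off_add {q L d : ℕ} [NeZero q] (hL : 0 < L) (c : Fin d → ZMod q)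
    (x : Grid q L) (t : ℕ) (ht : t < L) :
    gecOff c (gecBlk c x + ((t : ℕ) : ZMod (q * L)) • (ind c : Grid q L)) = t := by
  have h1 : (gecBlk c x + ((t : ℕ) : ZMod (q * L)) • (ind c : Grid q L)) (0, ev c 0) =
      gecBlk c x (0, ev c 0) + ((t : ℕ) : ZMod (q * L)) := by
    simp only [Pi.add_apply, Pi.smul_apply, gec_ind_self, smul_eq_mul, mul_one]
  rw [gecOff, h1, add_val (Nat.pos_of_ne_zero (NeZero.ne q)) hL _ (gec_base hL c x) t ht,
    Nat.add_mod, gec_base hL c x, Nat.zero_add, Nat.mod_mod, Nat.mod_eq_of_lt ht]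

private theorem gec_blk_add {q L d : ℕ} [NeZero q] (hL : 0 < L) (c : Fin d → ZMod q)
    (x : Grid q L) (t : ℕ) (ht : t < L) :
    gecBlk c (gecBlk c x + ((t : ℕ) : ZMod (q * L)) • (ind c : Grid q L)) = gecBlk c x := by
  have h := gec_off_add hL c x t ht
  rw [gecBlk, h]
  exact add_sub_cancel_right _ _

/-- Two positions of a block differ by a small multiple of the indicator function. -/
private theorem gec_rep {q L d : ℕ} [NeZero q] (hL : 0 < L) (c : Fin d → ZMod q)
    (x x' : Grid q L) (h : gecBlk c x' = gecBlk c x) :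
    ∃ e : ℤ, |e| < L ∧ x' = x + ((e : ℤ) : ZMod (q * L)) • (ind c : Grid q L) := by
  refine ⟨(gecOff c x' : ℤ) - (gecOff c x : ℤ), ?_, ?_⟩
  · have h1 := gec_off_lt hL c x
    have h2 := gec_off_lt hL c x'
    rw [abs_lt]
    constructor <;> omega
  · have h1 := gec_eq c x
    have h2 := gec_eq c x'
    rw [h] at h2
    have h3 : (((gecOff c x' : ℤ) - (gecOff c x : ℤ) : ℤ) : ZMod (q * L)) =
        ((gecOff c x' : ℕ) : ZMod (q * L)) - ((gecOff c x : ℕ) : ZMod (q * L)) := by
      push_cast
      rfl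
    rw [h3, sub_smul]
    calc x' = gecBlk c x + ((gecOff c x' : ℕ) : ZMod (q * L)) • (ind c : Grid q L) := h2
      _ = (gecBlk c x + ((gecOff c x : ℕ) : ZMod (q * L)) • (ind c : Grid q L)) +
          (((gecOff c x' : ℕ) : ZMod (q * L)) • (ind c : Grid q L) -
            ((gecOff c x : ℕ) : ZMod (q * L)) • (ind c : Grid q L)) := by abel
      _ = x + _ := by rw [← h1]

private theorem gec_cast_ne {q L : ℕ} (hq : 0 < q) (e : ℤ) (he : |e| < L)
    (h : ((e : ℤ) : ZMod (q * L)) = 0) : e = 0 := by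
  rw [ZMod.intCast_zmod_eq_zero_iff_dvd] at h
  refine Int.eq_zero_of_abs_lt_dvd h ?_
  calc |e| < (L : ℤ) := he
    _ ≤ ((q * L : ℕ) : ℤ) := by
      push_cast
      have : (1 : ℤ) ≤ q := by exact_mod_cast hq
      nlinarith [Int.natCast_nonneg L]

private theorem gec_exists_ne {q d : ℕ} [Fact q.Prime] (hdq : d ≤ q) (c c' : Fin d → ZMod q)
    (h : c ≠ c') : ∃ a : ZMod q, ev c a ≠ ev c' a := by
  by_contra hcon
  push Not at hcon
  have h1 := inter_card hdq c c' h
  have h2 : Nat.card {a : ZMod q // ev c a = ev c' a} = q := by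
    rw [Nat.card_congr (Equiv.subtypeUnivEquiv hcon)]
    simp
  omega

theorem exists_geo0 (q L d : ℕ) [Fact q.Prime] (hL : 0 < L) (hd : 0 < d) (hdq : d ≤ q) :
    ∃ G : Geo (Grid q L) (Fin d → ZMod q) (Fin L),
      ∀ p, Nat.card {x // ¬ G.good p x} * q ≤ 2 * (L * d) * Nat.card (Grid q L) := by
  have hq : 0 < q := (Fact.out : q.Prime).pos
  refine ⟨{ blk := fun c x => gecBlk c x
            arc := fun c x => ⟨(wt c x).val / q, arc_lt hq hL _⟩
            arc_ex := ?_
            arc_inj := ?_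
            dir_uniq := ?_
            good := fun c x => L * d ≤ (wt c x).val % q ∧ (wt c x).val % q + L * d < q
            good_spec := ?_ }, ?_⟩
  · intro c x r
    have hb : ∀ t : ℕ, (wt c (gecBlk c x + ((t : ℕ) : ZMod (q * L)) • (ind c : Grid q L))).val / q
        = ((wt c (gecBlk c x)).val / q + t) % L := by
      intro t
      rw [wt_shift_self, arc_shift hq hL]
    have hlt := arc_lt hq hL (wt c (gecBlk c x))
    set β := (wt c (gecBlk c x)).val / q with hβ
    refine ⟨gecBlk c x + (((r.val + (L - β)) % L : ℕ) : ZMod (q * L)) • (ind c : Grid q L),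
      gec_blk_add hL c x _ (Nat.mod_lt _ hL), ?_⟩
    apply Fin.ext
    show (wt c (gecBlk c x + (((r.val + (L - β)) % L : ℕ) : ZMod (q * L)) •
      (ind c : Grid q L))).val / q = r.val
    rw [hb, Nat.add_mod_mod]
    have h1 : β + (r.val + (L - β)) = r.val + L := by omega
    rw [h1, Nat.add_mod_right, Nat.mod_eq_of_lt r.isLt]
  · intro c x x' hblk harc
    have harc' : (wt c x').val / q = (wt c x).val / q := congrArg Fin.val harc
    have h1 := gec_eq c x
    have h2 := gec_eq c x'
    rw [hblk] at h2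
    have hb : ∀ t : ℕ, (wt c (gecBlk c x + ((t : ℕ) : ZMod (q * L)) • (ind c : Grid q L))).val / q
        = ((wt c (gecBlk c x)).val / q + t) % L := by
      intro t
      rw [wt_shift_self, arc_shift hq hL]
    have e1 : (wt c x).val / q = ((wt c (gecBlk c x)).val / q + gecOff c x) % L := by
      conv_lhs => rw [h1]
      exact hb _
    have e2 : (wt c x').val / q = ((wt c (gecBlk c x)).val / q + gecOff c x') % L := by
      conv_lhs => rw [h2]
      exact hb _
    rw [e1, e2] at harc'
    have hoff : gecOff c x' = gecOff c x := by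
      have h3 : gecOff c x' ≡ gecOff c x [MOD L] := Nat.ModEq.add_left_cancel' _ harc'
      have h4 := gec_off_lt hL c x
      have h5 := gec_off_lt hL c x'
      exact Nat.ModEq.eq_of_lt_of_lt h3 h5 h4
    rw [h2, hoff, ← h1]
  · intro p p' x x' hne h1 h2
    by_contra hpp
    obtain ⟨a, ha⟩ := gec_exists_ne hdq p p' hpp
    obtain ⟨e, he, hx⟩ := gec_rep hL p x x' h1.symm
    obtain ⟨e', he', hx'⟩ := gec_rep hL p' x x' h2.symm
    have h3 : x' (a, ev p a) = x (a, ev p a) + ((e : ℤ) : ZMod (q * L)) := by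
      conv_lhs => rw [hx]
      simp only [Pi.add_apply, Pi.smul_apply, gec_ind_self, smul_eq_mul, mul_one]
    have h4 : x' (a, ev p a) = x (a, ev p a) := by
      conv_lhs => rw [hx']
      simp only [Pi.add_apply, Pi.smul_apply, smul_eq_mul, ind, if_neg ha, mul_zero, add_zero]
    have h5 : ((e : ℤ) : ZMod (q * L)) = 0 := by
      have h6 : x (a, ev p a) + ((e : ℤ) : ZMod (q * L)) = x (a, ev p a) + 0 := by
        rw [← h3, h4, add_zero]
      exact add_left_cancel h6
    have h6 := gec_cast_ne hq e he h5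
    apply hne
    rw [hx, h6]
    simp
  · intro p₀ p x x' hpp hblk hgood
    obtain ⟨e, he, hx⟩ := gec_rep hL p x x' hblk
    apply Fin.ext
    show (wt p₀ x').val / q = (wt p₀ x).val / q
    have h1 := inter_card hdq p p₀ hpp
    set k := Nat.card {a : ZMod q // ev p a = ev p₀ a} with hk
    have h2 : wt p₀ x' = wt p₀ x + ((e * (k : ℤ) : ℤ) : ZMod (q * L)) := by
      rw [hx, wt_shift]
      push_cast
      rfl
    rw [h2]
    refine arc_margin (m := L * d) hq hL _ _ ?_ hgood.1 hgood.2
    rw [abs_mul]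
    push_cast
    have h3 : |(k : ℤ)| ≤ d := by
      rw [abs_of_nonneg (Int.natCast_nonneg k)]
      exact_mod_cast h1.le
    exact mul_le_mul he.le h3 (abs_nonneg _) (Int.natCast_nonneg L)
  · intro p
    exact bad_count hL p (L * d)

end SMG
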