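import Pool.Agent.SMG.Defs

/-! INF: the information lemma (finite counting). -/

namespace SMG

/-- Number of correct words times the number of words on the predicted places. -/
theorem inf_cor_card {J : Type} [Fintype J] [DecidableEq J] (o : J → Option Bool)
    [DecidablePred (fun x : J → Bool => ∀ j β, o j = some β → x j = β)] :
    Fintype.card {x : J → Bool // ∀ j β, o j = some β → x j = β} *
      2 ^ Fintype.card {j // (o j).isSome} ≤ 2 ^ Fintype.card J := by
  classical
  have h1 : Fintype.card ({x : J → Bool // ∀ j β, o j = some β → x j = β} ×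
      ({j // (o j).isSome} → Bool)) ≤ Fintype.card (J → Bool) := by
    refine Fintype.card_le_of_injective
      (fun s => fun j => if h : (o j).isSome then s.2 ⟨j, h⟩ else s.1.1 j) ?_
    rintro ⟨⟨x, hx⟩, y⟩ ⟨⟨x', hx'⟩, y'⟩ h
    have hh : ∀ j, (if h : (o j).isSome then y ⟨j, h⟩ else x j) =
        (if h : (o j).isSome then y' ⟨j, h⟩ else x' j) := fun j => congrFun h j
    have e1 : x = x' := by
      funext j
      by_cases hj : (o j).isSome
      · obtain ⟨β, hβ⟩ := Option.isSome_iff_exists.1 hj
        rw [hx j β hβ, hx' j β hβ]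
      · have := hh j
        rwa [dif_neg hj, dif_neg hj] at this
    have e2 : y = y' := by
      funext ⟨j, hj⟩
      have := hh j
      rwa [dif_pos hj, dif_pos hj] at this
    subst e1 e2
    rfl
  rw [Fintype.card_prod, Fintype.card_fun, Fintype.card_fun, Fintype.card_bool] at h1
  exact h1

theorem inf_sum_le {J : Type} [Fintype J] [DecidableEq J] (o : J → Option Bool)
    [DecidablePred (fun x : J → Bool => ∀ j β, o j = some β → x j = β)] :
    ∑ x : J → Bool, (if ∀ j β, o j = some β → x j = β then
      2 ^ Fintype.card {j // (o j).isSome} else 1) ≤ 2 * 2 ^ Fintype.card J := by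
  have h1 : ∑ x : J → Bool, (if ∀ j β, o j = some β → x j = β then
      2 ^ Fintype.card {j // (o j).isSome} else 1) ≤
      ∑ x : J → Bool, ((if ∀ j β, o j = some β → x j = β then
        2 ^ Fintype.card {j // (o j).isSome} else 0) + 1) := by
    refine Finset.sum_le_sum fun x _ => ?_
    split_ifs
    · exact Nat.le_succ _
    · exact le_refl _
  refine h1.trans ?_
  rw [Finset.sum_add_distrib, ← Finset.sum_filter, Finset.sum_const, smul_eq_mul,
    ← Fintype.card_subtype]
  have h2 := inf_cor_card o
  have h3 : ∑ _x : J → Bool, 1 = 2 ^ Fintype.card J := by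
    rw [Finset.sum_const, smul_eq_mul, mul_one, Finset.card_univ, Fintype.card_fun,
      Fintype.card_bool]
  omega

/-- `F` compresses the switch bits of all directions to few states, `g` predicts bits of one
direction from the state.  Then for most pairs (direction, bits) the prediction is wrong or
predicts fewer than `B` bits. -/
theorem info {Dir J S : Type} [Finite Dir] [Nonempty Dir] [Finite J]
    [Finite S]
    (b a B : ℕ) (η : ℝ) (hη : 0 < η) (hS : Nat.card S ≤ 2 ^ b)
    (hB : (b : ℝ) + Nat.card Dir + a ≤ η * B * Nat.card Dir)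
    (F : (Dir → J → Bool) → S) (g : S → Dir → J → Option Bool) :
    (Nat.card {s : Dir × (Dir → J → Bool) //
        B ≤ Nat.card {j // (g (F s.2) s.1 j).isSome} ∧
        ∀ j β, g (F s.2) s.1 j = some β → s.2 s.1 j = β} : ℝ) ≤
      (η + 1 / 2 ^ a) * (Nat.card Dir * Nat.card (Dir → J → Bool)) := by
  classical
  haveI : Fintype Dir := Fintype.ofFinite Dir
  haveI : Fintype J := Fintype.ofFinite J
  haveI : Fintype S := Fintype.ofFinite S
  simp only [Nat.card_eq_fintype_card] at hS hB ⊢
  set t : ℕ := Fintype.card Dir with ht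
  have htpos : 0 < t := Fintype.card_pos
  have htR : (0 : ℝ) < t := by exact_mod_cast htpos
  let K : S → Dir → ℕ := fun m p => Fintype.card {j // (g m p j).isSome}
  let cor : S → Dir → (J → Bool) → Prop := fun m p x => ∀ j β, g m p j = some β → x j = β
  let Q : S → (Dir → J → Bool) → ℕ := fun m X => ∑ p, if cor m p (X p) then K m p else 0
  have hcardX : Fintype.card (Dir → J → Bool) = (2 ^ Fintype.card J) ^ t := by
    rw [Fintype.card_fun, Fintype.card_fun, Fintype.card_bool]
  -- the exponential moment
  have hmom : ∀ m : S, ∑ X : Dir → J → Bool, 2 ^ Q m X ≤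
      2 ^ t * Fintype.card (Dir → J → Bool) := by
    intro m
    have e1 : ∀ X : Dir → J → Bool, 2 ^ Q m X =
        ∏ p, (if cor m p (X p) then 2 ^ K m p else 1) := by
      intro X
      rw [← Finset.prod_pow_eq_pow_sum]
      refine Finset.prod_congr rfl fun p _ => ?_
      split_ifs <;> simp
    have e2 : ∑ X : Dir → J → Bool, 2 ^ Q m X =
        ∏ p, ∑ x : J → Bool, (if cor m p x then 2 ^ K m p else 1) := by
      rw [Finset.prod_univ_sum, Fintype.piFinset_univ]
      exact Finset.sum_congr rfl fun X _ => e1 X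
    rw [e2, hcardX, ← mul_pow]
    calc ∏ p, ∑ x : J → Bool, (if cor m p x then 2 ^ K m p else 1)
        ≤ ∏ _p : Dir, (2 * 2 ^ Fintype.card J) :=
          Finset.prod_le_prod' fun p _ => inf_sum_le (g m p)
      _ = (2 * 2 ^ Fintype.card J) ^ t := by
          rw [Finset.prod_const, Finset.card_univ]
  -- the bad words
  set q : ℕ := b + t + a with hq
  have hbad1 : ∀ m : S, (Finset.univ.filter fun X => q ≤ Q m X).card * 2 ^ q ≤
      2 ^ t * Fintype.card (Dir → J → Bool) := by
    intro m
    calc (Finset.univ.filter fun X => q ≤ Q m X).card * 2 ^ q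
        = ∑ _X ∈ Finset.univ.filter (fun X => q ≤ Q m X), 2 ^ q := by
          rw [Finset.sum_const, smul_eq_mul]
      _ ≤ ∑ X ∈ Finset.univ.filter (fun X => q ≤ Q m X), 2 ^ Q m X := by
          refine Finset.sum_le_sum fun X hX => ?_
          exact Nat.pow_le_pow_right (by norm_num) (Finset.mem_filter.1 hX).2
      _ ≤ ∑ X, 2 ^ Q m X :=
          Finset.sum_le_sum_of_subset (Finset.filter_subset _ _)
      _ ≤ _ := hmom m
  set Bad : Finset (Dir → J → Bool) := Finset.univ.filter fun X => q ≤ Q (F X) X with hBad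
  have hbad2 : Bad.card * 2 ^ q ≤ 2 ^ b * (2 ^ t * Fintype.card (Dir → J → Bool)) := by
    have hsub : Bad ⊆ Finset.univ.biUnion (fun m : S => Finset.univ.filter fun X => q ≤ Q m X) := by
      intro X hX
      rw [Finset.mem_biUnion]
      exact ⟨F X, Finset.mem_univ _, Finset.mem_filter.2 ⟨Finset.mem_univ _,
        (Finset.mem_filter.1 hX).2⟩⟩
    have h1 : Bad.card ≤ ∑ m : S, (Finset.univ.filter fun X => q ≤ Q m X).card :=
      (Finset.card_le_card hsub).trans Finset.card_biUnion_le
    calc Bad.card * 2 ^ q ≤ (∑ m : S, (Finset.univ.filter fun X => q ≤ Q m X).card) * 2 ^ q :=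
          Nat.mul_le_mul_right _ h1
      _ = ∑ m : S, (Finset.univ.filter fun X => q ≤ Q m X).card * 2 ^ q := by
          rw [Finset.sum_mul]
      _ ≤ ∑ _m : S, 2 ^ t * Fintype.card (Dir → J → Bool) :=
          Finset.sum_le_sum fun m _ => hbad1 m
      _ = Fintype.card S * (2 ^ t * Fintype.card (Dir → J → Bool)) := by
          rw [Finset.sum_const, smul_eq_mul, Finset.card_univ]
      _ ≤ _ := Nat.mul_le_mul_right _ hS
  have hbad3 : Bad.card * 2 ^ a ≤ Fintype.card (Dir → J → Bool) := by
    have h1 : (2 ^ b * 2 ^ t) * (Bad.card * 2 ^ a) ≤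
        (2 ^ b * 2 ^ t) * Fintype.card (Dir → J → Bool) := by
      calc (2 ^ b * 2 ^ t) * (Bad.card * 2 ^ a) = Bad.card * 2 ^ q := by
            rw [hq, pow_add, pow_add]; ring
        _ ≤ _ := hbad2
        _ = _ := by ring
    exact Nat.le_of_mul_le_mul_left h1 (by positivity)
  -- counting
  let cc : (Dir → J → Bool) → ℕ := fun X =>
    (Finset.univ.filter fun p : Dir => B ≤ K (F X) p ∧ cor (F X) p (X p)).card
  have hBpos : 0 < B := by
    rcases Nat.eq_zero_or_pos B with h | h
    · exfalso
      rw [h] at hB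
      simp only [Nat.cast_zero, mul_zero, zero_mul] at hB
      have h1 : (0 : ℝ) ≤ b := Nat.cast_nonneg _
      have h2 : (0 : ℝ) ≤ a := Nat.cast_nonneg _
      linarith
    · exact h
  have hBR : (0 : ℝ) < B := by exact_mod_cast hBpos
  have hcc1 : ∀ X, B * cc X ≤ Q (F X) X := by
    intro X
    calc B * cc X = ∑ _p ∈ Finset.univ.filter
            (fun p : Dir => B ≤ K (F X) p ∧ cor (F X) p (X p)), B := by
          rw [Finset.sum_const, smul_eq_mul, mul_comm]
      _ ≤ ∑ p ∈ Finset.univ.filter (fun p : Dir => B ≤ K (F X) p ∧ cor (F X) p (X p)),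
            (if cor (F X) p (X p) then K (F X) p else 0) := by
          refine Finset.sum_le_sum fun p hp => ?_
          have := (Finset.mem_filter.1 hp).2
          rw [if_pos this.2]
          exact this.1
      _ ≤ _ := Finset.sum_le_sum_of_subset (Finset.filter_subset _ _)
  have hcc2 : ∀ X, X ∉ Bad → (cc X : ℝ) ≤ η * t := by
    intro X hX
    have h1 : Q (F X) X < q := by
      by_contra h
      exact hX (Finset.mem_filter.2 ⟨Finset.mem_univ _, not_lt.1 h⟩)
    have h2 : ((B * cc X : ℕ) : ℝ) ≤ (q : ℝ) := by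
      exact_mod_cast ((hcc1 X).trans h1.le)
    have h3 : (q : ℝ) ≤ η * B * t := by
      rw [hq]; push_cast; linarith
    have h4 : (B : ℝ) * cc X ≤ B * (η * t) := by
      push_cast at h2
      linarith
    exact le_of_mul_le_mul_left h4 hBR
  have hcc3 : ∀ X, (cc X : ℝ) ≤ t := by
    intro X
    have : cc X ≤ t := (Finset.card_le_univ _)
    exact_mod_cast this
  have hcount : Fintype.card {s : Dir × (Dir → J → Bool) //
        B ≤ Fintype.card {j // (g (F s.2) s.1 j).isSome} ∧
        ∀ j β, g (F s.2) s.1 j = some β → s.2 s.1 j = β} = ∑ X, cc X := by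
    rw [Fintype.card_subtype, Finset.card_filter, Fintype.sum_prod_type_right]
    refine Finset.sum_congr rfl fun X _ => ?_
    exact (Finset.card_filter _ _).symm
  rw [hcount]
  push_cast
  have hle : ∀ X, (cc X : ℝ) ≤ η * t + (if X ∈ Bad then (t : ℝ) else 0) := by
    intro X
    by_cases hX : X ∈ Bad
    · rw [if_pos hX]
      have := hcc3 X
      have : 0 ≤ η * t := by positivity
      linarith [hcc3 X]
    · rw [if_neg hX]
      linarith [hcc2 X hX]
  calc ∑ X, (cc X : ℝ) ≤ ∑ X, (η * t + (if X ∈ Bad then (t : ℝ) else 0)) :=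
        Finset.sum_le_sum fun X _ => hle X
    _ = Fintype.card (Dir → J → Bool) * (η * t) + Bad.card * t := by
        rw [Finset.sum_add_distrib, Finset.sum_const, ← Finset.sum_filter, Finset.sum_const,
          Finset.card_univ, nsmul_eq_mul, nsmul_eq_mul, Finset.filter_mem_eq_inter,
          Finset.univ_inter]
    _ ≤ Fintype.card (Dir → J → Bool) * (η * t) +
          (Fintype.card (Dir → J → Bool) / 2 ^ a) * t := by
        have h1 : (Bad.card : ℝ) * 2 ^ a ≤ Fintype.card (Dir → J → Bool) := by
          exact_mod_cast hbad3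
        have h2 : (Bad.card : ℝ) ≤ Fintype.card (Dir → J → Bool) / 2 ^ a := by
          rw [le_div_iff₀ (by positivity)]
          exact h1
        have h3 := mul_le_mul_of_nonneg_right h2 htR.le
        linarith
    _ = _ := by ring

end SMG
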