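import Pool.Agent.SMG.NDP

/-! PRE: predictions made by a set of edges of the stream are correct and account for all its
edges in one direction of one phase. -/

namespace SMG

variable {Pos Dir T U : Type} {N D : ℕ}

/-- An edge of a slot which belongs to the stream carries the right switch bit. -/
theorem pre_bit [Fintype Pos] [Fintype Dir] [Fintype T] (C : Cert T U N)
    (G : Geo Pos Dir (Fin N → ZMod D)) (R : Roles N D U C.stop)
    (P : Fin N → Dir) (X : Fin N → Dir → JJ Pos T → Bool) (i : Fin N) (p : Dir) (j : JJ Pos T)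
    (τ τ' : Bool) (hs : slot C G (i : ℕ) p j)
    (he : edg j.1.1 j.1.2 τ j.2.1 j.2.2 τ' ∈ stream C G R P X) :
    τ' = xor τ (X i p j) := by
  obtain ⟨ha, hb, hph, hne, hblk⟩ := hs
  rcases (mem_stream C G R P X _).1 he with ⟨i', p', j', ρ, h1, h2⟩ | ⟨v, -, hv⟩
  · obtain ⟨-, ⟨ha', hb', hph', hne', hblk'⟩, -⟩ := h1
    obtain ⟨e1, e2, e3, e4, e5, e6⟩ := edg_inj C ha hb ha' hb' h2
    have ej : j = j' := Prod.ext (Prod.ext e1 e2) (Prod.ext e4 e5)
    subst ej
    have ei : i = i' := Fin.ext (hph.symm.trans hph')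
    subst ei
    have ep : p = p' := G.dir_uniq p p' _ _ hne hblk hblk'
    subst ep
    rw [e6, e3]
  · exfalso
    unfold edg at hv
    rw [Sym2.eq_iff] at hv
    rcases hv with ⟨-, h1⟩ | ⟨h1, -⟩
    · exact absurd h1 (by simp)
    · exact absurd h1 (by simp)

theorem pred_correct [Fintype Pos] [Fintype Dir] [Fintype T] (C : Cert T U N)
    (G : Geo Pos Dir (Fin N → ZMod D)) (R : Roles N D U C.stop)
    (P : Fin N → Dir) (X : Fin N → Dir → JJ Pos T → Bool) (O : Finset (Sym2 (VV Pos T)))
    (hO : ∀ e ∈ O, e ∈ stream C G R P X) (i : Fin N) (p : Dir) (j : JJ Pos T) (β : Bool)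
    (h : pred C G O (i : ℕ) p j = some β) : X i p j = β := by
  classical
  unfold pred at h
  by_cases hs : slot C G (i : ℕ) p j
  · rw [if_pos hs] at h
    by_cases hex : ∃ β : Bool, edg j.1.1 j.1.2 false j.2.1 j.2.2 β ∈ O ∨
        edg j.1.1 j.1.2 true j.2.1 j.2.2 (!β) ∈ O
    · rw [dif_pos hex] at h
      have hβ : hex.choose = β := Option.some.inj h
      rcases hex.choose_spec with h1 | h1
      · have := pre_bit C G R P X i p j _ _ hs (hO _ h1)
        rw [← hβ, this, Bool.false_xor]
      · have := pre_bit C G R P X i p j _ _ hs (hO _ h1)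
        rw [Bool.true_xor] at this
        rw [← hβ]
        exact (Bool.not_inj this).symm
    · rw [dif_neg hex] at h
      exact absurd h (by simp)
  · rw [if_neg hs] at h
    exact absurd h (by simp)

open Classical in
theorem spec_card [Fintype Pos] [Fintype Dir] [Fintype T] (C : Cert T U N)
    (G : Geo Pos Dir (Fin N → ZMod D)) (R : Roles N D U C.stop)
    (P : Fin N → Dir) (X : Fin N → Dir → JJ Pos T → Bool) (O : Finset (Sym2 (VV Pos T)))
    (hO : ∀ e ∈ O, e ∈ stream C G R P X) (i : Fin N) (p : Dir) :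
    (O.filter (fun e => e ∈ Spec C G (i : ℕ) p)).card ≤
      2 * Nat.card {j : JJ Pos T // (pred C G O (i : ℕ) p j).isSome} := by
  let φ : {j : JJ Pos T // (pred C G O (i : ℕ) p j).isSome} × Bool → Sym2 (VV Pos T) :=
    fun s => edg s.1.1.1.1 s.1.1.1.2 s.2 s.1.1.2.1 s.1.1.2.2 (xor s.2 (X i p s.1.1))
  have hsub : O.filter (fun e => e ∈ Spec C G (i : ℕ) p) ⊆ Finset.univ.image φ := by
    intro e he
    obtain ⟨heO, j, τ, τ', hs, rfl⟩ := Finset.mem_filter.1 he
    have hbit := pre_bit C G R P X i p j _ _ hs (hO _ heO)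
    have hex : ∃ β : Bool, edg j.1.1 j.1.2 false j.2.1 j.2.2 β ∈ O ∨
        edg j.1.1 j.1.2 true j.2.1 j.2.2 (!β) ∈ O := by
      refine ⟨X i p j, ?_⟩
      cases τ
      · left
        rw [Bool.false_xor] at hbit
        rw [← hbit]; exact heO
      · right
        rw [Bool.true_xor] at hbit
        rw [← hbit]; exact heO
    have hsome : (pred C G O (i : ℕ) p j).isSome := by
      unfold pred
      rw [if_pos hs, dif_pos hex]
      rfl
    rw [Finset.mem_image]
    refine ⟨(⟨j, hsome⟩, τ), Finset.mem_univ _, ?_⟩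
    change edg j.1.1 j.1.2 τ j.2.1 j.2.2 (xor τ (X i p j)) = _
    rw [hbit]
  calc (O.filter (fun e => e ∈ Spec C G (i : ℕ) p)).card ≤ (Finset.univ.image φ).card :=
        Finset.card_le_card hsub
    _ ≤ (Finset.univ : Finset ({j : JJ Pos T // (pred C G O (i : ℕ) p j).isSome} × Bool)).card :=
        Finset.card_image_le
    _ = 2 * Nat.card {j : JJ Pos T // (pred C G O (i : ℕ) p j).isSome} := by
        rw [Finset.card_univ, Fintype.card_prod, Fintype.card_bool, Nat.card_eq_fintype_card,
          mul_comm]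

end SMG
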